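import Pool.Agent.K4H5.BC.Glob

/-!
The bound for the order of vanishing.
-/

set_option autoImplicit false
set_option linter.unusedSectionVars false

open Polynomial Module

namespace Pool.Agent.K4H5.BC

open Pool.Agent.W313.Hyp Pool.Agent.W343.BSD Pool.Agent.Y709 Pool.Agent.Y709.Gen
  Pool.Agent.Y709.Lay

section cmp

variable {k R K : Type} [Field k] [Fintype k]
  [CommRing R] [IsDomain R] [CharZero R] [Field K] [Algebra k K] [IsAlgClosed K]
  [Algebra.IsAlgebraic k K] {p F₀ a : ℕ} [hp : Fact p.Prime] [CharP k p] [CharP K p]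
  (S : Sys p R K) (hF₀ : 0 < F₀) (hk : Fintype.card k = p ^ F₀) {m : ℕ → ℕ}
    (hm : ∀ i, m (i + F₀) = m i) (har : ∀ i, a * rot p F₀ m i < p ^ F₀ - 1) (ha : 2 ≤ a)
    (hM0 : 0 < rot p F₀ m 0) (χ : MulChar k R)
    (hχ : ∀ u, χ u = S.w (algebraMap k K) u ^ rot p F₀ m 0)

theorem charpolyRev_ne {ι : Type} [Fintype ι] [DecidableEq ι] (A : Matrix ι ι K) :
    A.charpolyRev ≠ 0 := by
  intro h
  have h1 : eval 0 A.charpolyRev = 1 := Matrix.eval_charpolyRev
  rw [h, eval_zero] at h1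
  exact zero_ne_one h1

theorem dl_ne {ι : Type} [Fintype ι] [DecidableEq ι] (Gf : ℕ → Matrix ι ι K[X]) (ρ : MI k → K)
    (P : MI k) : dl p F₀ Gf ρ P ≠ 0 := by
  unfold dl
  exact (expand_ne_zero (MI.deg_pos P)).2 (charpolyRev_ne _)

include hF₀ hk hm har ha hM0 hχ in
/-- the comparison of the local polynomials at a point of the line -/
theorem dl_fac (fc : Fin (a + 1) → k[X]) (ρ : MI k → K) (hρ : ∀ P : MI k, aeval (ρ P) P.1 = 0)
    (P : MI k) : ∃ h : K[X], h ≠ 0 ∧ h.natDegree ≤ a - 1 ∧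
      dl p F₀ (GM K p fc m) ρ P ∣ dl p F₀ (G1 K p (fc 0) m) ρ P * expand K P.1.natDegree h := by
  classical
  have hirr : Fact (Irreducible P.1) := ⟨P.2.2⟩
  have hfd : FiniteDimensional k (AdjoinRoot P.1) := P.2.1.finite_adjoinRoot
  have hfin : Finite (AdjoinRoot P.1) := Module.finite_of_finite k
  let σ : AdjoinRoot P.1 →ₐ[k] K := AdjoinRoot.liftAlgHom P.1 (Algebra.ofId k K) (ρ P) (by
    have := hρ P
    rw [aeval_def] at this
    exact this)
  have hσ : ∀ g : k[X], σ (AdjoinRoot.mk P.1 g) = aeval (ρ P) g := by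
    intro g
    show AdjoinRoot.liftAlgHom P.1 (Algebra.ofId k K) (ρ P) _ (AdjoinRoot.mk P.1 g) = _
    rw [AdjoinRoot.liftAlgHom_mk, aeval_def]
    rfl
  have hfr : finrank k (AdjoinRoot P.1) = P.1.natDegree := by
    have h2 := (AdjoinRoot.powerBasis P.2.1.ne_zero).finrank
    rw [AdjoinRoot.powerBasis_dim] at h2
    exact h2
  obtain ⟨h1, D, -, -, hD2, hD3⟩ := S.fibreK hF₀ hk hm har ha hM0 χ hχ σ
    (fun b : Fin (a + 1) => AdjoinRoot.mk P.1 (fc b))
  rw [hfr] at h1 hD2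
  simp only [hσ] at h1 hD2
  rw [← locS_GM] at hD2
  rcases hD3 with rfl | ⟨P', hP', hdeg⟩
  · refine ⟨1, one_ne_zero, ?_, ?_⟩
    · rw [natDegree_one]
      exact Nat.zero_le _
    · have h3 : dl p F₀ (GM K p fc m) ρ P = 1 := by
        unfold dl
        rw [← hD2, Polynomial.map_one, map_one]
      rw [h3]
      exact one_dvd _
  · have h3 : (locS (MonoidHom.id K) p (G1 K p (fc 0) m) (ρ P)
        (P.1.natDegree * F₀)).charpolyRev * P'.map S.π =
        (locS (MonoidHom.id K) p (GM K p fc m) (ρ P) (P.1.natDegree * F₀)).charpolyRev := by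
      rw [← hD2, hP', Polynomial.map_mul, locS_G1, charpolyRev_one', ← h1]
      simp only [Polynomial.map_sub, Polynomial.map_one, Polynomial.map_mul, map_C, map_X]
    have h4 : dl p F₀ (GM K p fc m) ρ P = dl p F₀ (G1 K p (fc 0) m) ρ P *
        expand K P.1.natDegree (P'.map S.π) := by
      unfold dl
      rw [← h3, map_mul]
    have h5 : dl p F₀ (GM K p fc m) ρ P ≠ 0 := dl_ne _ ρ P
    have h6 : P'.map S.π ≠ 0 := by
      intro h
      apply h5
      rw [h4, h, map_zero, mul_zero]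
    exact ⟨P'.map S.π, h6, natDegree_map_le.trans hdeg, h4.dvd⟩

include hF₀ hk hm har ha hM0 hχ in
/-- the multiplicities at a point of the line -/
theorem dl_cmp (fc : Fin (a + 1) → k[X]) (ρ : MI k → K) (hρ : ∀ P : MI k, aeval (ρ P) P.1 = 0)
    (P : MI k) {y : K} (hy : y ≠ 0) :
    (dl p F₀ (GM K p fc m) ρ P).rootMultiplicity y ≤
      (dl p F₀ (G1 K p (fc 0) m) ρ P).rootMultiplicity y +
        (a - 1) * p ^ padicValNat p P.1.natDegree := by
  obtain ⟨h, h0, h1, h2⟩ := dl_fac S hF₀ hk hm har ha hM0 χ hχ fc ρ hρ P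
  have h3 : dl p F₀ (G1 K p (fc 0) m) ρ P * expand K P.1.natDegree h ≠ 0 :=
    mul_ne_zero (dl_ne _ ρ P) ((expand_ne_zero (MI.deg_pos P)).2 h0)
  refine (rootMultiplicity_le_rootMultiplicity_of_dvd h3 h2 y).trans ?_
  rw [rootMultiplicity_mul h3]
  refine Nat.add_le_add_left ?_ _
  refine (rootMult_expand (p := p) (deg_ne P) hy h0).trans ?_
  exact Nat.mul_le_mul_right _ h1

include hF₀ hk hm har ha hM0 hχ in
/-- the degrees at a point of the line -/
theorem dl_deg (fc : Fin (a + 1) → k[X]) (ρ : MI k → K) (hρ : ∀ P : MI k, aeval (ρ P) P.1 = 0)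
    (P : MI k) :
    (dl p F₀ (GM K p fc m) ρ P).natDegree ≤
      (dl p F₀ (G1 K p (fc 0) m) ρ P).natDegree + (a - 1) * P.1.natDegree := by
  obtain ⟨h, h0, h1, h2⟩ := dl_fac S hF₀ hk hm har ha hM0 χ hχ fc ρ hρ P
  have h3 : dl p F₀ (G1 K p (fc 0) m) ρ P * expand K P.1.natDegree h ≠ 0 :=
    mul_ne_zero (dl_ne _ ρ P) ((expand_ne_zero (MI.deg_pos P)).2 h0)
  refine (natDegree_le_of_dvd h2 h3).trans ?_
  rw [natDegree_mul (dl_ne _ ρ P) ((expand_ne_zero (MI.deg_pos P)).2 h0), natDegree_expand]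
  exact Nat.add_le_add_left (Nat.mul_le_mul_right _ h1) _

end cmp

section bound

variable {k R K : Type} [Field k] [Fintype k]
  [CommRing R] [IsDomain R] [CharZero R] [Field K] [Algebra k K] [IsAlgClosed K]
  [Algebra.IsAlgebraic k K] {p F₀ a : ℕ} [hp : Fact p.Prime] [CharP k p] [CharP K p]
  (S : Sys p R K)
  {O : Type} [CommRing O] [Algebra k[X] O] (G : Type) [Group G] [Finite G]
  [MulSemiringAction G O] [IsGaloisGroup G k[X] O] [FaithfulSMul k[X] O]
  (hF₀ : 0 < F₀) (hk : Fintype.card k = p ^ F₀) {m : ℕ → ℕ}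
    (hm : ∀ i, m (i + F₀) = m i) (har : ∀ i, a * rot p F₀ m i < p ^ F₀ - 1) (ha : 2 ≤ a)
    (hM0 : 0 < rot p F₀ m 0) (χ : MulChar k R)
    (hχ : ∀ u, χ u = S.w (algebraMap k K) u ^ rot p F₀ m 0)

include hF₀ hk hm har ha hM0 hχ in
/-- the bounds for the factors of the Euler product -/
theorem order_gen {g : ℕ} (hG : Nat.card G = p ^ g) {δ β : ℕ} {f : k[X][X]}
    (hf : f.natDegree ≤ a) (hfc : ∀ b : ℕ, (f.coeff b).natDegree ≤ δ * (a - b) + β)
    (B : k[X]) (hB : B ≠ 0)
    (hun : ∀ 𝔪 : MaximalSpectrum O, vO k 𝔪 B ≠ 0 → 𝔪.asIdeal.inertia G = ⊥)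
    (F V : R[X])
    (hV : LB O χ f = PowerSeries.rescale ((p : R) ^ F₀) ((F * V : R[X]) : PowerSeries R)) :
    (∀ y : K, y ≠ 0 → (F.map S.π).rootMultiplicity y ≤
      Nat.card G * (Del K p F₀ (fun b : Fin (a + 1) => f.coeff b) m δ β).rootMultiplicity y +
        ∑ P ∈ divs B, defect O G P * ((a - 1) * p ^ padicValNat p P.1.natDegree)) ∧
    (F.map S.π).natDegree ≤
      Nat.card G * (Del K p F₀ (fun b : Fin (a + 1) => f.coeff b) m δ β).natDegree +
        ∑ P ∈ divs B, defect O G P * ((a - 1) * P.1.natDegree) := by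
  classical
  have hroot := fun P : MI k => exists_root_MI (K := K) P
  choose ρ hρ using hroot
  obtain ⟨LD, L1, hc, h1, h2, h3⟩ := global_bc S G hF₀ hk hm har ha hM0 χ hχ hG hf hfc ρ hρ B hB hun
  set fc : Fin (a + 1) → k[X] := fun b : Fin (a + 1) => f.coeff b with hfcd
  set Δ := Del K p F₀ fc m δ β with hΔd
  set Δ1 := Del1 K p F₀ (f.coeff 0) m with hΔ1d
  have hΔ : Δ ≠ 0 := charpolyRev_ne _
  have hΔ1 : Δ1 ≠ 0 := charpolyRev_ne _
  set A : K[X] := (∏ P ∈ divs B, dl p F₀ (GM K p fc m) ρ P ^ defect O G P) * Δ ^ Nat.card G with hA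
  set A1 : K[X] := (∏ P ∈ divs B, dl p F₀ (G1 K p (f.coeff 0) m) ρ P ^ defect O G P) *
    Δ1 ^ Nat.card G with hA1
  set Z : R[X] := F * V with hZ
  have hp0 : (p : R) ^ F₀ ≠ 0 := pow_ne_zero _ (Nat.cast_ne_zero.2 hp.out.ne_zero)
  have h4 : (Z : PowerSeries R) * LD = L1 := by
    rw [hV, ← map_mul] at h1
    ext n
    have h5 := congrArg (PowerSeries.coeff n) h1
    rw [PowerSeries.coeff_rescale, PowerSeries.coeff_rescale] at h5
    exact mul_left_cancel₀ (pow_ne_zero n hp0) h5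
  have h5 : (Z.map S.π) * A1 = A := by
    apply Polynomial.coe_injective
    rw [Polynomial.coe_mul, Polynomial.polynomial_map_coe]
    have h6 := congrArg (PowerSeries.map S.π) h4
    rw [map_mul] at h6
    linear_combination ((A : PowerSeries K) * (A1 : PowerSeries K)) * h6 -
      PowerSeries.map S.π (Z : PowerSeries R) * (A1 : PowerSeries K) * h2 +
      (A : PowerSeries K) * h3
  have hA0 : A ≠ 0 := by
    intro h
    rw [h, Polynomial.coe_zero, mul_zero] at h2
    exact zero_ne_one h2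
  rw [hZ, Polynomial.map_mul] at h5
  have hmul : (F.map S.π * V.map S.π) * A1 ≠ 0 := by
    rw [h5]
    exact hA0
  have hFV : F.map S.π * V.map S.π ≠ 0 := left_ne_zero_of_mul hmul
  have hF0 : F.map S.π ≠ 0 := left_ne_zero_of_mul hFV
  have hV0 : V.map S.π ≠ 0 := right_ne_zero_of_mul hFV
  have hA10 : A1 ≠ 0 := right_ne_zero_of_mul hmul
  have e1 : ∀ {ι : Type} [Fintype ι] [DecidableEq ι] (Gf : ℕ → Matrix ι ι K[X]),
      (∏ P ∈ divs B, dl p F₀ Gf ρ P ^ defect O G P : K[X]) ≠ 0 := fun Gf =>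
    Finset.prod_ne_zero_iff.2 fun P _ => pow_ne_zero _ (dl_ne Gf ρ P)
  constructor
  · intro y hy0
    have h6 : (F.map S.π).rootMultiplicity y + A1.rootMultiplicity y ≤ A.rootMultiplicity y := by
      rw [← h5, rootMultiplicity_mul hmul, rootMultiplicity_mul hFV]
      omega
    have hprod : ∀ {ι : Type} [Fintype ι] [DecidableEq ι] (Gf : ℕ → Matrix ι ι K[X]) (D : K[X])
        (hD : D ≠ 0), ((∏ P ∈ divs B, dl p F₀ Gf ρ P ^ defect O G P) *
          D ^ Nat.card G).rootMultiplicity y = ∑ P ∈ divs B, defect O G P *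
            (dl p F₀ Gf ρ P).rootMultiplicity y + Nat.card G * D.rootMultiplicity y := by
      intro ι _ _ Gf D hD
      have e2 : (∏ P ∈ divs B, dl p F₀ Gf ρ P ^ defect O G P).rootMultiplicity y =
          ∑ P ∈ divs B, defect O G P * (dl p F₀ Gf ρ P).rootMultiplicity y := by
        rw [← count_roots, roots_prod _ _ (e1 Gf), Multiset.count_bind]
        refine Finset.sum_congr rfl fun P _ => ?_
        rw [roots_pow, Multiset.count_nsmul, count_roots]
      have e3 : (D ^ Nat.card G).rootMultiplicity y = Nat.card G * D.rootMultiplicity y := by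
        rw [← count_roots, roots_pow, Multiset.count_nsmul, count_roots]
      rw [rootMultiplicity_mul (mul_ne_zero (e1 Gf) (pow_ne_zero _ hD)), e2, e3]
    have h8 := hprod (GM K p fc m) Δ hΔ
    have h9 := hprod (G1 K p (f.coeff 0) m) Δ1 hΔ1
    have h10 : ∑ P ∈ divs B, defect O G P * (dl p F₀ (GM K p fc m) ρ P).rootMultiplicity y ≤
        ∑ P ∈ divs B, defect O G P *
          (dl p F₀ (G1 K p (f.coeff 0) m) ρ P).rootMultiplicity y +
        ∑ P ∈ divs B, defect O G P * ((a - 1) * p ^ padicValNat p P.1.natDegree) := by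
      rw [← Finset.sum_add_distrib]
      refine Finset.sum_le_sum fun P _ => ?_
      rw [← mul_add]
      exact Nat.mul_le_mul_left _ (dl_cmp S hF₀ hk hm har ha hM0 χ hχ fc ρ hρ P hy0)
    rw [← hA] at h8
    rw [← hA1] at h9
    omega
  · have h6 : (F.map S.π).natDegree + A1.natDegree ≤ A.natDegree := by
      rw [← h5, natDegree_mul hFV hA10, natDegree_mul hF0 hV0]
      omega
    have hprod : ∀ {ι : Type} [Fintype ι] [DecidableEq ι] (Gf : ℕ → Matrix ι ι K[X]) (D : K[X])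
        (hD : D ≠ 0), ((∏ P ∈ divs B, dl p F₀ Gf ρ P ^ defect O G P) *
          D ^ Nat.card G).natDegree = ∑ P ∈ divs B, defect O G P *
            (dl p F₀ Gf ρ P).natDegree + Nat.card G * D.natDegree := by
      intro ι _ _ Gf D hD
      rw [natDegree_mul (e1 Gf) (pow_ne_zero _ hD), natDegree_pow,
        natDegree_prod _ _ (fun P _ => pow_ne_zero _ (dl_ne Gf ρ P))]
      congr 1
      exact Finset.sum_congr rfl fun P _ => natDegree_pow _ _
    have h8 := hprod (GM K p fc m) Δ hΔ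
    have h9 := hprod (G1 K p (f.coeff 0) m) Δ1 hΔ1
    have h10 : ∑ P ∈ divs B, defect O G P * (dl p F₀ (GM K p fc m) ρ P).natDegree ≤
        ∑ P ∈ divs B, defect O G P * (dl p F₀ (G1 K p (f.coeff 0) m) ρ P).natDegree +
        ∑ P ∈ divs B, defect O G P * ((a - 1) * P.1.natDegree) := by
      rw [← Finset.sum_add_distrib]
      refine Finset.sum_le_sum fun P _ => ?_
      rw [← mul_add]
      exact Nat.mul_le_mul_left _ (dl_deg S hF₀ hk hm har ha hM0 χ hχ fc ρ hρ P)
    rw [← hA] at h8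
    rw [← hA1] at h9
    omega

end bound

end Pool.Agent.K4H5.BC
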