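import Pool.Agent.K4H5.BC.Fam
import Pool.Agent.K4H5.PT.Ram

/-!
The reduction of an Euler product over a covering of `p`-power degree.
-/

set_option autoImplicit false
set_option linter.unusedSectionVars false

open Polynomial Module

namespace Pool.Agent.K4H5.BC

open Pool.Agent.W313.Hyp Pool.Agent.W343.BSD Pool.Agent.Y709 Pool.Agent.Y709.Gen
  Pool.Agent.Y709.Lay

section plane

variable {k : Type} [Field k] {O : Type} [CommRing O] [Algebra k[X] O] {R : Type} [CommRing R]

variable (O) in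
/-- the Euler product over the covering -/
noncomputable def LB (χ : MulChar k R) (f : k[X][X]) : PowerSeries R :=
  eulerProd (fun z : Σ 𝔪 : MaximalSpectrum O, MI (RO k 𝔪) =>
      finrank k (RO k z.1) * z.2.1.natDegree)
    (fun z => 1 - PowerSeries.C (χ (Algebra.norm k (AdjoinRoot.mk z.2.1 (f.map (vO k z.1))))) *
      PowerSeries.X ^ (finrank k (RO k z.1) * z.2.1.natDegree))

variable [Finite k] (G : Type) [Group G] [Finite G] [MulSemiringAction G O] [IsGaloisGroup G k[X] O]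

include G in
theorem LB_eq (χ : MulChar k R) (f : k[X][X]) :
    LB O χ f = eulerProd (fun 𝔪 : MaximalSpectrum O => finrank k (RO k 𝔪))
      (fun 𝔪 => PowerSeries.expand (finrank k (RO k 𝔪)) (finrank_ne' G 𝔪)
        (fibG R χ (f.map (vO k 𝔪)))) := by
  have hdv : ∀ (a : R) (n : ℕ), (PowerSeries.X : PowerSeries R) ^ n ∣
      (1 - PowerSeries.C a * PowerSeries.X ^ n) - 1 := by
    intro a n
    rw [sub_right_comm, sub_self, zero_sub]
    exact (dvd_neg).2 (dvd_mul_left _ _)
  have hfd : ∀ (𝔪 : MaximalSpectrum O) n, {Q : MI (RO k 𝔪) | Q.1.natDegree ≤ n}.Finite := by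
    intro 𝔪 n
    have h1 := finite_RO (k := k) G 𝔪
    exact finite_deg_le (F := RO k 𝔪) n
  unfold LB
  rw [eulerProd_sigma (d := fun 𝔪 : MaximalSpectrum O => finrank k (RO k 𝔪))
    (e := fun 𝔪 (Q : MI (RO k 𝔪)) => Q.1.natDegree)
    (fun n => points_finite (k := k) G n) (fun 𝔪 => Nat.pos_of_ne_zero (finrank_ne' G 𝔪))
    hfd (fun _ Q => MI.deg_pos Q) _ (fun z => hdv _ _)]
  congr 1
  funext 𝔪
  unfold fibG
  rw [expand_euler (hfd 𝔪) (finrank_ne' G 𝔪) (fun Q => hdv _ _)]
  congr 1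
  funext Q
  rw [map_sub, map_one, map_mul, map_pow, PowerSeries.expand_X, PowerSeries.expand_C, ← pow_mul]

end plane

section glob

variable {k R K : Type} [Field k] [Fintype k]
  [CommRing R] [IsDomain R] [CharZero R] [Field K] [Algebra k K] [IsAlgClosed K]
  [Algebra.IsAlgebraic k K] (π : R →+* K)
  {O : Type} [CommRing O] [Algebra k[X] O] (G : Type) [Group G] [Finite G]
  [MulSemiringAction G O] [IsGaloisGroup G k[X] O] [FaithfulSMul k[X] O]

/-- the number of the sheets which are missing at a point -/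
noncomputable def defect (O : Type) [CommRing O] [Algebra k[X] O] (G : Type) [Group G] [Finite G]
    [MulSemiringAction G O] [IsGaloisGroup G k[X] O] (P : MI k) : ℕ :=
  Nat.card G - ∑ 𝔪 ∈ (above_finite (O := O) G P).toFinset, 𝔪.asIdeal.inertiaDeg k[X]

theorem defect_ne {P : MI k} (h : defect O G P ≠ 0) :
    ∃ 𝔪 : MaximalSpectrum O, 𝔪 ∈ above k P ∧ 𝔪.asIdeal.inertia G ≠ ⊥ := by
  by_contra hcon
  push Not at hcon
  apply h
  have e1 := sum_inertiaDeg (O := O) G P hcon
  unfold defect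
  omega

/-- the points where a polynomial vanishes -/
noncomputable def divs (B : k[X]) : Finset (MI k) := by
  classical
  exact (finite_deg_le (F := k) B.natDegree).toFinset.filter (fun P => P.1 ∣ B)

theorem mem_divs {B : k[X]} (hB : B ≠ 0) (P : MI k) : P ∈ divs B ↔ P.1 ∣ B := by
  classical
  unfold divs
  rw [Finset.mem_filter, Set.Finite.mem_toFinset]
  constructor
  · exact fun h => h.2
  · exact fun h => ⟨natDegree_le_of_dvd h hB, h⟩

variable {ι : Type} [Fintype ι] [DecidableEq ι]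

/-- the local polynomial at a point of the line -/
noncomputable def dl (p F₀ : ℕ) (Gf : ℕ → Matrix ι ι K[X]) (ρ : MI k → K) (P : MI k) : K[X] :=
  Polynomial.expand K P.1.natDegree
    (locS (MonoidHom.id K) p Gf (ρ P) (P.1.natDegree * F₀)).charpolyRev

theorem coe_dl (p F₀ : ℕ) (Gf : ℕ → Matrix ι ι K[X]) (ρ : MI k → K) (P : MI k) :
    (dl p F₀ Gf ρ P : PowerSeries K) =
      locFS (MonoidHom.id K) p F₀ Gf (ρ P) P.1.natDegree (deg_ne P) := by
  unfold dl locFS
  rw [coe_expand _ (deg_ne P)]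

/-- the reduction of an Euler product over the covering -/
theorem cover_red {p F₀ g : ℕ} [hp : Fact p.Prime] [CharP k p]
    (hk : Fintype.card k = p ^ F₀) (hG : Nat.card G = p ^ g)
    (Gf : ℕ → Matrix ι ι K[X]) (hper : ∀ j, Gf (j + F₀) = Gf j) (ρ : MI k → K)
    (hρ : ∀ P : MI k, aeval (ρ P) P.1 = 0) (D : MaximalSpectrum O → R[X])
    (hD0 : ∀ 𝔪, (D 𝔪).coeff 0 = 1)
    (hDπ : ∀ (𝔪 : MaximalSpectrum O) [FiniteDimensional k (RO k 𝔪)], (D 𝔪).map π =
      (locS (MonoidHom.id K) p Gf (ρ (pt (k := k) 𝔪)) (finrank k (RO k 𝔪) * F₀)).charpolyRev)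
    (Δ : K[X]) (hΔ : eulerProd (fun P : MI k => P.1.natDegree)
      (fun P => locFS (MonoidHom.id K) p F₀ Gf (ρ P) P.1.natDegree (deg_ne P)) *
        (Δ : PowerSeries K) = 1) (B : k[X]) (hB : B ≠ 0)
    (hun : ∀ 𝔪 : MaximalSpectrum O, vO k 𝔪 B ≠ 0 → 𝔪.asIdeal.inertia G = ⊥) :
    PowerSeries.map π (eulerProd (fun 𝔪 : MaximalSpectrum O => finrank k (RO k 𝔪))
      (fun 𝔪 => PowerSeries.expand (finrank k (RO k 𝔪)) (finrank_ne' G 𝔪)
        (D 𝔪 : PowerSeries R))) *
      (((∏ P ∈ divs B, dl p F₀ Gf ρ P ^ defect O G P) * Δ ^ Nat.card G : K[X]) :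
        PowerSeries K) = 1 := by
  classical
  have hfin := fun n => points_finite (k := k) (O := O) G n
  have hfink := fun n => finite_deg_le (F := k) n
  have hfd : ∀ 𝔪 : MaximalSpectrum O, FiniteDimensional k (RO k 𝔪) := fun 𝔪 => finiteDim_RO G 𝔪
  have hpK : CharP K p := charP_of_injective_algebraMap (algebraMap k K).injective p
  set φ : MI k → PowerSeries K := fun P => locFS (MonoidHom.id K) p F₀ Gf
    (ρ P) P.1.natDegree (deg_ne P) with hφ
  set N : MI k → ℕ := fun P => ∑ 𝔪 ∈ (above_finite (O := O) G P).toFinset,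
    𝔪.asIdeal.inertiaDeg k[X] with hN
  have hdef : ∀ P, defect O G P = Nat.card G - N P := fun P => rfl
  have hNle : ∀ P, N P ≤ Nat.card G := fun P => PT.sum_inertiaDeg_le (O := O) G P
  have hNS : ∀ P, P ∉ divs B → N P = Nat.card G := by
    intro P hP
    refine sum_inertiaDeg (O := O) G P ?_
    intro 𝔪 h
    apply hun
    intro h0
    rw [vO_zero_iff] at h0
    have e1 : (pt (k := k) 𝔪).1 = P.1 := h
    rw [e1] at h0
    exact hP ((mem_divs hB P).2 h0)
  have hφ1 : ∀ P : MI k, (PowerSeries.X : PowerSeries K) ^ P.1.natDegree ∣ φ P - 1 :=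
    fun P => locFS_mod _ _ _ _ _ _ _
  have hpow : ∀ (P : MI k) (n : ℕ), (PowerSeries.X : PowerSeries K) ^ P.1.natDegree ∣
      φ P ^ n - 1 := by
    intro P n
    induction n with
    | zero => rw [pow_zero, sub_self]; exact dvd_zero _
    | succ n ih =>
      rw [pow_succ]
      exact one_mod_mul ih (hφ1 P)
  have h1 : (fun 𝔪 : MaximalSpectrum O => PowerSeries.map π (PowerSeries.expand
      (finrank k (RO k 𝔪)) (finrank_ne' G 𝔪) (D 𝔪 : PowerSeries R))) =
      fun 𝔪 => φ (pt (k := k) 𝔪) ^ (𝔪.asIdeal.inertiaDeg k[X]) := by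
    funext 𝔪
    have hfr : finrank k (RO k 𝔪) =
        (pt (k := k) 𝔪).1.natDegree * 𝔪.asIdeal.inertiaDeg k[X] := finrank_RO (k := k) G 𝔪
    rw [PowerSeries.map_expand, ← Polynomial.polynomial_map_coe, hDπ]
    have h2 : finrank k (RO k 𝔪) * F₀ =
        𝔪.asIdeal.inertiaDeg k[X] * ((pt (k := k) 𝔪).1.natDegree * F₀) := by
      rw [hfr]
      ring
    rw [h2, locS_pow (pt (k := k) 𝔪) hk Gf hper (hρ _)]
    exact expand_pow_charpolyRev (p := p) _ (deg_ne (pt (k := k) 𝔪)) (finrank_ne' G 𝔪)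
      (inertiaDeg_pow (k := k) G hp.out hG 𝔪) hfr
  have hmod : ∀ 𝔪 : MaximalSpectrum O, (PowerSeries.X : PowerSeries K) ^
      (finrank k (RO k 𝔪)) ∣ φ (pt (k := k) 𝔪) ^ (𝔪.asIdeal.inertiaDeg k[X]) - 1 := by
    intro 𝔪
    have h2 := congrFun h1 𝔪
    rw [← h2, PowerSeries.map_expand]
    apply expand_mod
    rw [← Polynomial.polynomial_map_coe, ← PowerSeries.coeff_zero_eq_constantCoeff_apply,
      Polynomial.coeff_coe, Polynomial.coeff_map, hD0, map_one]
  have h3 : eulerProd (fun P : MI k => P.1.natDegree) (fun P => ∏ 𝔪 ∈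
      (above_finite (O := O) G P).toFinset,
        φ (pt (k := k) 𝔪) ^ (𝔪.asIdeal.inertiaDeg k[X])) =
      eulerProd (fun 𝔪 : MaximalSpectrum O => finrank k (RO k 𝔪))
        (fun 𝔪 => φ (pt (k := k) 𝔪) ^ (𝔪.asIdeal.inertiaDeg k[X])) := by
    refine eulerProd_fiber hfink hfin hmod
      (fun P => (above_finite (O := O) G P).toFinset) ?_ ?_ ?_
    · intro 𝔪
      refine ⟨pt (k := k) 𝔪, ?_⟩
      rw [Set.Finite.mem_toFinset]
      rfl
    · intro P P' 𝔪 h h'
      rw [Set.Finite.mem_toFinset] at h h'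
      have e1 : minpoly k (vO k 𝔪 X) = P.1 := h
      have e2 : minpoly k (vO k 𝔪 X) = P'.1 := h'
      exact Subtype.ext (e1.symm.trans e2)
    · intro P 𝔪 h
      rw [Set.Finite.mem_toFinset] at h
      have e1 : (pt (k := k) 𝔪).1 = P.1 := h
      show P.1.natDegree ≤ _
      rw [finrank_RO (k := k) G 𝔪, e1]
      exact Nat.le_mul_of_pos_right _ (inertiaDeg_pos (k := k) G)
  have h4 : (fun P : MI k => ∏ 𝔪 ∈ (above_finite (O := O) G P).toFinset,
        φ (pt (k := k) 𝔪) ^ (𝔪.asIdeal.inertiaDeg k[X])) = fun P => φ P ^ (N P) := by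
    funext P
    have e0 : ∀ 𝔪 ∈ (above_finite (O := O) G P).toFinset,
        φ (pt (k := k) 𝔪) ^ (𝔪.asIdeal.inertiaDeg k[X]) =
          φ P ^ (𝔪.asIdeal.inertiaDeg k[X]) := by
      intro 𝔪 h
      rw [Set.Finite.mem_toFinset] at h
      have e1 : pt (k := k) 𝔪 = P := Subtype.ext h
      rw [e1]
    rw [Finset.prod_congr rfl e0, Finset.prod_pow_eq_pow_sum]
  have h5' : eulerProd (fun P : MI k => P.1.natDegree) (fun P => φ P ^ (Nat.card G)) =
      (eulerProd (fun P : MI k => P.1.natDegree) φ) ^ (Nat.card G) := by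
    have e1 := eulerProd_prod hfink (Finset.range (Nat.card G)) (fun _ P => φ P)
      (fun _ P => hφ1 P)
    simp only [Finset.prod_const, Finset.card_range] at e1
    exact e1
  have h7 : eulerProd (fun P : MI k => P.1.natDegree) (fun P => φ P ^ (Nat.card G - N P)) =
      ∏ P ∈ divs B, φ P ^ (Nat.card G - N P) := by
    refine eulerProd_of_finset hfink (fun P => hpow P _) (divs B) ?_
    intro P hP
    rw [hNS P hP, Nat.sub_self, pow_zero]
  have h8 : eulerProd (fun P : MI k => P.1.natDegree) (fun P => φ P ^ (N P)) *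
      eulerProd (fun P : MI k => P.1.natDegree) (fun P => φ P ^ (Nat.card G - N P)) =
      (eulerProd (fun P : MI k => P.1.natDegree) φ) ^ (Nat.card G) := by
    rw [← h5', ← eulerProd_mul hfink (fun P => hpow P _) (fun P => hpow P _)]
    congr 1
    funext P
    rw [← pow_add, Nat.add_sub_cancel' (hNle P)]
  have h9 : ((∏ P ∈ divs B, dl p F₀ Gf ρ P ^ defect O G P : K[X]) : PowerSeries K) =
      ∏ P ∈ divs B, φ P ^ (Nat.card G - N P) := by
    rw [← Polynomial.coeToPowerSeries.ringHom_apply, map_prod]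
    refine Finset.prod_congr rfl fun P _ => ?_
    rw [map_pow, Polynomial.coeToPowerSeries.ringHom_apply, coe_dl, hdef]
  rw [map_eulerProd hfin, h1, ← h3, h4, Polynomial.coe_mul, Polynomial.coe_pow, h9, ← h7,
    ← mul_assoc, h8, ← mul_pow, hΔ, one_pow]

end glob

end Pool.Agent.K4H5.BC
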