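import Mathlib.Algebra.BigOperators.Group.Finset.Basic
import Mathlib.Algebra.Order.BigOperators.Group.Finset
import Mathlib.Algebra.BigOperators.Ring.Finset
import Mathlib.Data.Nat.ModEq
import Mathlib.Data.Nat.Prime.Basic
import Mathlib.Data.Nat.Periodic
import Mathlib.Tactic.Ring
import Mathlib.Tactic.Linarith
import Mathlib.Tactic.Zify
import Mathlib.Tactic.LinearCombination

/-!
The inequality of digits behind the estimate of character sums.
-/

set_option autoImplicit false
set_option linter.unusedSectionVars false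

open Finset

namespace Pool.Agent.K4H5.BC

/-- the number with the digits `c_i, c_(i+1), …` -/
def rot (p N : ℕ) (c : ℕ → ℕ) (i : ℕ) : ℕ := ∑ l ∈ range N, c (i + l) * p ^ l

variable {p N : ℕ}

theorem per_add {b : ℕ → ℕ} (hb : ∀ i, b (i + N) = b i) (i l : ℕ) : b (i + l * N) = b i := by
  induction l with
  | zero => rw [zero_mul, add_zero]
  | succ l ih => rw [Nat.succ_mul, ← add_assoc, hb, ih]

theorem per_mod {b : ℕ → ℕ} (hb : ∀ i, b (i + N) = b i) (i : ℕ) : b i = b (i % N) := by
  conv_lhs => rw [← Nat.mod_add_div i N, mul_comm N]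
  exact per_add hb _ _

theorem rot_succ (c : ℕ → ℕ) (hc : ∀ i, c (i + N) = c i) (i : ℕ) :
    p * rot p N c (i + 1) + c i = rot p N c i + p ^ N * c i := by
  have h1 : ∑ l ∈ range (N + 1), c (i + l) * p ^ l = rot p N c i + c i * p ^ N := by
    rw [sum_range_succ, hc]
    rfl
  have h2 : ∑ l ∈ range (N + 1), c (i + l) * p ^ l = p * rot p N c (i + 1) + c i := by
    rw [sum_range_succ']
    congr 1
    · unfold rot
      rw [mul_sum]
      refine sum_congr rfl fun l _ => ?_
      have e : i + (l + 1) = i + 1 + l := by ring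
      rw [e, pow_succ]
      ring
    · rw [add_zero, pow_zero, mul_one]
  rw [← h2, h1]
  ring

theorem sum_shift (c : ℕ → ℕ) (hc : ∀ i, c (i + N) = c i) (l : ℕ) :
    ∑ i ∈ range N, c (i + l) = ∑ i ∈ range N, c i := by
  induction l with
  | zero => rfl
  | succ l ih =>
    rw [← ih]
    have h1 : ∑ i ∈ range (N + 1), c (i + l) = ∑ i ∈ range N, c (i + l) + c (N + l) :=
      sum_range_succ _ _
    have h2 : ∑ i ∈ range (N + 1), c (i + l) = ∑ i ∈ range N, c (i + (l + 1)) + c l := by
      rw [sum_range_succ']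
      congr 1
      · refine sum_congr rfl fun i _ => ?_
        congr 1
        ring
      · rw [zero_add]
    have h3 : c (N + l) = c l := by rw [add_comm, hc]
    omega

theorem sum_rot (c : ℕ → ℕ) (hc : ∀ i, c (i + N) = c i) :
    ∑ i ∈ range N, rot p N c i = (∑ i ∈ range N, c i) * ∑ l ∈ range N, p ^ l := by
  unfold rot
  rw [sum_comm, mul_sum]
  refine sum_congr rfl fun l _ => ?_
  rw [← sum_mul, sum_shift c hc]

theorem rot_per (c : ℕ → ℕ) (hc : ∀ i, c (i + N) = c i) (i : ℕ) :
    rot p N c (i + N) = rot p N c i := by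
  unfold rot
  refine sum_congr rfl fun l _ => ?_
  have e : i + N + l = i + l + N := by ring
  rw [e, hc]

theorem rot_modEq (hp : 1 < p) (hN : 0 < N) {c m : ℕ → ℕ} (hc : ∀ i, c (i + N) = c i)
    (hm : ∀ i, m (i + N) = m i) (h : rot p N c 0 ≡ rot p N m 0 [MOD p ^ N - 1]) (i : ℕ) :
    rot p N c i ≡ rot p N m i [MOD p ^ N - 1] := by
  have hpN : 1 ≤ p ^ N := Nat.one_le_pow _ _ (by omega)
  have hco : Nat.gcd (p ^ N - 1) p = 1 := by
    have h1 : Nat.Coprime (p ^ N - 1) (p ^ N) := by
      have := Nat.coprime_self_sub_right (n := p ^ N) (m := 1) hpN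
      exact (this.2 (Nat.coprime_one_right _)).symm
    exact Nat.Coprime.coprime_dvd_right (dvd_pow_self p hN.ne') h1
  have key : ∀ (b : ℕ → ℕ), (∀ i, b (i + N) = b i) → ∀ i,
      p * rot p N b (i + 1) ≡ rot p N b i [MOD p ^ N - 1] := by
    intro b hb i
    have h1 := rot_succ (p := p) b hb i
    have h2 : p * rot p N b (i + 1) = rot p N b i + (p ^ N - 1) * b i := by
      rw [Nat.sub_mul, one_mul]
      have : b i ≤ p ^ N * b i := Nat.le_mul_of_pos_left _ (by omega)
      omega
    rw [h2]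
    unfold Nat.ModEq
    simp
  induction i with
  | zero => exact h
  | succ i ih =>
    have h1 := (key c hc i).trans (ih.trans (key m hm i).symm)
    exact Nat.ModEq.cancel_left_of_coprime hco h1

theorem rot_mono {c d : ℕ → ℕ} {a : ℕ} (h : ∀ i, d i ≤ a * c i) (i : ℕ) :
    rot p N d i ≤ a * rot p N c i := by
  unfold rot
  rw [mul_sum]
  refine sum_le_sum fun l _ => ?_
  rw [← mul_assoc]
  exact Nat.mul_le_mul_right _ (h _)

theorem rot_pos (hp : 0 < p) {d : ℕ → ℕ} (hd : ∀ i, d (i + N) = d i) (h : 0 < rot p N d 0)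
    (i : ℕ) : 0 < rot p N d i := by
  by_contra h0
  have h1 : rot p N d i = 0 := by omega
  have hN : 0 < N := by
    rcases Nat.eq_zero_or_pos N with h2 | h2
    · subst h2
      simp [rot] at h
    · exact h2
  have h2 : ∀ j, d j = 0 := by
    intro j
    have h3 : ∀ l ∈ range N, d (i + l) * p ^ l = 0 := Finset.sum_eq_zero_iff.1 h1
    have h4 : d j = d (i + (j + i * (N - 1)) % N) := by
      have e1 : d (i + (j + i * (N - 1)) % N) = d (i + (j + i * (N - 1))) := by
        conv_rhs => rw [← Nat.mod_add_div (j + i * (N - 1)) N, mul_comm N, ← add_assoc]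
        exact (per_add hd _ _).symm
      have e2 : i + (j + i * (N - 1)) = j + i * N := by
        obtain ⟨N', rfl⟩ : ∃ N', N = N' + 1 := ⟨N - 1, by omega⟩
        rw [Nat.add_sub_cancel]
        ring
      rw [e1, e2, per_add hd]
    rw [h4]
    have h6 := h3 ((j + i * (N - 1)) % N) (mem_range.2 (Nat.mod_lt _ hN))
    rcases Nat.mul_eq_zero.1 h6 with h7 | h7
    · exact h7
    · exact absurd h7 (pow_pos hp _).ne'
  have h3 : rot p N d 0 = 0 := by
    unfold rot
    refine sum_eq_zero fun l _ => ?_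
    rw [h2, zero_mul]
  omega

theorem geom_range (hp : 0 < p) (N : ℕ) : (p - 1) * ∑ l ∈ range N, p ^ l = p ^ N - 1 := by
  obtain ⟨r, rfl⟩ : ∃ r, p = r + 1 := ⟨p - 1, by omega⟩
  rw [Nat.add_sub_cancel]
  induction N with
  | zero => simp
  | succ N ih =>
    rw [Finset.sum_range_succ, mul_add, ih, pow_succ]
    have : 1 ≤ (r + 1) ^ N := Nat.one_le_pow _ _ hp
    have e : (r + 1) ^ N * (r + 1) = r * (r + 1) ^ N + (r + 1) ^ N := by ring
    omega

section main

variable (hp : 1 < p) (hN : 0 < N) {c d m : ℕ → ℕ} {a : ℕ} (hc : ∀ i, c (i + N) = c i)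
  (hd : ∀ i, d (i + N) = d i) (hm : ∀ i, m (i + N) = m i)
  (h : rot p N c 0 ≡ rot p N m 0 [MOD p ^ N - 1]) (hd0 : 0 < rot p N d 0)
  (hdd : p ^ N - 1 ∣ rot p N d 0) (hdc : ∀ i, d i ≤ a * c i)
  (har : ∀ i, a * rot p N m i < p ^ N - 1)

include hp hN hc hd hm h hd0 hdd hdc har

theorem rot_ge (i : ℕ) : rot p N m i + (p ^ N - 1) ≤ rot p N c i := by
  have h1 : rot p N d i ≡ rot p N (fun _ => 0) i [MOD p ^ N - 1] := by
    refine rot_modEq hp hN hd (fun _ => rfl) ?_ i
    have : rot p N (fun _ => 0) 0 = 0 := by simp [rot]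
    rw [this]
    exact (Nat.modEq_zero_iff_dvd).2 hdd
  have h2 : p ^ N - 1 ∣ rot p N d i := by
    have : rot p N (fun _ => 0) i = 0 := by simp [rot]
    rw [this] at h1
    exact (Nat.modEq_zero_iff_dvd).1 h1
  have h3 := Nat.le_of_dvd (rot_pos (by omega) hd hd0 i) h2
  have h4 := h3.trans (rot_mono (p := p) (N := N) hdc i)
  have h5 := har i
  have h6 : rot p N m i < rot p N c i := by
    by_contra h7
    have := Nat.mul_le_mul_left a (not_lt.1 h7)
    omega
  have h7 := (rot_modEq hp hN hc hm h i).symm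
  have h8 := (Nat.modEq_iff_dvd' h6.le).1 h7
  have h9 := Nat.le_of_dvd (by omega) h8
  omega

/-- the digit inequality -/
theorem digit_ge : ∑ i ∈ range N, m i + (p - 1) * N ≤ ∑ i ∈ range N, c i := by
  have hg : 0 < ∑ l ∈ range N, p ^ l :=
    sum_pos (fun l _ => pow_pos (by omega) l) ⟨0, mem_range.2 hN⟩
  have h1 : ∑ i ∈ range N, (rot p N m i + (p ^ N - 1)) ≤ ∑ i ∈ range N, rot p N c i :=
    sum_le_sum fun i _ => rot_ge hp hN hc hd hm h hd0 hdd hdc har i
  rw [sum_add_distrib, sum_rot m hm, sum_rot c hc, sum_const, card_range, smul_eq_mul,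
    ← geom_range (by omega) N] at h1
  refine Nat.le_of_mul_le_mul_right ?_ hg
  calc _ = (∑ i ∈ range N, m i) * ∑ l ∈ range N, p ^ l +
        N * ((p - 1) * ∑ l ∈ range N, p ^ l) := by ring
    _ ≤ _ := h1

/-- the case of equality -/
theorem digit_eq (heq : ∑ i ∈ range N, m i + (p - 1) * N = ∑ i ∈ range N, c i) (i : ℕ) :
    c i = m i + (p - 1) := by
  have h0 : ∀ i ∈ range N, rot p N m i + (p ^ N - 1) ≤ rot p N c i := fun i _ =>
    rot_ge hp hN hc hd hm h hd0 hdd hdc har i
  have h1 : ∑ i ∈ range N, (rot p N m i + (p ^ N - 1)) = ∑ i ∈ range N, rot p N c i := by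
    rw [sum_add_distrib, sum_rot m hm, sum_rot c hc, sum_const, card_range, smul_eq_mul,
      ← geom_range (by omega) N, ← heq]
    ring
  have h2 := (Finset.sum_eq_sum_iff_of_le h0).1 h1
  have h3 : ∀ i, rot p N m i + (p ^ N - 1) = rot p N c i := by
    intro i
    rw [per_mod (rot_per (p := p) m hm) i, per_mod (rot_per (p := p) c hc) i]
    exact h2 _ (mem_range.2 (Nat.mod_lt _ hN))
  have h4 := rot_succ (p := p) m hm i
  have h5 := rot_succ (p := p) c hc i
  rw [← h3 i, ← h3 (i + 1)] at h5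
  have hpN : 1 < p ^ N := Nat.one_lt_pow hN.ne' hp
  have h6 : (p ^ N - 1) * (m i + p) = (p ^ N - 1) * (c i + 1) := by
    zify [hpN.le] at h4 h5 ⊢
    linear_combination h5 - h4
  have h7 := Nat.eq_of_mul_eq_mul_left (by omega) h6
  omega

end main

end Pool.Agent.K4H5.BC
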