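import Pool.Agent.K4H5.BC.Region
import Pool.Agent.K4H5.BC.Digit
import Pool.Agent.Y709.Path
import Mathlib.Algebra.BigOperators.Intervals
import Mathlib.Tactic.Linarith

/-!
The degree of the reversed characteristic polynomial of the composite.
-/

set_option autoImplicit false
set_option linter.unusedSectionVars false

open Finset

namespace Pool.Agent.K4H5.BC

open Pool.Agent.Y709

section path

variable {ι R : Type} [Fintype ι] [DecidableEq ι] [CommRing R]

theorem path {q : ℕ} (F : ℕ → Matrix ι ι R) (ℓ : ι → ℕ) (w : ℕ → ℕ)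
    (h : ∀ j x' x, F j x' x ≠ 0 → q * ℓ x' ≤ ℓ x + w j) (N : ℕ) (x' x : ι)
    (hne : mprod F N x' x ≠ 0) : q ^ N * ℓ x' ≤ ℓ x + ∑ i ∈ range N, q ^ i * w i := by
  induction N generalizing x' x with
  | zero =>
    have h1 : mprod F 0 = 1 := rfl
    rw [h1, Matrix.one_apply] at hne
    have h2 : x' = x := by
      by_contra h3
      exact hne (if_neg h3)
    rw [h2, pow_zero, one_mul, range_zero, sum_empty, add_zero]
  | succ N ih =>
    rw [mprod_succ, Matrix.mul_apply] at hne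
    obtain ⟨y, _, hy⟩ := exists_ne_zero_of_sum_ne_zero hne
    have h1 := h N x' y (left_ne_zero_of_mul hy)
    have h2 := ih y x (right_ne_zero_of_mul hy)
    rw [sum_range_succ]
    calc q ^ (N + 1) * ℓ x' = q ^ N * (q * ℓ x') := by rw [pow_succ]; ring
      _ ≤ q ^ N * (ℓ y + w N) := Nat.mul_le_mul_left _ h1
      _ = q ^ N * ℓ y + q ^ N * w N := by ring
      _ ≤ (ℓ x + ∑ i ∈ range N, q ^ i * w i) + q ^ N * w N := Nat.add_le_add_right h2 _
      _ = _ := by ring

theorem sum_w {p : ℕ} (hp : 0 < p) (N : ℕ) (m : ℕ → ℕ) (c : ℕ) :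
    ∑ i ∈ range N, p ^ i * ((m i + (p - 1)) * c) = (rot p N m 0 + (p ^ N - 1)) * c := by
  unfold rot
  rw [← geom_range hp N, mul_sum, ← sum_add_distrib, sum_mul]
  refine sum_congr rfl fun i _ => ?_
  rw [zero_add]
  ring

end path

section count

theorem sum_tri (a δ c : ℕ) : ∑ e ∈ range a, (δ * (a - 1 - e) + c) = δ * (a * (a - 1) / 2) + a * c := by
  rw [sum_add_distrib, ← mul_sum, sum_const, card_range, smul_eq_mul,
    Finset.sum_range_reflect (fun i => i) a, Finset.sum_range_id]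

theorem card_le {m' a δ c : ℕ} (good : Fin m' × (Fin (a + 1) × Unit) → Prop) [DecidablePred good]
    (h : ∀ x, good x → ((x.2.1 : ℕ) < a ∧ (x.1 : ℕ) < δ * (a - 1 - (x.2.1 : ℕ)) + c)) :
    Fintype.card {x // good x} ≤ δ * (a * (a - 1) / 2) + a * c := by
  classical
  rw [← sum_tri, Fintype.card_subtype]
  have h1 : ∑ e ∈ range a, (δ * (a - 1 - e) + c) =
      ((range a).sigma (fun e => range (δ * (a - 1 - e) + c))).card := by
    rw [card_sigma]
    exact sum_congr rfl fun e _ => (card_range _).symm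
  rw [h1]
  refine card_le_card_of_injOn (fun x => (⟨(x.2.1 : ℕ), (x.1 : ℕ)⟩ : Σ _ : ℕ, ℕ)) ?_ ?_
  · intro x hx
    have hx' : good x := (mem_filter.1 hx).2
    have h2 := h x hx'
    show _ ∈ ((range a).sigma (fun e => range (δ * (a - 1 - e) + c)) : Finset (Σ _ : ℕ, ℕ))
    rw [mem_sigma, mem_range, mem_range]
    exact h2
  · rintro ⟨x1, x2, u⟩ _ ⟨y1, y2, v⟩ _ hxy
    have h2 : (x2 : ℕ) = y2 := congrArg Sigma.fst hxy
    have h3 : (x1 : ℕ) = y1 := congrArg (fun z : Σ _ : ℕ, ℕ => z.2) hxy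
    rw [Fin.ext h2, Fin.ext h3]

end count

section glob

variable {K : Type} [Field K]

theorem natDegree_glob {p N m' a δ β n j₀ : ℕ} (hp : 1 < p) (hN : 0 < N) (hn : 0 < n)
    {m : ℕ → ℕ} (har : a * rot p N m 0 < p ^ N - 1)
    (hM : n * rot p N m 0 = j₀ * (p ^ N - 1))
    (F : ℕ → Matrix (Fin m' × (Fin (a + 1) × Unit)) (Fin m' × (Fin (a + 1) × Unit)) K)
    (h1 : ∀ j x' x, F j x' x ≠ 0 → p * (((x'.1 : ℕ) + 1) + δ * ((x'.2.1 : ℕ) + 1)) ≤
      (((x.1 : ℕ) + 1) + δ * ((x.2.1 : ℕ) + 1)) + (m j + (p - 1)) * (δ * a + β))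
    (h2 : ∀ j x' x, F j x' x ≠ 0 → p * ((x'.2.1 : ℕ) + 1) ≤
      ((x.2.1 : ℕ) + 1) + (m j + (p - 1)) * a) :
    (mprod F N).charpolyRev.natDegree ≤
      δ * (a * (a - 1) / 2) + a * (β + (δ * a + β) * j₀ / n) := by
  classical
  set lam := δ * a + β with hlam
  set M := rot p N m 0 with hMdef
  set q := p ^ N - 1 with hq
  have hpN : p ^ N = q + 1 := by
    have : 1 ≤ p ^ N := Nat.one_le_pow _ _ (by omega)
    omega
  have hqpos : 0 < q := by
    have := Nat.one_lt_pow hN.ne' hp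
    omega
  have e1 : ∀ x' x, mprod F N x' x ≠ 0 →
      (q + 1) * (((x'.1 : ℕ) + 1) + δ * ((x'.2.1 : ℕ) + 1)) ≤
        (((x.1 : ℕ) + 1) + δ * ((x.2.1 : ℕ) + 1)) + (M + q) * lam := by
    intro x' x hne
    have h3 := path F (fun x => ((x.1 : ℕ) + 1) + δ * ((x.2.1 : ℕ) + 1))
      (fun i => (m i + (p - 1)) * lam) h1 N x' x hne
    rw [sum_w (by omega), hpN, Nat.add_sub_cancel] at h3
    exact h3
  have e2 : ∀ x' x, mprod F N x' x ≠ 0 → (x'.2.1 : ℕ) < a := by
    intro x' x hne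
    have h3 := path F (fun x => ((x.2.1 : ℕ) + 1)) (fun i => (m i + (p - 1)) * a) h2 N x' x hne
    rw [sum_w (by omega), hpN, Nat.add_sub_cancel] at h3
    by_contra h4
    have h5 : (x'.2.1 : ℕ) = a := by
      have := x'.2.1.2
      omega
    have h6 := x.2.1.2
    have h3' : (q + 1) * ((x'.2.1 : ℕ) + 1) ≤ (x.2.1 : ℕ) + 1 + (M + q) * a := h3
    rw [h5] at h3'
    have h7 : (q + 1) * (a + 1) = q * a + q + (a + 1) := by ring
    have h8 : (M + q) * a = a * M + q * a := by ring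
    omega
  set Lam := lam + lam * j₀ / n with hLam
  set good : Fin m' × (Fin (a + 1) × Unit) → Prop := fun x => (x.2.1 : ℕ) < a ∧
    ((x.1 : ℕ) + 1) + δ * ((x.2.1 : ℕ) + 1) ≤ Lam with hgood
  have hdiv : n * (lam * j₀ / n) ≤ lam * j₀ := Nat.mul_div_le _ _
  have hdiv' : lam * j₀ < n * (lam * j₀ / n + 1) := Nat.lt_mul_div_succ _ hn
  refine (natDegree_charpolyRev_le _ good
    (fun x => ((x.1 : ℕ) + 1) + δ * ((x.2.1 : ℕ) + 1)) ?_).trans ?_
  · intro x' x hx' hne
    have h3 := e1 x' x hne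
    have h4 := e2 x' x hne
    set l' := ((x'.1 : ℕ) + 1) + δ * ((x'.2.1 : ℕ) + 1) with hl'
    set l := ((x.1 : ℕ) + 1) + δ * ((x.2.1 : ℕ) + 1) with hl
    have h5 : Lam < l' := by
      by_contra h6
      exact hx' ⟨h4, by omega⟩
    -- q * l' > (M + q) * lam
    have h6 : (M + q) * lam < q * l' := by
      have h7 : n * ((M + q) * lam) < n * (q * l') := by
        have h8 : lam * j₀ + n * lam < n * l' := by
          calc lam * j₀ + n * lam < n * (lam * j₀ / n + 1) + n * lam := by omega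
            _ = n * (Lam + 1) := by rw [hLam]; ring
            _ ≤ n * l' := Nat.mul_le_mul_left _ h5
        calc n * ((M + q) * lam) = (n * M + n * q) * lam := by ring
          _ = (j₀ * q + n * q) * lam := by rw [hM]
          _ = q * (lam * j₀ + n * lam) := by ring
          _ < q * (n * l') := Nat.mul_lt_mul_of_pos_left h8 hqpos
          _ = n * (q * l') := by ring
      exact Nat.lt_of_mul_lt_mul_left h7
    have h7 : (q + 1) * l' = q * l' + l' := by ring
    have h8 : l' < l := by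
      rw [h7] at h3
      omega
    refine ⟨h8, ?_⟩
    intro h9
    have h10 : l ≤ Lam := h9.2
    omega
  · refine card_le good ?_
    rintro x ⟨h3, h4⟩
    refine ⟨h3, ?_⟩
    have h5 : δ * ((x.2.1 : ℕ) + 1) + δ * (a - 1 - (x.2.1 : ℕ)) = δ * a := by
      rw [← mul_add]
      congr 1
      omega
    have h6 : Lam = δ * a + β + lam * j₀ / n := rfl
    omega

end glob

end Pool.Agent.K4H5.BC
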