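import Pool.Agent.K4H5.BC.Stick
import Pool.Agent.K4H5.BC.Digit
import Pool.Agent.Y709.Teich
import Mathlib.Algebra.BigOperators.Fin
import Mathlib.Algebra.BigOperators.Ring.Finset

/-!
The expansion of a character sum in one variable.
-/

set_option autoImplicit false
set_option linter.unusedSectionVars false

open Finset

namespace Pool.Agent.K4H5.BC

variable {p : ℕ} [hp : Fact p.Prime] {R K : Type} [CommRing R] [IsDomain R] [CharZero R] [Field K]
  [CharP K p] (S : Sys p R K) {F : Type} [Field F] [Fintype F] (σ : F →+* K) [CharP F p]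
  [DecidableEq F]

theorem Sys.sum_w (j : ℕ) (hj : j ≠ 0) : ∑ u : F, S.w σ u ^ j =
    if Fintype.card F - 1 ∣ j then ((Fintype.card F : R) - 1) else 0 :=
  Pool.Agent.Y709.sum_pow' (S.wm σ) (fun _ _ h => S.w_inj σ h) (S.w_zero σ) hj

theorem Sys.w_inv_pow {x : F} (hx : x ≠ 0) {k : ℕ} (hk : k ≤ Fintype.card F - 1) :
    S.w σ x ^ (Fintype.card F - 1 - k) = S.w σ x⁻¹ ^ k := by
  have h1 : S.w σ x ^ (Fintype.card F - 1 - k) * S.w σ x ^ k = 1 := by
    rw [← pow_add, Nat.sub_add_cancel hk, S.w_card σ x hx]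
  have h2 : S.w σ x⁻¹ ^ k * S.w σ x ^ k = 1 := by
    rw [← mul_pow, ← S.w_mul, inv_mul_cancel₀ hx, S.w_one, one_pow]
  exact mul_right_cancel₀ (pow_ne_zero k (S.w_ne σ hx)) (h1.trans h2.symm)

/-- the expansion of the additive character -/
theorem Sys.psi_expand (h : 2 < Fintype.card F) (y : F) :
    (1 - (Fintype.card F : R)) * S.ψ F y =
      ∑ k ∈ range (Fintype.card F), S.gam σ k * S.w σ y ^ k := by
  by_cases hy : y = 0
  · subst hy
    rw [AddChar.map_zero_eq_one, mul_one, S.w_zero, Finset.sum_eq_single 0]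
    · rw [pow_zero, mul_one]
      unfold Sys.gam
      rw [if_pos rfl]
    · intro k _ hk
      rw [zero_pow hk, mul_zero]
    · intro h0
      exact absurd (mem_range.2 (by omega)) h0
  · obtain ⟨n, hn⟩ : ∃ n, Fintype.card F = n + 2 := ⟨Fintype.card F - 2, by omega⟩
    have hn1 : Fintype.card F - 1 = n + 1 := by omega
    have h1 : ∑ k ∈ range (Fintype.card F), S.gam σ k * S.w σ y ^ k =
        ∑ k ∈ range (n + 1), S.G σ k * S.w σ y ^ k := by
      rw [hn, sum_range_succ, sum_range_succ', sum_range_succ']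
      have e1 : S.gam σ 0 = 1 - (Fintype.card F : R) := by
        unfold Sys.gam
        rw [if_pos rfl]
      have e2 : S.gam σ (n + 1) = (Fintype.card F : R) := by
        unfold Sys.gam
        rw [if_neg (Nat.succ_ne_zero n), if_pos hn1.symm]
      have e3 : S.w σ y ^ (n + 1) = 1 := by
        rw [← hn1]
        exact S.w_card σ y hy
      have e4 : ∑ k ∈ range n, S.gam σ (k + 1) * S.w σ y ^ (k + 1) =
          ∑ k ∈ range n, S.G σ (k + 1) * S.w σ y ^ (k + 1) := by
        refine sum_congr rfl fun k hk => ?_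
        rw [mem_range] at hk
        unfold Sys.gam
        rw [if_neg (Nat.succ_ne_zero k), if_neg (by omega)]
      rw [e1, e2, e3, e4, S.G_zero]
      ring
    have h2 : ∀ k ∈ range (n + 1), S.G σ k * S.w σ y ^ k =
        -∑ x : F, S.w σ x ^ (Fintype.card F - 1 - k) * S.w σ y ^ k * S.ψ F x := by
      intro k hk
      rw [mem_range] at hk
      unfold Sys.G gaussSum
      rw [neg_mul, sum_mul]
      congr 1
      refine sum_congr rfl fun x _ => ?_
      rw [S.inv_pow_apply σ (by omega)]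
      ring
    rw [h1, sum_congr rfl h2, sum_neg_distrib, sum_comm]
    have h3 : ∀ x : F, ∑ k ∈ range (n + 1), S.w σ x ^ (Fintype.card F - 1 - k) * S.w σ y ^ k *
        S.ψ F x = if x = y then ((Fintype.card F : R) - 1) * S.ψ F y else 0 := by
      intro x
      rw [← sum_mul]
      by_cases hx : x = 0
      · subst hx
        rw [if_neg (Ne.symm hy), sum_eq_zero, zero_mul]
        intro k hk
        rw [mem_range] at hk
        rw [S.w_zero, zero_pow (by omega), zero_mul]
      · have h4 : ∑ k ∈ range (n + 1), S.w σ x ^ (Fintype.card F - 1 - k) * S.w σ y ^ k =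
            ∑ k ∈ range (n + 1), S.w σ (x⁻¹ * y) ^ k := by
          refine sum_congr rfl fun k hk => ?_
          rw [mem_range] at hk
          rw [S.w_inv_pow σ hx (by omega), ← mul_pow, ← S.w_mul]
        rw [h4]
        split_ifs with hxy
        · subst hxy
          rw [inv_mul_cancel₀ hx, S.w_one]
          simp only [one_pow, sum_const, card_range, nsmul_eq_mul, mul_one]
          rw [hn]
          push_cast
          ring
        · have hz : S.w σ (x⁻¹ * y) ≠ 1 := by
            intro h5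
            rw [← S.w_one σ] at h5
            have h6 := S.w_inj σ h5
            apply hxy
            rw [inv_mul_eq_one₀ hx] at h6
            exact h6
          have h5 := mul_geom_sum (S.w σ (x⁻¹ * y)) (n + 1)
          have h6 : S.w σ (x⁻¹ * y) ^ (n + 1) = 1 := by
            rw [← hn1]
            exact S.w_card σ _ (mul_ne_zero (inv_ne_zero hx) hy)
          rw [h6, sub_self] at h5
          rcases mul_eq_zero.1 h5 with h7 | h7
          · exact absurd (sub_eq_zero.1 h7) hz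
          · rw [h7, zero_mul]
    rw [sum_congr rfl fun x _ => h3 x, sum_ite_eq' univ y, if_pos (mem_univ _)]
    ring

/-- the Gauss sum -/
theorem Sys.gauss_eval {M : ℕ} (hM0 : 0 < M) (hM : M < Fintype.card F - 1) (z : F) :
    ∑ c : F, S.w σ c ^ (Fintype.card F - 1 - M) * S.ψ F (c * z) = -(S.G σ M * S.w σ z ^ M) := by
  by_cases hz : z = 0
  · subst hz
    simp only [mul_zero, AddChar.map_zero_eq_one, mul_one]
    rw [S.sum_w σ _ (by omega), if_neg, S.w_zero, zero_pow hM0.ne', mul_zero, neg_zero]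
    intro h
    have := Nat.le_of_dvd (by omega) h
    omega
  · have h1 : ∑ c : F, S.w σ c ^ (Fintype.card F - 1 - M) * S.ψ F (c * z) =
        ∑ c : F, S.w σ (c * z⁻¹) ^ (Fintype.card F - 1 - M) * S.ψ F c := by
      refine Fintype.sum_equiv (Equiv.mulRight₀ z hz) _ _ fun c => ?_
      rw [Equiv.mulRight₀_apply, mul_assoc, mul_inv_cancel₀ hz, mul_one]
    rw [h1]
    unfold Sys.G gaussSum
    rw [neg_mul, neg_neg, sum_mul]
    refine sum_congr rfl fun c _ => ?_
    rw [S.inv_pow_apply σ hM, S.w_mul, mul_pow, S.w_inv_pow σ (inv_ne_zero hz) hM.le, inv_inv]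
    ring

theorem addChar_sum {A M ι : Type} [AddCommMonoid A] [CommMonoid M] (ψ : AddChar A M)
    (s : Finset ι) (f : ι → A) : ψ (∑ i ∈ s, f i) = ∏ i ∈ s, ψ (f i) := by
  classical
  induction s using Finset.induction_on with
  | empty => rw [sum_empty, prod_empty, AddChar.map_zero_eq_one]
  | insert i s hi ih => rw [sum_insert hi, prod_insert hi, AddChar.map_add_eq_mul, ih]

/-- the number with the given digits -/
def nv {N : ℕ} (δ : Fin N → Fin p) : ℕ := ∑ i, (δ i : ℕ) * p ^ (i : ℕ)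

theorem Sys.psi_digits {N : ℕ} (hF : Fintype.card F = p ^ N) (h : 2 < Fintype.card F) (y : F) :
    (1 - (Fintype.card F : R)) * S.ψ F y =
      ∑ δ : Fin N → Fin p, S.gam σ (nv δ) * S.w σ y ^ nv δ := by
  rw [S.psi_expand σ h, hF, Finset.sum_range]
  symm
  refine Fintype.sum_equiv (finFunctionFinEquiv (m := p) (n := N)) _ _ fun δ => ?_
  have h1 : ((finFunctionFinEquiv δ : Fin (p ^ N)) : ℕ) = nv δ := by
    rw [finFunctionFinEquiv_apply]
    rfl
  rw [h1]

/-- the expansion of the character sum -/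
theorem Sys.big {N a : ℕ} (hF : Fintype.card F = p ^ N) (h : 2 < Fintype.card F) {M : ℕ}
    (hM0 : 0 < M) (hM : M < Fintype.card F - 1) (c : Fin (a + 1) → F) :
    -((1 - (Fintype.card F : R)) ^ (a + 1) * S.G σ M *
        ∑ x : F, S.w σ (∑ b : Fin (a + 1), c b * x ^ (b : ℕ)) ^ M) =
      ∑ Δ : Fin (a + 1) → Fin N → Fin p,
        (∏ b : Fin (a + 1), S.gam σ (nv (Δ b)) * S.w σ (c b) ^ nv (Δ b)) *
        ((∑ z : F, S.w σ z ^ (Fintype.card F - 1 - M + ∑ b, nv (Δ b))) *
          ∑ x : F, S.w σ x ^ (∑ b : Fin (a + 1), (b : ℕ) * nv (Δ b))) := by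
  have h1 : ∀ x z : F, (1 - (Fintype.card F : R)) ^ (a + 1) *
      S.ψ F (z * ∑ b : Fin (a + 1), c b * x ^ (b : ℕ)) =
      ∑ Δ : Fin (a + 1) → Fin N → Fin p, (∏ b : Fin (a + 1), S.gam σ (nv (Δ b)) * S.w σ (c b) ^ nv (Δ b)) *
        (S.w σ z ^ (∑ b, nv (Δ b)) * S.w σ x ^ (∑ b : Fin (a + 1), (b : ℕ) * nv (Δ b))) := by
    intro x z
    rw [mul_sum, addChar_sum]
    have h2 : (1 - (Fintype.card F : R)) ^ (a + 1) = ∏ _b : Fin (a + 1), (1 - (Fintype.card F : R)) := by
      rw [prod_const, card_univ, Fintype.card_fin]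
    rw [h2, ← prod_mul_distrib]
    have h3 : ∀ b : Fin (a + 1), (1 - (Fintype.card F : R)) * S.ψ F (z * (c b * x ^ (b : ℕ))) =
        ∑ δ : Fin N → Fin p, S.gam σ (nv δ) * S.w σ (z * (c b * x ^ (b : ℕ))) ^ nv δ :=
      fun b => S.psi_digits σ hF h _
    rw [prod_congr rfl fun b _ => h3 b, prod_univ_sum, Fintype.piFinset_univ]
    refine sum_congr rfl fun Δ _ => ?_
    rw [← prod_pow_eq_pow_sum, ← prod_pow_eq_pow_sum, ← prod_mul_distrib, ← prod_mul_distrib]
    refine prod_congr rfl fun b _ => ?_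
    rw [S.w_mul, S.w_mul, S.w_pow, mul_pow, mul_pow, ← pow_mul]
    ring
  have h2 : ∀ x : F, -((1 - (Fintype.card F : R)) ^ (a + 1) * S.G σ M *
      S.w σ (∑ b : Fin (a + 1), c b * x ^ (b : ℕ)) ^ M) = ∑ z : F, S.w σ z ^ (Fintype.card F - 1 - M) *
        ((1 - (Fintype.card F : R)) ^ (a + 1) * S.ψ F (z * ∑ b : Fin (a + 1), c b * x ^ (b : ℕ))) := by
    intro x
    have h3 := S.gauss_eval σ hM0 hM (∑ b : Fin (a + 1), c b * x ^ (b : ℕ))
    have h4 : -((1 - (Fintype.card F : R)) ^ (a + 1) * S.G σ M *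
        S.w σ (∑ b : Fin (a + 1), c b * x ^ (b : ℕ)) ^ M) = (1 - (Fintype.card F : R)) ^ (a + 1) *
          (-(S.G σ M * S.w σ (∑ b : Fin (a + 1), c b * x ^ (b : ℕ)) ^ M)) := by ring
    rw [h4, ← h3, mul_sum]
    refine sum_congr rfl fun z _ => ?_
    ring
  rw [mul_sum, ← sum_neg_distrib, sum_congr rfl fun x _ => h2 x]
  have h5 : ∀ x z : F, S.w σ z ^ (Fintype.card F - 1 - M) *
      ((1 - (Fintype.card F : R)) ^ (a + 1) *
        S.ψ F (z * ∑ b : Fin (a + 1), c b * x ^ (b : ℕ))) =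
      ∑ Δ : Fin (a + 1) → Fin N → Fin p, S.w σ z ^ (Fintype.card F - 1 - M) *
        ((∏ b : Fin (a + 1), S.gam σ (nv (Δ b)) * S.w σ (c b) ^ nv (Δ b)) *
        (S.w σ z ^ (∑ b, nv (Δ b)) * S.w σ x ^ (∑ b : Fin (a + 1), (b : ℕ) * nv (Δ b)))) := by
    intro x z
    rw [h1, mul_sum]
  rw [sum_congr rfl fun x _ => (sum_congr rfl fun z _ => h5 x z).trans sum_comm, sum_comm]
  refine sum_congr rfl fun Δ _ => ?_
  rw [sum_mul_sum, mul_sum, sum_comm]
  refine sum_congr rfl fun z _ => ?_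
  rw [mul_sum]
  refine sum_congr rfl fun x _ => ?_
  rw [pow_add]
  ring

end Pool.Agent.K4H5.BC
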