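import Pool.Agent.K4H5.BC.Fib2
import Pool.Agent.K4H5.BC.Deg
import Pool.Agent.Y709.Lay.GlobA

/-!
The family of the matrices over the line.
-/

set_option autoImplicit false
set_option linter.unusedSectionVars false

open Polynomial Module Finset

namespace Pool.Agent.K4H5.BC

open Pool.Agent.W313.Hyp Pool.Agent.W343.BSD Pool.Agent.Y709 Pool.Agent.Y709.Gen
  Pool.Agent.Y709.Lay

section one

theorem map_one' {A B : Type} [CommRing A] [CommRing B] (φ : A →+* B) (g : A) :
    (one' g).map φ = one' (φ g) := rfl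

theorem map_kA {A B : Type} [CommRing A] [CommRing B] (φ : A →+* B) (p : ℕ) {a : ℕ} (s : ℕ)
    (inv : ℕ → A) (inv' : ℕ → B) (h : ∀ i, φ (inv i) = inv' i) (c : Fin (a + 1) → A) :
    (kA p s inv c).map φ = kA p s inv' (fun b => φ (c b)) := by
  unfold kA
  rw [map_kmat, ← map_gA φ p s inv inv' h c]
  rfl

end one

section entries

variable {K : Type} [Field K] {p a δ β : ℕ}

theorem natDegree_coeff_gA (s : ℕ) (inv : ℕ → K) (c : Fin (a + 1) → K[X])
    (hc : ∀ b : Fin (a + 1), (c b).natDegree ≤ δ * (a - (b : ℕ)) + β) (i : ℕ) :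
    ((gA p s (fun l => C (inv l)) c).coeff i).natDegree ≤ (s + (p - 1)) * (δ * a + β) - δ * i := by
  unfold gA Ep
  rw [coeff_C_mul, finsetSum_coeff, ← map_natCast (C : K →+* K[X]), ← C_neg]
  refine (natDegree_C_mul_le _ _).trans (natDegree_sum_le_of_forall_le _ _ fun v hv => ?_)
  rw [mem_filter] at hv
  rw [coeff_C_mul, coeff_X_pow]
  split_ifs with hi
  · rw [mul_one, prod_mul_distrib, ← map_prod]
    refine (natDegree_C_mul_le _ _).trans ((natDegree_prod_le _ _).trans ?_)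
    have h1 : ∑ b : Fin (a + 1), (c b ^ (v b : ℕ)).natDegree ≤
        ∑ b : Fin (a + 1), (v b : ℕ) * (δ * (a - (b : ℕ)) + β) :=
      sum_le_sum fun b _ => natDegree_pow_le.trans (Nat.mul_le_mul_left _ (hc b))
    refine h1.trans ?_
    have h2 : ∑ b : Fin (a + 1), (v b : ℕ) * (δ * (a - (b : ℕ)) + β) + δ * i =
        (s + (p - 1)) * (δ * a + β) := by
      rw [hi, ← hv.2, mul_sum, ← sum_add_distrib, sum_mul]
      refine sum_congr rfl fun b _ => ?_
      have h3 : δ * (a - (b : ℕ)) + δ * (b : ℕ) = δ * a := by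
        rw [← mul_add]
        congr 1
        have := b.2
        omega
      rw [← h3]
      ring
    omega
  · rw [mul_zero, natDegree_zero]
    exact Nat.zero_le _

/-- the entries of the matrix of a digit -/
theorem entry_kA (s : ℕ) (inv : ℕ → K) (c : Fin (a + 1) → K[X])
    (hc : ∀ b : Fin (a + 1), (c b).natDegree ≤ δ * (a - (b : ℕ)) + β)
    (x' x : Fin (a + 1) × Unit) (hne : kA p s (fun l => C (inv l)) c x' x ≠ 0) :
    p * ((x'.1 : ℕ) + 1) ≤ ((x.1 : ℕ) + 1) + (s + (p - 1)) * a ∧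
      (kA p s (fun l => C (inv l)) c x' x).natDegree + δ * (p * ((x'.1 : ℕ) + 1)) ≤
        (s + (p - 1)) * (δ * a + β) + δ * ((x.1 : ℕ) + 1) := by
  have h0 : kA p s (fun l => C (inv l)) c x' x =
      (X ^ ((x.1 : ℕ) + 1) * gA p s (fun l => C (inv l)) c).coeff (p * ((x'.1 : ℕ) + 1)) := rfl
  rw [h0, coeff_X_pow_mul'] at hne ⊢
  split_ifs at hne ⊢ with hle
  · set i := p * ((x'.1 : ℕ) + 1) - ((x.1 : ℕ) + 1) with hi
    have h1 : i ≤ a * (s + (p - 1)) := by
      by_contra h2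
      apply hne
      apply coeff_eq_zero_of_natDegree_lt
      exact lt_of_le_of_lt (natDegree_gA p s _ c) (by omega)
    have h3 := natDegree_coeff_gA (p := p) s inv c hc i
    have h4 : (s + (p - 1)) * a = a * (s + (p - 1)) := mul_comm _ _
    refine ⟨by omega, ?_⟩
    have h5 : δ * (p * ((x'.1 : ℕ) + 1)) = δ * i + δ * ((x.1 : ℕ) + 1) := by
      rw [← mul_add]
      congr 1
      omega
    have h6 : δ * i ≤ (s + (p - 1)) * (δ * a + β) := by
      calc δ * i ≤ δ * (a * (s + (p - 1))) := Nat.mul_le_mul_left _ h1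
        _ ≤ δ * (a * (s + (p - 1))) + (s + (p - 1)) * β := Nat.le_add_right _ _
        _ = (s + (p - 1)) * (δ * a + β) := by ring
    omega
  · exact absurd rfl hne

theorem natDegree_kA (s : ℕ) (inv : ℕ → K) (c : Fin (a + 1) → K[X])
    (hc : ∀ b : Fin (a + 1), (c b).natDegree ≤ δ * (a - (b : ℕ)) + β)
    (x' x : Fin (a + 1) × Unit) :
    (kA p s (fun l => C (inv l)) c x' x).natDegree ≤ (s + (p - 1)) * (δ * a + β) := by
  have h0 : kA p s (fun l => C (inv l)) c x' x =
      (X ^ ((x.1 : ℕ) + 1) * gA p s (fun l => C (inv l)) c).coeff (p * ((x'.1 : ℕ) + 1)) := rfl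
  rw [h0, coeff_X_pow_mul']
  split_ifs with hle
  · exact (natDegree_coeff_gA (p := p) s inv c hc _).trans (Nat.sub_le _ _)
  · rw [natDegree_zero]
    exact Nat.zero_le _

end entries

section fam

variable {k K : Type} [Field k] [Fintype k] [Field K] [Algebra k K] {p F₀ : ℕ}
  [hp : Fact p.Prime] [CharP k p] {a : ℕ}

/-- the matrices of the family -/
noncomputable def GM (K : Type) [Field K] [Algebra k K] (p : ℕ) [Fact p.Prime] [CharP k p]
    (fc : Fin (a + 1) → k[X]) (m : ℕ → ℕ) (j : ℕ) :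
    Matrix (Fin (a + 1) × Unit) (Fin (a + 1) × Unit) K[X] :=
  kA p (m j) (fun i => C (ivf K i)) (fun b => (fc b).map (frK k K p 1 j))

/-- the one-dimensional family -/
noncomputable def G1 (K : Type) [Field K] [Algebra k K] (p : ℕ) [Fact p.Prime] [CharP k p]
    (g : k[X]) (m : ℕ → ℕ) (j : ℕ) : Matrix Unit Unit K[X] :=
  one' ((g.map (frK k K p 1 j)) ^ m j)

theorem frK_per (hk : Fintype.card k = p ^ F₀) (j : ℕ) :
    frK k K p 1 (j + F₀) = frK k K p 1 j := by
  refine RingHom.ext fun x => ?_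
  rw [frK_apply (q := p) (pow_one p).symm, frK_apply (q := p) (pow_one p).symm, ← map_pow,
    ← map_pow, add_comm j F₀, pow_card_q hk]

theorem GM_per (hk : Fintype.card k = p ^ F₀) {m : ℕ → ℕ} (hm : ∀ i, m (i + F₀) = m i)
    (fc : Fin (a + 1) → k[X]) (j : ℕ) : GM K p fc m (j + F₀) = GM K p fc m j := by
  unfold GM
  rw [hm, frK_per hk]

theorem G1_per (hk : Fintype.card k = p ^ F₀) {m : ℕ → ℕ} (hm : ∀ i, m (i + F₀) = m i)
    (g : k[X]) (j : ℕ) : G1 K p g m (j + F₀) = G1 K p g m j := by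
  unfold G1
  rw [hm, frK_per hk]

theorem eval_frK (g : k[X]) (r : K) (j : ℕ) :
    (g.map (frK k K p 1 j)).eval (r ^ p ^ j) = (aeval r g) ^ p ^ j := by
  have hpK : CharP K p := charP_of_injective_algebraMap (algebraMap k K).injective p
  have h1 : ((iterateFrobenius K p j) : K →+* K)
      (g.eval₂ (algebraMap k K) r) = (g.eval₂ (algebraMap k K) r) ^ (p ^ j) := by
    rw [iterateFrobenius_def]
  rw [eval_map, aeval_def, ← h1, hom_eval₂]
  congr 1
  refine RingHom.ext fun x => ?_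
  rw [frK_apply (q := p) (pow_one p).symm, RingHom.comp_apply, iterateFrobenius_def]

theorem at_GM (fc : Fin (a + 1) → k[X]) (m : ℕ → ℕ) (j : ℕ) (r : K) :
    at' (GM K p fc m j) (r ^ p ^ j) = kA p (m j) (ivf K) (fun b => (aeval r (fc b)) ^ p ^ j) := by
  unfold at' GM
  rw [map_kA (evalRingHom (r ^ p ^ j)) p (m j) _ (ivf K) (fun i => by
    rw [coe_evalRingHom, eval_C])]
  congr 1
  funext b
  rw [coe_evalRingHom, eval_frK]

theorem at_G1 (g : k[X]) (m : ℕ → ℕ) (j : ℕ) (r : K) :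
    at' (G1 K p g m j) (r ^ p ^ j) = one' (((aeval r g) ^ p ^ j) ^ m j) := by
  unfold at' G1
  rw [map_one' (evalRingHom (r ^ p ^ j)), coe_evalRingHom, eval_pow, eval_frK]

theorem locS_GM (fc : Fin (a + 1) → k[X]) (m : ℕ → ℕ) (r : K) (L : ℕ) :
    locS (MonoidHom.id K) p (GM K p fc m) r L =
      mprod (fun j => kA p (m j) (ivf K) (fun b => (aeval r (fc b)) ^ p ^ j)) L := by
  unfold locS
  congr 1
  funext j
  exact at_GM fc m j r

theorem locS_G1 (g : k[X]) (m : ℕ → ℕ) (r : K) (L : ℕ) :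
    locS (MonoidHom.id K) p (G1 K p g m) r L = one' ((aeval r g) ^ rot p L m 0) := by
  unfold locS
  have h1 : (fun j => at' (G1 K p g m j) ((MonoidHom.id K) r ^ p ^ j)) =
      fun j => one' (((aeval r g) ^ p ^ j) ^ m j) := by
    funext j
    exact at_G1 g m j r
  rw [h1, mprod_one']
  congr 1
  unfold rot
  rw [← prod_pow_eq_pow_sum]
  refine prod_congr rfl fun i _ => ?_
  rw [← pow_mul, zero_add, mul_comm]

variable {δ β n j₀ : ℕ}

theorem natDegree_GM {m : ℕ → ℕ} (hmp : ∀ i, m i < p) {fc : Fin (a + 1) → k[X]}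
    (hfc : ∀ b : Fin (a + 1), (fc b).natDegree ≤ δ * (a - (b : ℕ)) + β) (j : ℕ)
    (x' x : Fin (a + 1) × Unit) :
    (GM K p fc m j x' x).natDegree < (p - 1) * (2 * (δ * a + β) + 1) := by
  have hp1 := hp.out.one_lt
  unfold GM
  have h1 := natDegree_kA (p := p) (m j) (ivf K) (fun b => (fc b).map (frK k K p 1 j))
    (fun b => natDegree_map_le.trans (hfc b)) x' x
  refine lt_of_le_of_lt h1 ?_
  have h2 := hmp j
  have h3 : (m j + (p - 1)) * (δ * a + β) ≤ ((p - 1) + (p - 1)) * (δ * a + β) :=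
    Nat.mul_le_mul_right _ (by omega)
  have h4 : ((p - 1) + (p - 1)) * (δ * a + β) = (p - 1) * (2 * (δ * a + β)) := by ring
  have h5 : (p - 1) * (2 * (δ * a + β) + 1) = (p - 1) * (2 * (δ * a + β)) + (p - 1) := by ring
  omega

theorem natDegree_G1 {m : ℕ → ℕ} (hmp : ∀ i, m i < p) (g : k[X]) (j : ℕ) (x' x : Unit) :
    (G1 K p g m j x' x).natDegree < (p - 1) * (g.natDegree + 1) := by
  have hp1 := hp.out.one_lt
  have h0 : G1 K p g m j x' x = (g.map (frK k K p 1 j)) ^ m j := rfl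
  rw [h0]
  refine lt_of_le_of_lt natDegree_pow_le ?_
  have h1 : (g.map (frK k K p 1 j)).natDegree ≤ g.natDegree := natDegree_map_le
  have h2 := hmp j
  have h3 : m j * (g.map (frK k K p 1 j)).natDegree ≤ (p - 1) * g.natDegree :=
    Nat.mul_le_mul (by omega) h1
  have h5 : (p - 1) * (g.natDegree + 1) = (p - 1) * g.natDegree + (p - 1) := by ring
  omega

/-- the degree of the polynomial of the family -/
theorem natDegree_Del (hF₀ : 0 < F₀) (hn : 0 < n) {m : ℕ → ℕ}
    (har : a * rot p F₀ m 0 < p ^ F₀ - 1) (hM : n * rot p F₀ m 0 = j₀ * (p ^ F₀ - 1))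
    {fc : Fin (a + 1) → k[X]}
    (hfc : ∀ b : Fin (a + 1), (fc b).natDegree ≤ δ * (a - (b : ℕ)) + β) (m' : ℕ) :
    (mprod (fun j => kmat p m' (GM K p fc m j)) F₀).charpolyRev.natDegree ≤
      δ * (a * (a - 1) / 2) + a * (β + (δ * a + β) * j₀ / n) := by
  have hp1 := hp.out.one_lt
  have key : ∀ j (x' x : Fin m' × (Fin (a + 1) × Unit)), kmat p m' (GM K p fc m j) x' x ≠ 0 →
      GM K p fc m j x'.2 x.2 ≠ 0 ∧
      p * ((x'.1 : ℕ) + 1) ≤ ((x.1 : ℕ) + 1) + (GM K p fc m j x'.2 x.2).natDegree := by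
    intro j x' x hne
    have h0 : kmat p m' (GM K p fc m j) x' x =
        (X ^ ((x.1 : ℕ) + 1) * GM K p fc m j x'.2 x.2).coeff (p * ((x'.1 : ℕ) + 1)) := rfl
    rw [h0] at hne
    refine ⟨fun h => hne (by rw [h, mul_zero, coeff_zero]), ?_⟩
    have h1 := le_natDegree_of_ne_zero hne
    refine h1.trans (natDegree_mul_le.trans ?_)
    exact Nat.add_le_add_right (natDegree_X_pow_le _) _
  refine natDegree_glob hp1 hF₀ hn har hM _ ?_ ?_
  · intro j x' x hne
    obtain ⟨h1, h2⟩ := key j x' x hne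
    have h3 := (entry_kA (p := p) (m j) (ivf K) (fun b => (fc b).map (frK k K p 1 j))
      (fun b => natDegree_map_le.trans (hfc b)) x'.2 x.2 h1).2
    have h4 : (GM K p fc m j x'.2 x.2).natDegree + δ * (p * ((x'.2.1 : ℕ) + 1)) ≤
        (m j + (p - 1)) * (δ * a + β) + δ * ((x.2.1 : ℕ) + 1) := h3
    have h5 : p * (((x'.1 : ℕ) + 1) + δ * ((x'.2.1 : ℕ) + 1)) =
        p * ((x'.1 : ℕ) + 1) + δ * (p * ((x'.2.1 : ℕ) + 1)) := by ring
    rw [h5]
    omega
  · intro j x' x hne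
    obtain ⟨h1, -⟩ := key j x' x hne
    exact (entry_kA (p := p) (m j) (ivf K) (fun b => (fc b).map (frK k K p 1 j))
      (fun b => natDegree_map_le.trans (hfc b)) x'.2 x.2 h1).1

variable {r : K} (P : MI k)

theorem locS_pow {ι : Type} [Fintype ι] [DecidableEq ι] (hk : Fintype.card k = p ^ F₀)
    (G : ℕ → Matrix ι ι K[X]) (hper : ∀ j, G (j + F₀) = G j) (hr : aeval r P.1 = 0) (f : ℕ) :
    locS (MonoidHom.id K) p G r (f * (P.1.natDegree * F₀)) =
      (locS (MonoidHom.id K) p G r (P.1.natDegree * F₀)) ^ f := by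
  unfold locS
  refine mprod_mul (F := fun j => at' (G j) ((MonoidHom.id K) r ^ (p ^ j))) ?_ f
  intro j
  show at' _ _ = at' _ _
  rw [per_mul hper]
  congr 1
  have h2 : p ^ (j + P.1.natDegree * F₀) = Nat.card k ^ P.1.natDegree * p ^ j := by
    rw [Nat.card_eq_fintype_card, hk, ← pow_mul, ← pow_add]
    congr 1
    ring
  show r ^ _ = r ^ _
  rw [h2, pow_mul, root_pow P hr dvd_rfl]

end fam

section fibK

variable {k K R : Type} [Field k] [Fintype k] [Field K] [Algebra k K] {p F₀ a : ℕ}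
  [hp : Fact p.Prime] [CharP k p] [CharP K p] [IsAlgClosed K] [CommRing R] [IsDomain R] [CharZero R]
  (S : Sys p R K)

/-- the local statement over a finite extension -/
theorem Sys.fibreK (hF₀ : 0 < F₀) (hk : Fintype.card k = p ^ F₀) {m : ℕ → ℕ}
    (hm : ∀ i, m (i + F₀) = m i) (har : ∀ i, a * rot p F₀ m i < p ^ F₀ - 1) (ha : 2 ≤ a)
    (hM0 : 0 < rot p F₀ m 0) (χ : MulChar k R)
    (hχ : ∀ u, χ u = S.w (algebraMap k K) u ^ rot p F₀ m 0) {F : Type} [Field F] [Finite F]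
    [Algebra k F] (σ : F →ₐ[k] K) (c : Fin (a + 1) → F) :
    S.π (χ (Algebra.norm k (c 0))) = σ (c 0) ^ rot p (finrank k F * F₀) m 0 ∧
    ∃ D : R[X], D.coeff 0 = 1 ∧
      fibG R χ (fpol c) *
        PowerSeries.rescale (((p : R) ^ F₀) ^ finrank k F) (D : PowerSeries R) =
        1 - PowerSeries.C (χ (Algebra.norm k (c 0)) * ((p : R) ^ F₀) ^ finrank k F) *
          PowerSeries.X ∧
      D.map S.π = (mprod (fun j => kA p (m j) (ivf K) (fun b => σ (c b) ^ p ^ j))
        (finrank k F * F₀)).charpolyRev ∧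
      (D = 1 ∨ ∃ P' : R[X], D = (1 - C (χ (Algebra.norm k (c 0))) * X) * P' ∧
        P'.natDegree ≤ a - 1) := by
  classical
  have hp1 := hp.out.one_lt
  have hfd : FiniteDimensional k F := Module.Finite.of_finite
  have hFt : Fintype F := Fintype.ofFinite F
  set d := finrank k F with hd
  have hdpos : 0 < d := finrank_pos
  have hF : Fintype.card F = p ^ (d * F₀) := by
    rw [Module.card_eq_pow_finrank (K := k), hk, ← pow_mul, mul_comm]
  have hψ : ∀ x : F, chiN F χ x = S.w (σ : F →+* K) x ^ rot p (d * F₀) m 0 := by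
    intro x
    rw [chiN_apply, hχ, rot_mul hm, mul_comm (rot p F₀ m 0), pow_mul]
    congr 1
    rw [← S.w_pow, ← norm_alg (k := k) hk (d := d) (by
      rw [Nat.card_eq_fintype_card, hF, ← pow_mul, mul_comm])]
    unfold Sys.w
    congr 1
    exact (σ.commutes _).symm
  have hM0' : 0 < rot p (d * F₀) m 0 := by
    rw [rot_mul hm]
    exact Nat.mul_pos hM0 (nex_pos (pow_pos (by omega) _) hdpos)
  refine ⟨?_, ?_⟩
  · have h1 := hψ (c 0)
    rw [chiN_apply] at h1
    rw [h1, map_pow, S.π_w]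
    rfl
  · have h2 := S.fibre (σ : F →+* K) (Nat.mul_pos hdpos hF₀) hF (fun i => per_add hm i d)
      (fun i => rot_lt_mul (by omega) hm har hdpos i) ha hM0' hψ c
    have h3 : ((p ^ (d * F₀) : ℕ) : R) = ((p : R) ^ F₀) ^ d := by
      rw [Nat.cast_pow, ← pow_mul, mul_comm]
    rw [h3, ← fibG_chiN] at h2
    exact h2

end fibK

end Pool.Agent.K4H5.BC
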