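import Pool.Agent.K4H5.BC.Fibre

/-!
The local statement: the Euler product of a fibre over a finite field.
-/

set_option autoImplicit false
set_option linter.unusedSectionVars false

open Polynomial Module Finset

namespace Pool.Agent.K4H5.BC

open Pool.Agent.W313.Hyp Pool.Agent.W343.BSD Pool.Agent.Y709 Pool.Agent.Y709.Gen

/-- the polynomial with given coefficients -/
noncomputable def fpol {A : Type} [CommRing A] {a : ℕ} (c : Fin (a + 1) → A) : A[X] :=
  ∑ b : Fin (a + 1), C (c b) * X ^ (b : ℕ)

theorem aeval_fpol {A B : Type} [CommRing A] [CommRing B] [Algebra A B] {a : ℕ}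
    (c : Fin (a + 1) → A) (x : B) :
    aeval x (fpol c) = ∑ b : Fin (a + 1), algebraMap A B (c b) * x ^ (b : ℕ) := by
  unfold fpol
  rw [map_sum]
  refine sum_congr rfl fun b _ => ?_
  rw [map_mul, aeval_C, map_pow, aeval_X]

theorem coeff_fpol {A : Type} [CommRing A] {a : ℕ} (c : Fin (a + 1) → A) (i : ℕ) :
    (fpol c).coeff i = if h : i < a + 1 then c ⟨i, h⟩ else 0 := by
  unfold fpol
  rw [finsetSum_coeff]
  simp only [coeff_C_mul, coeff_X_pow, mul_ite, mul_one, mul_zero]
  split_ifs with h
  · rw [Finset.sum_eq_single (⟨i, h⟩ : Fin (a + 1))]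
    · rw [if_pos rfl]
    · intro b _ hb
      rw [if_neg]
      intro h'
      exact hb (Fin.ext h'.symm)
    · intro h'
      exact absurd (Finset.mem_univ _) h'
  · refine Finset.sum_eq_zero fun b _ => ?_
    rw [if_neg]
    intro h'
    exact h (h' ▸ b.2)

theorem natDegree_fpol {A : Type} [CommRing A] {a : ℕ} (c : Fin (a + 1) → A) :
    (fpol c).natDegree ≤ a := by
  rw [natDegree_le_iff_coeff_eq_zero]
  intro i hi
  rw [coeff_fpol, dif_neg (by omega)]

theorem map_fpol {A B : Type} [CommRing A] [CommRing B] (φ : A →+* B) {a : ℕ}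
    (c : Fin (a + 1) → A) : (fpol c).map φ = fpol fun b => φ (c b) := by
  unfold fpol
  rw [Polynomial.map_sum]
  refine sum_congr rfl fun b _ => ?_
  rw [Polynomial.map_mul, map_C, Polynomial.map_pow, map_X]

section inv

theorem lg_inv {R : Type} [CommRing R] {F P s : PowerSeries R} (h : Lg F s) (hFP : F * P = 1) :
    Lg P (-s) := by
  unfold Lg at *
  have h1 : (PowerSeries.X : PowerSeries R) * PowerSeries.derivative R (F * P) = 0 := by
    rw [hFP, Derivation.map_one_eq_zero, mul_zero]
  rw [Derivation.leibniz, smul_eq_mul, smul_eq_mul] at h1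
  linear_combination P * h1 - P * P * h + (P * s - PowerSeries.X *
    PowerSeries.derivative R P) * hFP

end inv

variable {p : ℕ} [hp : Fact p.Prime] {R K : Type} [CommRing R] [IsDomain R] [CharZero R] [Field K]
  [CharP K p] (S : Sys p R K)

section one

variable {F : Type} [Field F] [Fintype F] (σ : F →+* K) {ψ : MulChar F R} {M : ℕ}
  (hψ : ∀ x, ψ x = S.w σ x ^ M)

include hψ in
theorem Sys.chi_pow_ne {Q a : ℕ} (hF : Fintype.card F = Q) (hM0 : 0 < M) (haM : a * M < Q - 1)
    {b : ℕ} (hb : 0 < b) (hba : b ≤ a) : ψ ^ b ≠ 1 := by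
  intro h
  have h1 : ∀ x : Fˣ, x ^ (M * b) = 1 := by
    intro x
    have h2 : (ψ ^ b) x = 1 := by rw [h, MulChar.one_apply_coe]
    rw [MulChar.pow_apply_coe, hψ, ← pow_mul, ← S.w_pow, ← S.w_one σ] at h2
    have h3 := S.w_inj σ h2
    apply Units.ext
    rw [Units.val_pow_eq_pow_val, h3, Units.val_one]
  rw [FiniteField.forall_pow_eq_one_iff] at h1
  have h2 := Nat.le_of_dvd (Nat.mul_pos hM0 hb) h1
  rw [hF] at h2
  have h3 : M * b ≤ a * M := by
    rw [mul_comm a]
    exact Nat.mul_le_mul_left _ hba
  omega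

end one

section sum

variable {F : Type} [Field F] [Fintype F] (σ : F →+* K) {ψ : MulChar F R} {N a : ℕ} {m : ℕ → ℕ}

theorem per_kA (hF : Fintype.card F = p ^ N) (hm : ∀ i, m (i + N) = m i)
    (c : Fin (a + 1) → F) (j : ℕ) :
    kA p (m (j + N)) (ivf K) (fun b => σ (c b) ^ p ^ (j + N)) =
      kA p (m j) (ivf K) (fun b => σ (c b) ^ p ^ j) := by
  rw [hm]
  congr 1
  funext b
  rw [pow_add, mul_comm, pow_mul, ← map_pow, ← hF, FiniteField.pow_card]

variable [IsAlgClosed K]

/-- the character sums over an extension -/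
theorem Sys.trace_sum (hN : 0 < N) (hF : Fintype.card F = p ^ N) (hm : ∀ i, m (i + N) = m i)
    (har : ∀ i, a * rot p N m i < p ^ N - 1) (ha : 2 ≤ a) (hM0 : 0 < rot p N m 0)
    (hψ : ∀ x, ψ x = S.w σ x ^ rot p N m 0) (c : Fin (a + 1) → F) {E : Type} [Field E] [Fintype E]
    [Algebra F E] {n : ℕ} (hn : 0 < n) (hfr : finrank F E = n) :
    ∃ V : R, ∑ x : E, ψ (Algebra.norm F (aeval x (fpol c))) = ((p ^ N : ℕ) : R) ^ n * V ∧
      S.π V = (S.π (ψ (c 0))) ^ n -
        ((mprod (fun j => kA p (m j) (ivf K) (fun b => σ (c b) ^ p ^ j)) N) ^ n).trace := by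
  classical
  have hp1 := hp.out.one_lt
  have hfd : FiniteDimensional F E := FiniteDimensional.of_finrank_pos (by omega)
  obtain ⟨σE, hσE⟩ : ∃ σE : E →+* K, ∀ x, σE (algebraMap F E x) = σ x := by
    let _ : Algebra F K := σ.toAlgebra
    let i : E →ₐ[F] K := IsAlgClosed.lift
    exact ⟨(i : E →+* K), fun x => i.commutes x⟩
  have hEp : CharP E p := RingHom.charP σE σE.injective p
  have hE : Fintype.card E = p ^ (n * N) := by
    rw [Module.card_eq_pow_finrank (K := F), hF, hfr, ← pow_mul, mul_comm]
  have hmn : ∀ i, m (i + n * N) = m i := fun i => per_add hm i n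
  have harn : ∀ i, a * rot p (n * N) m i < p ^ (n * N) - 1 :=
    fun i => rot_lt_mul (by omega) hm har hn i
  have hrot : rot p (n * N) m 0 = rot p N m 0 * nex (p ^ N) n := rot_mul hm n 0
  have hM0n : 0 < rot p (n * N) m 0 := by
    rw [hrot]
    exact Nat.mul_pos hM0 (nex_pos (pow_pos (by omega) N) hn)
  have hma : ∀ i, a * m i < p := digit_small hN hm har
  have hmp : ∀ i, m i < p := by
    intro i
    have h1 := hma i
    have h2 : m i ≤ a * m i := Nat.le_mul_of_pos_left _ (by omega)
    omega
  have hp2 : 2 < p := by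
    by_contra h
    have h1 : ∀ i, m i = 0 := by
      intro i
      have h2 := hma i
      rcases Nat.eq_zero_or_pos (m i) with h3 | h3
      · exact h3
      · have h4 : 2 * 1 ≤ a * m i := Nat.mul_le_mul ha h3
        omega
    have h2 : rot p N m 0 = 0 := by
      unfold rot
      exact sum_eq_zero fun i _ => by rw [h1, zero_mul]
    omega
  have h2K : (2 : K) ≠ 0 := by
    have := cast_ne (K := K) (i := 2) (by omega) hp2
    simpa using this
  obtain ⟨V, hV1, hV2⟩ := S.lead σE h2K (Nat.mul_pos hn hN) hE hmn hmp harn (by omega) hM0n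
    (fun b => algebraMap F E (c b))
  refine ⟨V, ?_, ?_⟩
  · have h1 : ((p ^ N : ℕ) : R) ^ n = (Fintype.card E : R) := by
      rw [hE, ← Nat.cast_pow]
      congr 1
      rw [← pow_mul, mul_comm]
    rw [h1, ← hV1]
    refine sum_congr rfl fun x _ => ?_
    rw [aeval_fpol, hψ, hrot]
    have h2 : ∀ y : E, S.w σ (Algebra.norm F y) = S.w σE y ^ nex (p ^ N) n := by
      intro y
      rw [← S.w_pow, ← norm_alg hF (by rw [Nat.card_eq_fintype_card, hE, ← pow_mul, mul_comm])]
      unfold Sys.w
      rw [hσE]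
    rw [h2, ← pow_mul, mul_comm]
  · rw [hV2, hσE, hrot]
    have h3 : (σ (c 0)) ^ (rot p N m 0 * nex (p ^ N) n) = S.π (ψ (c 0)) ^ n := by
      rw [hψ, map_pow, S.π_w, ← pow_mul, mul_comm (rot p N m 0) (nex _ _), pow_mul, pow_nex,
        prod_congr rfl (g := fun _ => σ (c 0))]
      · rw [prod_const, card_range, ← pow_mul, mul_comm]
      · intro j _
        rw [← map_pow, ← hF, FiniteField.pow_card_pow]
    rw [h3]
    congr 1
    have h4 := trace_eq (K := K) σE (Nat.mul_pos hn hN) hma (fun b => algebraMap F E (c b))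
    rw [← h4]
    have h5 : (fun j => kA p (m j) (ivf K) (fun b => σE (algebraMap F E (c b)) ^ p ^ j)) =
        fun j => kA p (m j) (ivf K) (fun b => σ (c b) ^ p ^ j) := by
      funext j
      simp only [hσE]
    rw [h5, mprod_mul (F := fun j => kA p (m j) (ivf K) (fun b => σ (c b) ^ p ^ j))
      (per_kA σ hF hm c)]

/-- **the Euler product of a fibre** -/
theorem Sys.fibre (hN : 0 < N) (hF : Fintype.card F = p ^ N) (hm : ∀ i, m (i + N) = m i)
    (har : ∀ i, a * rot p N m i < p ^ N - 1) (ha : 2 ≤ a) (hM0 : 0 < rot p N m 0)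
    (hψ : ∀ x, ψ x = S.w σ x ^ rot p N m 0) (c : Fin (a + 1) → F) :
    ∃ D : R[X], D.coeff 0 = 1 ∧
      fibG R ψ (fpol c) * PowerSeries.rescale ((p ^ N : ℕ) : R) (D : PowerSeries R) =
        1 - PowerSeries.C (ψ (c 0) * ((p ^ N : ℕ) : R)) * PowerSeries.X ∧
      D.map S.π =
        (mprod (fun j => kA p (m j) (ivf K) (fun b => σ (c b) ^ p ^ j)) N).charpolyRev ∧
      (D = 1 ∨ ∃ P' : R[X], D = (1 - C (ψ (c 0)) * X) * P' ∧ P'.natDegree ≤ a - 1) := by
  classical
  have hp1 := hp.out.one_lt
  have hFp : CharP F p := RingHom.charP σ σ.injective p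
  have hma : ∀ i, a * m i < p := digit_small hN hm har
  have hap : a < p := by
    obtain ⟨i, hi⟩ : ∃ i, 0 < m i := by
      by_contra h
      push Not at h
      have h2 : rot p N m 0 = 0 := by
        unfold rot
        exact sum_eq_zero fun i _ => by rw [Nat.le_zero.1 (h _), zero_mul]
      omega
    have h1 := hma i
    have h2 : a * 1 ≤ a * m i := Nat.mul_le_mul_left _ hi
    omega
  set A := mprod (fun j => kA p (m j) (ivf K) (fun b => σ (c b) ^ p ^ j)) N with hA
  set Q : R := ((p ^ N : ℕ) : R) with hQ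
  obtain ⟨s, hs, hs0, hsn⟩ := lg_fibG p ψ (fpol c)
  have hV : ∀ n : ℕ, ∃ V : R, 0 < n → s n = Q ^ n * V ∧
      S.π V = (S.π (ψ (c 0))) ^ n - (A ^ n).trace := by
    intro n
    rcases Nat.eq_zero_or_pos n with h0 | h0
    · exact ⟨0, fun h => absurd h (by omega)⟩
    · obtain ⟨E, hE1, hE2, hE3, hE4, hE5⟩ := hsn n h0
      obtain ⟨V, hV1, hV2⟩ := S.trace_sum σ hN hF hm har ha hM0 hψ c (E := E) h0 hE4
      exact ⟨V, fun _ => ⟨hE5.trans hV1, hV2⟩⟩
  choose V hV using hV
  -- the polynomial
  set P : PowerSeries R := PowerSeries.mk (monSum (psf ψ (fpol c))) with hP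
  have hchi : chiN F ψ = ψ := by
    apply MulChar.ext
    intro x
    rw [chiN_apply, Algebra.norm_self]
    rfl
  have hFP : fibG R ψ (fpol c) * P = 1 := by
    have h1 := fibG_eq' ψ (fpol c)
    rw [hchi] at h1
    exact h1
  set e : R := ψ (c 0) * Q with he
  set G : PowerSeries R := P * (1 - PowerSeries.C e * PowerSeries.X) with hG
  set b : ℕ → R := fun n => if n = 0 then 0 else ψ (c 0) ^ n - V n with hb
  have hLG : Lg G (PowerSeries.mk fun n => Q ^ n * b n) := by
    have h1 := (lg_inv hs hFP).mul (lg_geo e)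
    refine (congrArg (Lg _) ?_).mpr h1
    ext n
    rw [PowerSeries.coeff_mk, map_add, map_neg, PowerSeries.coeff_mk, geo, PowerSeries.coeff_mk, hb]
    dsimp only
    split_ifs with h0
    · rw [h0, hs0]
      ring
    · rw [(hV n (Nat.pos_of_ne_zero h0)).1, he, mul_pow]
      ring
  have hP0 : PowerSeries.constantCoeff P = 1 := by
    have h1 := congrArg PowerSeries.constantCoeff hFP
    rw [map_mul, map_one] at h1
    have h2 : PowerSeries.constantCoeff (fibG R ψ (fpol c)) = 1 := by
      unfold fibG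
      rw [← PowerSeries.coeff_zero_eq_constantCoeff_apply,
        coeff_eulerProd (fun n => finite_deg_le (F := F) n)]
      have h3 : (finite_deg_le (F := F) 0).toFinset = ∅ := by
        rw [Set.Finite.toFinset_eq_empty]
        ext P
        simp only [Set.mem_ofPred_eq, Set.mem_empty_iff_false, iff_false]
        have := MI.deg_pos P
        omega
      rw [h3, Finset.prod_empty, PowerSeries.coeff_zero_one]
    rwa [h2, one_mul] at h1
  have hG0 : PowerSeries.constantCoeff G = 1 := by
    rw [hG, map_mul, hP0, map_sub, map_mul, PowerSeries.constantCoeff_X, mul_zero, map_one,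
      sub_zero, one_mul]
  have hGco : ∀ n, PowerSeries.coeff (n + 1) G =
      PowerSeries.coeff (n + 1) P - e * PowerSeries.coeff n P := by
    intro n
    have e1 : G = P - PowerSeries.C e * (PowerSeries.X * P) := by
      rw [hG]
      ring
    rw [e1, map_sub, PowerSeries.coeff_C_mul, PowerSeries.coeff_succ_X_mul]
  have hGd : ∀ n, a < n → PowerSeries.coeff n G = 0 := by
    intro n hn
    obtain ⟨n', rfl⟩ : ∃ n', n = n' + 1 := ⟨n - 1, by omega⟩
    rw [hGco, hP, PowerSeries.coeff_mk, PowerSeries.coeff_mk]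
    have hd := natDegree_fpol c
    rcases Nat.eq_zero_or_pos (fpol c).natDegree with h0 | h0
    · have h1 := eq_C_of_natDegree_eq_zero h0
      have h2 : (fpol c).coeff 0 = c 0 := by
        rw [coeff_fpol, dif_pos (Nat.succ_pos a)]
        rfl
      rw [h1, h2, monSum_const, monSum_const, Nat.card_eq_fintype_card, hF, ← hQ, he]
      ring
    · have hne := S.chi_pow_ne σ hψ hF hM0 (har 0) h0 hd
      rw [monSum_eq_zero h0 hne (by omega), monSum_eq_zero h0 hne (by omega)]
      ring
  obtain ⟨D, hD0, hD1, hD2⟩ := S.descale hap hLG hG0 hGd (by rw [hb]; exact if_pos rfl)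
    (B := A.charpolyRev) (t := fun n => if n = 0 then 0 else (A ^ n).trace)
    (lg_charpolyRev A) (by
      rw [coeff_zero_eq_eval_zero, Matrix.eval_charpolyRev])
    (natDegree_fib hma (har 0) _) (by
      intro n
      rw [hb]
      dsimp only
      split_ifs with h0
      · exact map_zero _
      · rw [map_sub, map_pow, (hV n (Nat.pos_of_ne_zero h0)).2]
        ring)
  have hQ0 : Q ≠ 0 := by
    rw [hQ]
    exact Nat.cast_ne_zero.2 (pow_pos (by omega) N).ne'
  refine ⟨D, hD0, ?_, hD2, ?_⟩
  · rw [hD1, hG, ← mul_assoc, hFP, one_mul]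
  · have hd := natDegree_fpol c
    rcases Nat.eq_zero_or_pos (fpol c).natDegree with h0 | h0
    · left
      have h1 := eq_C_of_natDegree_eq_zero h0
      have h2 : (fpol c).coeff 0 = c 0 := by
        rw [coeff_fpol, dif_pos (Nat.succ_pos a)]
        rfl
      ext n
      have h3 := congrArg (PowerSeries.coeff n) hD1
      rw [PowerSeries.coeff_rescale, Polynomial.coeff_coe] at h3
      rcases n with _ | n
      · rw [hD0, coeff_one_zero]
      · rw [hGco, hP, PowerSeries.coeff_mk, PowerSeries.coeff_mk, h1, h2, monSum_const,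
          monSum_const, Nat.card_eq_fintype_card, hF, ← hQ, he] at h3
        have h4 : Q ^ (n + 1) * D.coeff (n + 1) = 0 := by
          rw [h3]
          ring
        rw [coeff_one, if_neg (Nat.succ_ne_zero n)]
        exact (mul_eq_zero.1 h4).resolve_left (pow_ne_zero _ hQ0)
    · right
      obtain ⟨W, h5⟩ : ∃ W : PowerSeries R,
          (1 - PowerSeries.C (ψ (c 0)) * PowerSeries.X) * W = (D : PowerSeries R) := by
        refine ⟨(D : PowerSeries R) * PowerSeries.mk (fun n => ψ (c 0) ^ n), ?_⟩
        have hu := geom_series (A := R) (ψ (c 0))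
        linear_combination (D : PowerSeries R) * hu
      have h6 : PowerSeries.rescale Q W = P := by
        have h7 := congrArg (PowerSeries.rescale Q) h5
        rw [map_mul, hD1, map_sub, map_one, map_mul, PowerSeries.rescale_X] at h7
        have h8 : PowerSeries.rescale Q (PowerSeries.C (ψ (c 0))) =
            PowerSeries.C (ψ (c 0)) := by
          ext n
          rw [PowerSeries.coeff_rescale, PowerSeries.coeff_C]
          split_ifs with h
          · rw [h, pow_zero, one_mul]
          · rw [mul_zero]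
        rw [h8, hG, he, map_mul, mul_assoc (PowerSeries.C (ψ (c 0))) (PowerSeries.C Q)
          PowerSeries.X, mul_comm P] at h7
        have h9 : (1 - PowerSeries.C (ψ (c 0)) * (PowerSeries.C Q * PowerSeries.X) :
            PowerSeries R) ≠ 0 := by
          intro h
          have h10 := congrArg PowerSeries.constantCoeff h
          rw [map_sub, map_mul, map_mul, PowerSeries.constantCoeff_X, mul_zero, mul_zero, map_one,
            map_zero, sub_zero] at h10
          exact one_ne_zero h10
        exact mul_left_cancel₀ h9 h7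
      have h7 : ∀ n, a - 1 < n → PowerSeries.coeff n W = 0 := by
        intro n hn
        have h8 := congrArg (PowerSeries.coeff n) h6
        have hne := S.chi_pow_ne σ hψ hF hM0 (har 0) h0 hd
        rw [PowerSeries.coeff_rescale, hP, PowerSeries.coeff_mk, monSum_eq_zero h0 hne (by omega)]
          at h8
        exact (mul_eq_zero.1 h8).resolve_left (pow_ne_zero _ hQ0)
      refine ⟨PowerSeries.trunc (a - 1 + 1) W, ?_, ?_⟩
      · apply Polynomial.coe_injective
        have h8 : ((PowerSeries.trunc (a - 1 + 1) W : R[X]) : PowerSeries R) = W := by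
          ext n
          rw [Polynomial.coeff_coe, PowerSeries.coeff_trunc]
          split_ifs with h
          · rfl
          · rw [h7 n (by omega)]
        rw [Polynomial.coe_mul, h8, ← h5, Polynomial.coe_sub, Polynomial.coe_one,
          Polynomial.coe_mul, Polynomial.coe_C, Polynomial.coe_X]
      · have := PowerSeries.natDegree_trunc_lt W (a - 1)
        omega

end sum

end Pool.Agent.K4H5.BC
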