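import Pool.Agent.K4H5.BC.Res
import Pool.Agent.Y709.Lay.Formula

/-!
The logarithmic derivative of the Euler product of a fibre.
-/

set_option autoImplicit false
set_option linter.unusedSectionVars false

open Polynomial Module

namespace Pool.Agent.K4H5.BC

open Pool.Agent.W313.Hyp Pool.Agent.W343.BSD Pool.Agent.Y709 Pool.Agent.Y709.Gen

section chi

variable {k F : Type} [Field k] [Field F] [Finite F] [Algebra k F] [FiniteDimensional k F]
  {R : Type} [CommRing R]

theorem fibG_chiN (χ : MulChar k R) (f : F[X]) :
    fibG R χ f = fibG R (chiN F χ) f := by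
  unfold fibG
  congr 1
  funext Q
  have hirr : Fact (Irreducible Q.1) := ⟨Q.2.2⟩
  have hfd : FiniteDimensional F (AdjoinRoot Q.1) := Q.2.1.finite_adjoinRoot
  rw [← Algebra.norm_norm (S := F)]
  rfl

end chi

section norm

variable {F E : Type} [Field F] [Field E] [Algebra F E] [FiniteDimensional F E]

theorem norm_root (P : MI F) {θ : E} (hθ : aeval θ P.1 = 0) (f : F[X]) :
    P.1.natDegree ∣ finrank F E ∧ Algebra.norm F (aeval θ f) =
      (Algebra.norm F (AdjoinRoot.mk P.1 f)) ^ (finrank F E / P.1.natDegree) := by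
  have hirr : Fact (Irreducible P.1) := ⟨P.2.2⟩
  have hfd : FiniteDimensional F (AdjoinRoot P.1) := P.2.1.finite_adjoinRoot
  let j : AdjoinRoot P.1 →+* E := AdjoinRoot.lift (algebraMap F E) θ (by
    rw [← aeval_def]
    exact hθ)
  let _ : Algebra (AdjoinRoot P.1) E := j.toAlgebra
  have htow : IsScalarTower F (AdjoinRoot P.1) E := by
    apply IsScalarTower.of_algebraMap_eq
    intro x
    show algebraMap F E x = j (AdjoinRoot.of P.1 x)
    rw [AdjoinRoot.lift_of]
  have h1 : Module.finrank F (AdjoinRoot P.1) = P.1.natDegree := by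
    have h2 := (AdjoinRoot.powerBasis P.2.1.ne_zero).finrank
    rw [AdjoinRoot.powerBasis_dim] at h2
    exact h2
  have h2 := Module.finrank_mul_finrank F (AdjoinRoot P.1) E
  rw [h1] at h2
  have hfd' : FiniteDimensional (AdjoinRoot P.1) E := FiniteDimensional.right F _ _
  refine ⟨⟨_, h2.symm⟩, ?_⟩
  have h3 : aeval θ f = algebraMap (AdjoinRoot P.1) E (AdjoinRoot.mk P.1 f) := by
    show _ = j (AdjoinRoot.mk P.1 f)
    rw [AdjoinRoot.lift_mk, aeval_def]
  rw [h3, ← Algebra.norm_norm (S := AdjoinRoot P.1), Algebra.norm_algebraMap, map_pow, ← h2,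
    Nat.mul_div_cancel_left _ (MI.deg_pos P)]

end norm

section lg

variable {F : Type} [Field F] [Finite F] {R : Type} [CommRing R]

/-- the geometric series without its first term -/
noncomputable def geo (c : R) : PowerSeries R := PowerSeries.mk fun n => if n = 0 then 0 else c ^ n

theorem lg_geo (c : R) : Lg (1 - PowerSeries.C c * PowerSeries.X) (geo c) := by
  apply Lg.of_coeff
  intro n
  have h1 : ∀ n, PowerSeries.coeff n ((1 - PowerSeries.C c * PowerSeries.X) * geo c) =
      if n = 1 then c else 0 := by
    intro n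
    rw [sub_mul, one_mul, map_sub, mul_assoc, PowerSeries.coeff_C_mul]
    rcases n with _ | n
    · rw [PowerSeries.coeff_zero_X_mul]
      simp [geo]
    · rw [PowerSeries.coeff_succ_X_mul, geo, PowerSeries.coeff_mk, PowerSeries.coeff_mk]
      rcases n with _ | n
      · simp
      · simp [pow_succ]
        ring
  rw [← PowerSeries.coeff_mul, h1, map_sub, PowerSeries.coeff_C_mul, PowerSeries.coeff_X,
    PowerSeries.coeff_one]
  rcases n with _ | n
  · simp
  · rcases n with _ | n
    · simp
    · simp

theorem lg_fibG (p : ℕ) [Fact p.Prime] [CharP F p] (χ : MulChar F R) (f : F[X]) :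
    ∃ s : ℕ → R, Lg (fibG R χ f) (PowerSeries.mk s) ∧ s 0 = 0 ∧
      ∀ n, 0 < n → ∃ (E : Type) (_ : Field E) (_ : Fintype E) (_ : Algebra F E),
        finrank F E = n ∧ s n = ∑ x : E, χ (Algebra.norm F (aeval x f)) := by
  classical
  have hfin := fun n => finite_deg_le (F := F) n
  set c : MI F → R := fun P => χ (Algebra.norm F (AdjoinRoot.mk P.1 f)) with hc
  have hfac : ∀ P : MI F, PowerSeries.expand P.1.natDegree (deg_ne P)
      (1 - PowerSeries.C (c P) * PowerSeries.X) =
      1 - PowerSeries.C (c P) * PowerSeries.X ^ P.1.natDegree := by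
    intro P
    rw [map_sub, map_one, map_mul, PowerSeries.expand_X, PowerSeries.expand_C]
  have hdv : ∀ P : MI F, (PowerSeries.X : PowerSeries R) ^ P.1.natDegree ∣
      (1 - PowerSeries.C (c P) * PowerSeries.X ^ P.1.natDegree) - 1 := by
    intro P
    rw [sub_right_comm, sub_self, zero_sub]
    exact (dvd_neg).2 (dvd_mul_left _ _)
  have hlg : ∀ P : MI F, Lg (1 - PowerSeries.C (c P) * PowerSeries.X ^ P.1.natDegree)
      ((P.1.natDegree : PowerSeries R) * PowerSeries.expand P.1.natDegree (deg_ne P)
        (geo (c P))) := by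
    intro P
    rw [← hfac]
    exact (lg_geo (c P)).expand (deg_ne P)
  have hL := Lg.euler hfin hdv hlg
  have hco : ∀ (n : ℕ) (P : MI F), 0 < n → PowerSeries.coeff n ((P.1.natDegree : PowerSeries R) *
      PowerSeries.expand P.1.natDegree (deg_ne P) (geo (c P))) =
      if P.1.natDegree ∣ n then P.1.natDegree • (if P.1.natDegree ∣ n then
        (c P) ^ (n / P.1.natDegree) else 0) else 0 := by
    intro n P hn
    rw [← map_natCast (PowerSeries.C (R := R)), PowerSeries.coeff_C_mul]
    split_ifs with hd
    · obtain ⟨l, hl⟩ := hd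
      have hdpos := MI.deg_pos P
      have hl0 : l ≠ 0 := by
        rintro rfl
        rw [mul_zero] at hl
        omega
      have h10 : n / P.1.natDegree = l := by
        rw [hl]
        exact Nat.mul_div_cancel_left l hdpos
      rw [h10, hl, PowerSeries.coeff_expand_mul, geo, PowerSeries.coeff_mk, if_neg hl0,
        nsmul_eq_mul]
    · rw [PowerSeries.coeff_expand_of_not_dvd _ _ _ hd, mul_zero]
  refine ⟨_, hL, ?_, ?_⟩
  · refine Finset.sum_eq_zero fun P hP => ?_
    rw [Set.Finite.mem_toFinset] at hP
    have h4 := MI.deg_pos P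
    have h5 : P.1.natDegree ≤ 0 := hP
    omega
  · intro n hn
    have hnz : NeZero n := ⟨hn.ne'⟩
    have hEf : Fintype (FiniteField.Extension F p n) := Fintype.ofFinite _
    refine ⟨FiniteField.Extension F p n, inferInstance, hEf, inferInstance,
      FiniteField.finrank_extension F p n, ?_⟩
    have h7 := sum_closed (k := F) (E := FiniteField.Extension F p n) (n := n) (A := R)
        (FiniteField.finrank_extension F p n)
        (fun x => χ (Algebra.norm F (aeval x f)))
        (fun P => if P.1.natDegree ∣ n then (c P) ^ (n / P.1.natDegree) else 0) (by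
          intro P θ hθ
          obtain ⟨h1, h2⟩ := norm_root P hθ f
          rw [FiniteField.finrank_extension F p n] at h1 h2
          rw [if_pos h1, h2, map_pow])
    rw [h7]
    exact Finset.sum_congr rfl fun P _ => hco n P hn

end lg

end Pool.Agent.K4H5.BC
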