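import Mathlib.LinearAlgebra.Matrix.Block
import Mathlib.LinearAlgebra.Matrix.Polynomial
import Mathlib.LinearAlgebra.Matrix.Charpoly.Coeff

/-!
The degree of the reversed characteristic polynomial of a block triangular matrix.
-/

set_option autoImplicit false
set_option linter.unusedSectionVars false

open Polynomial

namespace Pool.Agent.K4H5.BC

variable {K ι : Type} [Field K] [Fintype ι] [DecidableEq ι]

theorem natDegree_charpolyRev_le (A : Matrix ι ι K) (good : ι → Prop) [DecidablePred good]
    (ℓ : ι → ℕ) (h : ∀ x' x, ¬ good x' → A x' x ≠ 0 → ℓ x' < ℓ x ∧ ¬ good x) :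
    A.charpolyRev.natDegree ≤ Fintype.card {x // good x} := by
  classical
  set M : Matrix ι ι K[X] := 1 - (X : K[X]) • A.map C with hM
  set b : ι → ℕ := fun x => if good x then 0 else ℓ x + 1 with hb
  have hbt : Matrix.BlockTriangular M b := by
    intro i j hij
    have hne : i ≠ j := by
      rintro rfl
      exact lt_irrefl _ hij
    have hgi : ¬ good i := by
      intro hg
      have : b i = 0 := if_pos hg
      omega
    have hbi : b i = ℓ i + 1 := if_neg hgi
    have hA : A i j = 0 := by
      by_contra hA
      obtain ⟨h1, h2⟩ := h i j hgi hA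
      have : b j = ℓ j + 1 := if_neg h2
      omega
    rw [hM, Matrix.sub_apply, Matrix.one_apply_ne hne, Matrix.smul_apply, Matrix.map_apply, hA, C_0,
      smul_zero, sub_zero]
  have hdet : A.charpolyRev = M.det := rfl
  rw [hdet, hbt.det]
  have h1 : ∀ a ∈ Finset.univ.image b, a ≠ 0 → (M.toSquareBlock b a).det = 1 := by
    intro a _ ha
    have : M.toSquareBlock b a = 1 := by
      refine Matrix.ext fun x y => ?_
      rw [Matrix.toSquareBlock_def, Matrix.of_apply, hM, Matrix.sub_apply, Matrix.smul_apply,
        Matrix.map_apply]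
      have hA : A x.1 y.1 = 0 := by
        by_contra hA
        have hgx : ¬ good x.1 := by
          intro hg
          have h2 : b x.1 = 0 := if_pos hg
          exact ha (x.2.symm.trans h2)
        obtain ⟨h3, h4⟩ := h x.1 y.1 hgx hA
        have e1 : b x.1 = ℓ x.1 + 1 := if_neg hgx
        have e2 : b y.1 = ℓ y.1 + 1 := if_neg h4
        have e3 := x.2
        have e4 := y.2
        omega
      rw [hA, C_0, smul_zero, sub_zero, Matrix.one_apply, Matrix.one_apply]
      by_cases hxy : x = y
      · rw [if_pos hxy, if_pos (by rw [hxy])]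
      · rw [if_neg hxy, if_neg (fun h => hxy (Subtype.ext h))]
    rw [this, Matrix.det_one]
  have h2 : ∏ a ∈ Finset.univ.image b, (M.toSquareBlock b a).det =
      if 0 ∈ Finset.univ.image b then (M.toSquareBlock b 0).det else 1 := by
    split_ifs with h0
    · rw [Finset.prod_eq_single_of_mem 0 h0]
      intro a ha hne
      exact h1 a ha hne
    · refine Finset.prod_eq_one fun a ha => h1 a ha ?_
      rintro rfl
      exact h0 ha
  rw [h2]
  split_ifs
  · have h3 : M.toSquareBlock b 0 = (X : K[X]) • (-(A.toSquareBlock b 0)).map C +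
        (1 : Matrix {x // b x = 0} {x // b x = 0} K).map C := by
      refine Matrix.ext fun x y => ?_
      rw [Matrix.toSquareBlock_def, Matrix.of_apply, hM, Matrix.sub_apply, Matrix.smul_apply,
        Matrix.map_apply, Matrix.add_apply, Matrix.smul_apply, Matrix.map_apply, Matrix.neg_apply,
        Matrix.toSquareBlock_def, Matrix.of_apply, Matrix.map_apply, Matrix.one_apply,
        Matrix.one_apply]
      by_cases hxy : x = y
      · rw [if_pos hxy, if_pos (by rw [hxy]), C_1, C_neg]
        simp only [smul_neg]
        ring
      · rw [if_neg hxy, if_neg (fun h => hxy (Subtype.ext h)), C_0, C_neg]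
        simp only [smul_neg]
        ring
    rw [h3]
    refine (Polynomial.natDegree_det_X_add_C_le _ _).trans ?_
    refine (Fintype.card_congr (Equiv.subtypeEquivRight fun x => ?_)).le
    show (if good x then 0 else ℓ x + 1) = 0 ↔ good x
    split_ifs with hg
    · simp [hg]
    · simp [hg]
  · rw [natDegree_one]
    exact Nat.zero_le _

end Pool.Agent.K4H5.BC
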