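import Pool.Agent.K4H5.BC.Tr
import Pool.Agent.K4H5.BC.Region
import Pool.Agent.K4H5.BC.Log
import Pool.Agent.Y709.Fe

/-!
The Euler product of a fibre: its poles and the reduction of its numerator.
-/

set_option autoImplicit false
set_option linter.unusedSectionVars false

open Polynomial Module Finset

namespace Pool.Agent.K4H5.BC

open Pool.Agent.W313.Hyp Pool.Agent.W343.BSD Pool.Agent.Y709 Pool.Agent.Y709.Gen

section descale

variable {p : ℕ} [hp : Fact p.Prime] {R K : Type} [CommRing R] [IsDomain R] [CharZero R] [Field K]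
  [CharP K p] (S : Sys p R K)

theorem cast_ne {i : ℕ} (h0 : 0 < i) (h : i < p) : (i : K) ≠ 0 := by
  intro h1
  rw [CharP.cast_eq_zero_iff K p] at h1
  have := Nat.le_of_dvd h0 h1
  omega

/-- the division of the coefficients by the powers of a number -/
theorem Sys.descale {a : ℕ} (ha : a < p) {G : PowerSeries R} {b : ℕ → R} {Q : R}
    (hG : Lg G (PowerSeries.mk fun n => Q ^ n * b n)) (hG0 : PowerSeries.constantCoeff G = 1)
    (hGd : ∀ n, a < n → PowerSeries.coeff n G = 0) (b0 : b 0 = 0) {B : K[X]} {t : ℕ → K}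
    (hB : Lg (B : PowerSeries K) (PowerSeries.mk t)) (hB0 : B.coeff 0 = 1)
    (hBd : B.natDegree ≤ a) (ht : ∀ n, S.π (b n) = t n) :
    ∃ D : R[X], D.coeff 0 = 1 ∧ PowerSeries.rescale Q (D : PowerSeries R) = G ∧
      D.map S.π = B := by
  classical
  have key : ∀ i, i ≤ a → ∃ d : R, PowerSeries.coeff i G = Q ^ i * d ∧ S.π d = B.coeff i := by
    intro i
    induction i using Nat.strong_induction_on with
    | _ i ih =>
      intro hi
      rcases Nat.eq_zero_or_pos i with h0 | h0
      · subst h0
        refine ⟨1, ?_, ?_⟩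
        · rw [PowerSeries.coeff_zero_eq_constantCoeff_apply, hG0, pow_zero, one_mul]
        · rw [map_one, hB0]
      · have h1 : ∀ x : ℕ, ∃ d : R, x < i → PowerSeries.coeff x G = Q ^ x * d ∧
            S.π d = B.coeff x := by
          intro x
          by_cases hx : x < i
          · obtain ⟨d, hd⟩ := ih x hx (by omega)
            exact ⟨d, fun _ => hd⟩
          · exact ⟨0, fun h => absurd h hx⟩
        choose d hd using h1
        have hiK : S.π (i : R) ≠ 0 := by
          rw [map_natCast]
          exact cast_ne h0 (by omega)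
        obtain ⟨u, hu⟩ := S.hu _ hiK
        have huu : ((u⁻¹ : Rˣ) : R) * (i : R) = 1 := by
          rw [← hu, ← Units.val_mul, inv_mul_cancel]
          rfl
        have hiR : (i : R) ≠ 0 := Nat.cast_ne_zero.2 h0.ne'
        refine ⟨-(((u⁻¹ : Rˣ) : R) * ∑ q ∈ Finset.HasAntidiagonal.antidiagonal i,
          d q.1 * b q.2), ?_, ?_⟩
        · apply mul_left_cancel₀ hiR
          rw [hG.coeff i]
          have h2 : ∑ q ∈ Finset.HasAntidiagonal.antidiagonal i, PowerSeries.coeff q.1 G *
              PowerSeries.coeff q.2 (PowerSeries.mk fun n => Q ^ n * b n) =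
              Q ^ i * ∑ q ∈ Finset.HasAntidiagonal.antidiagonal i, d q.1 * b q.2 := by
            rw [Finset.mul_sum]
            refine Finset.sum_congr rfl fun q hq => ?_
            rw [Finset.HasAntidiagonal.mem_antidiagonal] at hq
            rw [PowerSeries.coeff_mk]
            by_cases h3 : q.2 = 0
            · rw [h3, b0]
              ring
            · rw [(hd q.1 (by omega)).1, ← hq, pow_add]
              ring
          rw [h2]
          linear_combination (Q ^ i * ∑ q ∈ Finset.HasAntidiagonal.antidiagonal i,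
            d q.1 * b q.2) * huu
        · have h4 := hB.coeff i
          have h5 : ∑ q ∈ Finset.HasAntidiagonal.antidiagonal i,
              PowerSeries.coeff q.1 (B : PowerSeries K) * PowerSeries.coeff q.2 (PowerSeries.mk t) =
              S.π (∑ q ∈ Finset.HasAntidiagonal.antidiagonal i, d q.1 * b q.2) := by
            rw [map_sum]
            refine Finset.sum_congr rfl fun q hq => ?_
            rw [Finset.HasAntidiagonal.mem_antidiagonal] at hq
            rw [PowerSeries.coeff_mk, Polynomial.coeff_coe, map_mul, ht]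
            by_cases h3 : q.2 = 0
            · rw [h3, ← ht, b0, map_zero, mul_zero, mul_zero]
            · rw [(hd q.1 (by omega)).2]
          rw [h5, Polynomial.coeff_coe] at h4
          have h6 : S.π ((u⁻¹ : Rˣ) : R) * (i : K) = 1 := by
            rw [← map_natCast S.π, ← map_mul, huu, map_one]
          rw [map_neg, map_mul]
          linear_combination (-S.π ((u⁻¹ : Rˣ) : R)) * h4 + B.coeff i * h6
  have h1 : ∀ x : ℕ, ∃ d : R, x ≤ a → PowerSeries.coeff x G = Q ^ x * d ∧
      S.π d = B.coeff x := by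
    intro x
    by_cases hx : x ≤ a
    · obtain ⟨d, hd⟩ := key x hx
      exact ⟨d, fun _ => hd⟩
    · exact ⟨0, fun h => absurd h hx⟩
  choose d' hd' using h1
  set d : ℕ → R := fun i => if i = 0 then 1 else d' i with hdd
  have hd : ∀ x, x ≤ a → PowerSeries.coeff x G = Q ^ x * d x ∧ S.π (d x) = B.coeff x := by
    intro x hx
    by_cases h0 : x = 0
    · subst h0
      rw [hdd]
      dsimp only
      rw [if_pos rfl, PowerSeries.coeff_zero_eq_constantCoeff_apply, hG0, pow_zero, one_mul,
        map_one, hB0]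
      exact ⟨rfl, rfl⟩
    · rw [hdd]
      dsimp only
      rw [if_neg h0]
      exact hd' x hx
  have hco : ∀ j, (∑ i ∈ Finset.range (a + 1), C (d i) * X ^ i : R[X]).coeff j =
      if j ≤ a then d j else 0 := by
    intro j
    rw [finsetSum_coeff]
    simp only [coeff_C_mul, coeff_X_pow, mul_ite, mul_one, mul_zero]
    rw [Finset.sum_ite_eq]
    simp only [Finset.mem_range, Nat.lt_succ_iff]
  refine ⟨∑ i ∈ Finset.range (a + 1), C (d i) * X ^ i, ?_, ?_, ?_⟩
  · rw [hco, if_pos (Nat.zero_le _), hdd]
    exact if_pos rfl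
  · ext j
    rw [PowerSeries.coeff_rescale, Polynomial.coeff_coe, hco]
    split_ifs with hj
    · exact (hd j hj).1.symm
    · rw [hGd j (by omega), mul_zero]
  · ext j
    rw [coeff_map, hco]
    split_ifs with hj
    · exact (hd j hj).2
    · rw [map_zero, coeff_eq_zero_of_natDegree_lt (by omega)]

end descale

section deg

variable {p : ℕ} [hp : Fact p.Prime] {K : Type} [Field K] [CharP K p]

/-- the degree of the reversed characteristic polynomial of a fibre -/
theorem natDegree_fib {N a : ℕ} {m : ℕ → ℕ} (hma : ∀ i, a * m i < p)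
    (har : a * rot p N m 0 < p ^ N - 1) (c : ℕ → Fin (a + 1) → K) :
    (mprod (fun j => kA p (m j) (ivf K) (c j)) N).charpolyRev.natDegree ≤ a := by
  classical
  have hp1 := hp.out.one_lt
  have h1 : Fintype.card {x : Fin (a + 1) × Unit // (x.1 : ℕ) ≠ a} = a := by
    have e1 : Fintype.card {x : Fin (a + 1) × Unit // (x.1 : ℕ) ≠ a} =
        Fintype.card {x : Fin (a + 1) × Unit // ¬ ((x.1 : ℕ) = a)} := rfl
    rw [e1, Fintype.card_subtype_compl]
    have e2 : Fintype.card {x : Fin (a + 1) × Unit // (x.1 : ℕ) = a} = 1 := by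
      rw [Fintype.card_eq_one_iff]
      refine ⟨⟨(⟨a, Nat.lt_succ_self a⟩, ()), rfl⟩, ?_⟩
      rintro ⟨⟨x, u⟩, hx⟩
      apply Subtype.ext
      exact Prod.ext (Fin.ext hx) rfl
    rw [e2]
    simp
  refine (natDegree_charpolyRev_le _ (fun x : Fin (a + 1) × Unit => (x.1 : ℕ) ≠ a)
    (fun _ => 0) ?_).trans h1.le
  intro x' x hx' hne
  exfalso
  apply hne
  have hx'' : (x'.1 : ℕ) = a := by
    by_contra h
    exact hx' h
  set g : ℕ → K[X] := fun j => gA p (m j) (ivf K) (c j) with hg
  have hdeg : ∀ j, (g j).natDegree < (p - 1) * (a + 1 + 1) := by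
    intro j
    refine lt_of_le_of_lt (natDegree_gA p (m j) (ivf K) _) ?_
    have h1 := hma j
    calc a * (m j + (p - 1)) = a * m j + (p - 1) * a := by ring
      _ < (p - 1) * (a + 1 + 1) := by
        have e : (p - 1) * (a + 1 + 1) = (p - 1) * a + (p - 1) + (p - 1) := by ring
        omega
  have h2 := mprod_kmat (m := a + 1) hp.out.pos (G := fun j => one' (g j))
    (fun j _ _ => hdeg j) N x' x
  have h3 : mprod (fun j => kA p (m j) (ivf K) (c j)) N x' x =
      mprod (fun j => kmat p (a + 1) (one' (g j))) N x' x := rfl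
  rw [h3, h2, hx'']
  apply coeff_eq_zero_of_natDegree_lt
  have hgp : gprod p (fun j => one' (g j)) N x'.2 x.2 =
      ∏ j ∈ Finset.range N, expand K (p ^ j) (g j) := by
    unfold gprod
    have h3 : (fun n => (one' (g n)).map (expand K (p ^ n))) =
        fun n => one' (expand K (p ^ n) (g n)) := by
      funext n
      rfl
    rw [h3, mprod_one']
    rfl
  have h4 : (∏ j ∈ Finset.range N, expand K (p ^ j) (g j)).natDegree ≤
      a * (rot p N m 0 + (p ^ N - 1)) := by
    refine (natDegree_prod_le _ _).trans ?_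
    unfold rot
    rw [← geom_range hp.out.pos N, Finset.mul_sum, ← Finset.sum_add_distrib, Finset.mul_sum]
    refine Finset.sum_le_sum fun j _ => ?_
    rw [natDegree_expand, zero_add]
    calc (g j).natDegree * p ^ j ≤ a * (m j + (p - 1)) * p ^ j :=
          Nat.mul_le_mul_right _ (natDegree_gA p (m j) (ivf K) _)
      _ = a * (m j * p ^ j + (p - 1) * p ^ j) := by ring
  rw [hgp]
  refine lt_of_le_of_lt natDegree_mul_le ?_
  have h5 := natDegree_X_pow_le (R := K) ((x.1 : ℕ) + 1)
  have h6 : (x.1 : ℕ) + 1 ≤ a + 1 := x.1.2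
  have hpN : 1 ≤ p ^ N := Nat.one_le_pow _ _ (by omega)
  have h7 : p ^ N * (a + 1) = (p ^ N - 1) * a + (p ^ N - 1) + (a + 1) := by
    obtain ⟨r, hr⟩ : ∃ r, p ^ N = r + 1 := ⟨p ^ N - 1, by omega⟩
    rw [hr, Nat.add_sub_cancel]
    ring
  have h8 : a * (rot p N m 0 + (p ^ N - 1)) = a * rot p N m 0 + (p ^ N - 1) * a := by ring
  omega

end deg

section rotate

variable {p : ℕ}

theorem rot_mul {N : ℕ} {m : ℕ → ℕ} (hm : ∀ i, m (i + N) = m i) (n i : ℕ) :
    rot p (n * N) m i = rot p N m i * nex (p ^ N) n := by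
  induction n with
  | zero => simp [rot, nex]
  | succ n ih =>
    have h1 : rot p ((n + 1) * N) m i = rot p (n * N) m i + p ^ (n * N) * rot p N m i := by
      unfold rot
      rw [Nat.succ_mul, Finset.sum_range_add, Finset.mul_sum]
      congr 1
      refine Finset.sum_congr rfl fun l _ => ?_
      have e : m (i + (n * N + l)) = m (i + l) := by
        have := per_add hm (i + l) n
        rw [← this]
        congr 1
        ring
      rw [e, pow_add]
      ring
    have h2 : nex (p ^ N) (n + 1) = nex (p ^ N) n + p ^ (n * N) := by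
      unfold nex
      rw [Finset.sum_range_succ, ← pow_mul, mul_comm N]
    rw [h1, ih, h2]
    ring

theorem per_rot {N : ℕ} {m : ℕ → ℕ} (hm : ∀ i, m (i + N) = m i) (n i : ℕ) :
    m (i + n * N) = m i := per_add hm i n

theorem rot_lt_mul {N a : ℕ} (hp : 0 < p) {m : ℕ → ℕ} (hm : ∀ i, m (i + N) = m i)
    (har : ∀ i, a * rot p N m i < p ^ N - 1) {n : ℕ} (hn : 0 < n) (i : ℕ) :
    a * rot p (n * N) m i < p ^ (n * N) - 1 := by
  have h1 := nex_mul (pow_pos hp N) n
  rw [rot_mul hm, mul_comm n N, pow_mul, ← h1, ← mul_assoc]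
  exact Nat.mul_lt_mul_of_pos_right (har i) (nex_pos (pow_pos hp N) hn)

end rotate

end Pool.Agent.K4H5.BC
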