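import Mathlib.Algebra.Polynomial.Expand
import Mathlib.FieldTheory.Separable
import Mathlib.Data.Nat.Factorization.Basic
import Mathlib.Algebra.CharP.Basic

/-!
The multiplicities of the roots of a polynomial in a power of the variable.
-/

set_option autoImplicit false

open Polynomial

namespace Pool.Agent.K4H5.BC

variable {K : Type} [Field K]

theorem rootMult_coprime {d : ℕ} (hd : (d : K) ≠ 0) {y : K} (hy : y ≠ 0) {g : K[X]} (hg : g ≠ 0) :
    (expand K d g).rootMultiplicity y ≤ g.natDegree := by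
  classical
  have hd0 : 0 < d := Nat.pos_of_ne_zero (by rintro rfl; exact hd Nat.cast_zero)
  obtain ⟨h, hh, ndvd⟩ := g.exists_eq_pow_rootMultiplicity_mul_and_not_dvd hg (y ^ d)
  set m := g.rootMultiplicity (y ^ d) with hm
  have hh0 : h ≠ 0 := by
    rintro rfl
    exact ndvd (dvd_zero _)
  have h1 : expand K d g = (X ^ d - C (y ^ d)) ^ m * expand K d h := by
    conv_lhs => rw [hh]
    rw [map_mul, map_pow, map_sub, expand_X, expand_C]
  have h2 : (expand K d h).rootMultiplicity y = 0 := by
    apply rootMultiplicity_eq_zero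
    rw [IsRoot, expand_eval]
    intro h3
    exact ndvd (dvd_iff_isRoot.2 h3)
  have h3 : (X ^ d - C (y ^ d) : K[X]).rootMultiplicity y ≤ 1 :=
    rootMultiplicity_le_one_of_separable (separable_X_pow_sub_C (y ^ d) hd (pow_ne_zero d hy)) y
  have h4 : (X ^ d - C (y ^ d) : K[X]) ≠ 0 :=
    (separable_X_pow_sub_C (y ^ d) hd (pow_ne_zero d hy)).ne_zero
  have h5 : (expand K d h) ≠ 0 := (expand_ne_zero hd0).2 hh0
  have h6 : ((X ^ d - C (y ^ d) : K[X]) ^ m).rootMultiplicity y ≤ m := by
    rw [← count_roots, roots_pow, Multiset.count_nsmul, count_roots]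
    calc m * _ ≤ m * 1 := Nat.mul_le_mul_left _ h3
      _ = m := mul_one _
  rw [h1, rootMultiplicity_mul (mul_ne_zero (pow_ne_zero _ h4) h5), h2, add_zero]
  refine h6.trans ?_
  have h7 : g.natDegree = m + h.natDegree := by
    conv_lhs => rw [hh]
    rw [natDegree_mul (pow_ne_zero _ (X_sub_C_ne_zero _)) hh0, natDegree_pow, natDegree_X_sub_C,
      mul_one]
  omega

/-- the multiplicity of a root of a polynomial in a power of the variable -/
theorem rootMult_expand {p : ℕ} [hp : Fact p.Prime] [CharP K p] {d : ℕ} (hd : d ≠ 0) {y : K}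
    (hy : y ≠ 0) {g : K[X]} (hg : g ≠ 0) :
    (expand K d g).rootMultiplicity y ≤ g.natDegree * p ^ padicValNat p d := by
  set v := d.factorization p with hv
  have h1 : p ^ v * (d / p ^ v) = d := Nat.ordProj_mul_ordCompl_eq_self d p
  have h2 : ¬ p ∣ d / p ^ v := Nat.not_dvd_ordCompl hp.out hd
  have h3 : ((d / p ^ v : ℕ) : K) ≠ 0 := by
    intro h
    exact h2 ((CharP.cast_eq_zero_iff K p _).1 h)
  have h4 : expand K d g = expand K (p ^ v) (expand K (d / p ^ v) g) := by
    rw [← expand_mul, h1]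
  rw [← Nat.factorization_def d hp.out, ← hv, h4, rootMultiplicity_expand_pow, mul_comm]
  exact Nat.mul_le_mul_right _ (rootMult_coprime h3 (pow_ne_zero _ hy) hg)

end Pool.Agent.K4H5.BC
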