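import Pool.Agent.K4H5.BC.Cover
import Pool.Agent.K4H5.BC.Mult

/-!
The Euler product over a covering and the multiplicities of the roots of its reduction.
-/

set_option autoImplicit false
set_option linter.unusedSectionVars false

open Polynomial Module

namespace Pool.Agent.K4H5.BC

open Pool.Agent.W313.Hyp Pool.Agent.W343.BSD Pool.Agent.Y709 Pool.Agent.Y709.Gen
  Pool.Agent.Y709.Lay

theorem map_eq_fpol {A B : Type} [CommRing A] [CommRing B] (φ : A →+* B) {a : ℕ} {f : A[X]}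
    (hf : f.natDegree ≤ a) : f.map φ = fpol fun b : Fin (a + 1) => φ (f.coeff b) := by
  unfold fpol
  conv_lhs => rw [as_sum_range' f (a + 1) (by omega), Polynomial.map_sum]
  rw [Finset.sum_range]
  refine Finset.sum_congr rfl fun b _ => ?_
  rw [← C_mul_X_pow_eq_monomial, Polynomial.map_mul, map_C, Polynomial.map_pow, map_X]

section glob

variable {k R K : Type} [Field k] [Fintype k]
  [CommRing R] [IsDomain R] [CharZero R] [Field K] [Algebra k K] [IsAlgClosed K]
  [Algebra.IsAlgebraic k K] {p F₀ a : ℕ} [hp : Fact p.Prime] [CharP k p] [CharP K p]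
  (S : Sys p R K)
  {O : Type} [CommRing O] [Algebra k[X] O] (G : Type) [Group G] [Finite G]
  [MulSemiringAction G O] [IsGaloisGroup G k[X] O] [FaithfulSMul k[X] O]

/-- the polynomial of the family -/
noncomputable def Del (K : Type) [Field K] [Algebra k K] (p F₀ : ℕ) [Fact p.Prime] [CharP k p]
    (fc : Fin (a + 1) → k[X]) (m : ℕ → ℕ) (δ β : ℕ) : K[X] :=
  (mprod (fun j => kmat p (2 * (δ * a + β)) (GM K p fc m j)) F₀).charpolyRev

/-- the polynomial of the one-dimensional family -/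
noncomputable def Del1 (K : Type) [Field K] [Algebra k K] (p F₀ : ℕ) [Fact p.Prime] [CharP k p]
    (g : k[X]) (m : ℕ → ℕ) : K[X] :=
  (mprod (fun j => kmat p g.natDegree (G1 K p g m j)) F₀).charpolyRev

variable (hF₀ : 0 < F₀) (hk : Fintype.card k = p ^ F₀) {m : ℕ → ℕ}
    (hm : ∀ i, m (i + F₀) = m i) (har : ∀ i, a * rot p F₀ m i < p ^ F₀ - 1) (ha : 2 ≤ a)
    (hM0 : 0 < rot p F₀ m 0) (χ : MulChar k R)
    (hχ : ∀ u, χ u = S.w (algebraMap k K) u ^ rot p F₀ m 0)

include hF₀ hk hm har ha hM0 hχ in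
/-- the Euler product over the covering and its reduction -/
theorem global_bc {g : ℕ} (hG : Nat.card G = p ^ g) {δ β : ℕ} {f : k[X][X]}
    (hf : f.natDegree ≤ a) (hfc : ∀ b : ℕ, (f.coeff b).natDegree ≤ δ * (a - b) + β)
    (ρ : MI k → K) (hρ : ∀ P : MI k, aeval (ρ P) P.1 = 0) (B : k[X]) (hB : B ≠ 0)
    (hun : ∀ 𝔪 : MaximalSpectrum O, vO k 𝔪 B ≠ 0 → 𝔪.asIdeal.inertia G = ⊥) :
    ∃ LD L1 : PowerSeries R, PowerSeries.constantCoeff LD = 1 ∧
      LB O χ f * PowerSeries.rescale ((p : R) ^ F₀) LD = PowerSeries.rescale ((p : R) ^ F₀) L1 ∧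
      PowerSeries.map S.π LD * (((∏ P ∈ divs B,
        dl p F₀ (GM K p (fun b : Fin (a + 1) => f.coeff b) m) ρ P ^ defect O G P) *
          Del K p F₀ (fun b : Fin (a + 1) => f.coeff b) m δ β ^ Nat.card G : K[X]) :
            PowerSeries K) = 1 ∧
      PowerSeries.map S.π L1 * (((∏ P ∈ divs B,
        dl p F₀ (G1 K p (f.coeff 0) m) ρ P ^ defect O G P) *
          Del1 K p F₀ (f.coeff 0) m ^ Nat.card G : K[X]) : PowerSeries K) = 1 := by
  classical
  have hp1 := hp.out.one_lt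
  have hfin := fun n => points_finite (k := k) (O := O) G n
  have hfd : ∀ 𝔪 : MaximalSpectrum O, FiniteDimensional k (RO k 𝔪) := fun 𝔪 => finiteDim_RO G 𝔪
  have hma : ∀ i, a * m i < p := digit_small hF₀ hm har
  have hmp : ∀ i, m i < p := by
    intro i
    have h1 := hma i
    have h2 : m i ≤ a * m i := Nat.le_mul_of_pos_left _ (by omega)
    omega
  set fc : Fin (a + 1) → k[X] := fun b => f.coeff b with hfcdef
  -- the local factors
  have hloc : ∀ 𝔪 : MaximalSpectrum O, ∃ D : R[X], D.coeff 0 = 1 ∧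
      fibG R χ (f.map (vO k 𝔪)) *
        PowerSeries.rescale (((p : R) ^ F₀) ^ finrank k (RO k 𝔪)) (D : PowerSeries R) =
        1 - PowerSeries.C (χ (Algebra.norm k (vO k 𝔪 (f.coeff 0))) *
          ((p : R) ^ F₀) ^ finrank k (RO k 𝔪)) * PowerSeries.X ∧
      D.map S.π = (locS (MonoidHom.id K) p (GM K p fc m) (ρ (pt (k := k) 𝔪))
        (finrank k (RO k 𝔪) * F₀)).charpolyRev ∧
      S.π (χ (Algebra.norm k (vO k 𝔪 (f.coeff 0)))) =
        (aeval (ρ (pt (k := k) 𝔪)) (f.coeff 0)) ^ rot p (finrank k (RO k 𝔪) * F₀) m 0 := by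
    intro 𝔪
    have hfi : Finite (RO k 𝔪) := finite_RO (k := k) G 𝔪
    obtain ⟨σ, hσ⟩ := exists_emb (k := k) (𝔪 := 𝔪) (P := pt (k := k) 𝔪) rfl (hρ _)
    obtain ⟨h1, D, hD0, hD1, hD2, -⟩ := S.fibreK hF₀ hk hm har ha hM0 χ hχ σ
      (fun b : Fin (a + 1) => vO k 𝔪 (f.coeff b))
    have h2 : ∀ g : k[X], σ (vO k 𝔪 g) = aeval (ρ (pt (k := k) 𝔪)) g := by
      intro g
      rw [vO_eq_aeval, ← Polynomial.aeval_algHom_apply, hσ]
    refine ⟨D, hD0, ?_, ?_, ?_⟩
    · rw [map_eq_fpol _ hf]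
      exact hD1
    · rw [hD2, locS_GM]
      simp only [h2]
      rfl
    · have h3 := h1
      simp only [h2] at h3
      exact h3
  choose D hD0 hD1 hD2 hD3 using hloc
  set E : MaximalSpectrum O → R[X] := fun 𝔪 =>
    1 - C (χ (Algebra.norm k (vO k 𝔪 (f.coeff 0)))) * X with hE
  have hE0 : ∀ 𝔪, (E 𝔪).coeff 0 = 1 := by
    intro 𝔪
    rw [hE]
    simp
  have hEπ : ∀ 𝔪, (E 𝔪).map S.π = (locS (MonoidHom.id K) p (G1 K p (f.coeff 0) m)
      (ρ (pt (k := k) 𝔪)) (finrank k (RO k 𝔪) * F₀)).charpolyRev := by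
    intro 𝔪
    rw [locS_G1, charpolyRev_one', ← hD3, hE]
    simp only [Polynomial.map_sub, Polynomial.map_one, Polynomial.map_mul, map_C, map_X]
  have hDc : ∀ 𝔪, PowerSeries.constantCoeff (D 𝔪 : PowerSeries R) = 1 := by
    intro 𝔪
    rw [← PowerSeries.coeff_zero_eq_constantCoeff_apply, Polynomial.coeff_coe, hD0]
  have hfib1 : ∀ 𝔪 : MaximalSpectrum O,
      PowerSeries.constantCoeff (fibG R χ (f.map (vO k 𝔪))) = 1 := by
    intro 𝔪
    have h1 := congrArg PowerSeries.constantCoeff (hD1 𝔪)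
    have h2 : PowerSeries.constantCoeff (PowerSeries.rescale (((p : R) ^ F₀) ^
        (finrank k (RO k 𝔪))) (D 𝔪 : PowerSeries R)) = 1 := by
      rw [← PowerSeries.coeff_zero_eq_constantCoeff_apply, PowerSeries.coeff_rescale, pow_zero,
        one_mul, PowerSeries.coeff_zero_eq_constantCoeff_apply, hDc]
    rw [map_mul, h2, mul_one, map_sub, map_mul, PowerSeries.constantCoeff_X, mul_zero, map_one,
      sub_zero] at h1
    exact h1
  refine ⟨eulerProd (fun 𝔪 : MaximalSpectrum O => finrank k (RO k 𝔪))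
      (fun 𝔪 => PowerSeries.expand (finrank k (RO k 𝔪)) (finrank_ne' G 𝔪)
        (D 𝔪 : PowerSeries R)),
    eulerProd (fun 𝔪 : MaximalSpectrum O => finrank k (RO k 𝔪))
      (fun 𝔪 => PowerSeries.expand (finrank k (RO k 𝔪)) (finrank_ne' G 𝔪)
        (E 𝔪 : PowerSeries R)), ?_, ?_, ?_, ?_⟩
  · rw [← PowerSeries.coeff_zero_eq_constantCoeff_apply, coeff_eulerProd hfin]
    have h3 : (hfin 0).toFinset = ∅ := by
      rw [Set.Finite.toFinset_eq_empty]
      ext 𝔪
      simp only [Set.mem_ofPred_eq, Set.mem_empty_iff_false, iff_false]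
      have := Nat.pos_of_ne_zero (finrank_ne' (k := k) G 𝔪)
      omega
    rw [h3, Finset.prod_empty, PowerSeries.coeff_zero_one]
  · rw [rescale_euler hfin, rescale_euler hfin, LB_eq G, ← eulerProd_mul hfin]
    · congr 1
      funext 𝔪
      rw [rescale_expand, rescale_expand, ← map_mul, hD1]
      congr 1
      rw [hE]
      simp only [Polynomial.coe_sub, Polynomial.coe_one, Polynomial.coe_mul, Polynomial.coe_C,
        Polynomial.coe_X, map_sub, map_one, map_mul, PowerSeries.rescale_X]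
      have h8 : ∀ c : R, PowerSeries.rescale (((p : R) ^ F₀) ^ (finrank k (RO k 𝔪)))
          (PowerSeries.C c) = PowerSeries.C c := by
        intro c
        ext n
        rw [PowerSeries.coeff_rescale, PowerSeries.coeff_C]
        split_ifs with h
        · rw [h, pow_zero, one_mul]
        · rw [mul_zero]
      rw [h8]
      ring
    · intro 𝔪
      exact expand_mod _ (hfib1 𝔪)
    · intro 𝔪
      rw [rescale_expand]
      apply expand_mod
      rw [← PowerSeries.coeff_zero_eq_constantCoeff_apply, PowerSeries.coeff_rescale, pow_zero,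
          one_mul, PowerSeries.coeff_zero_eq_constantCoeff_apply, hDc]
  · refine cover_red S.π G hk hG (GM K p fc m) (GM_per hk hm fc) ρ hρ D hD0 (fun 𝔪 _ => hD2 𝔪)
      (Del K p F₀ fc m δ β) ?_ B hB hun
    exact formula_modS hF₀ hp1 (by rw [Nat.card_eq_fintype_card, hk]) (GM K p fc m)
      (GM_per hk hm fc) (fun j x' x => natDegree_GM hmp (fun b => hfc b) j x' x) ρ hρ
  · refine cover_red S.π G hk hG (G1 K p (f.coeff 0) m) (G1_per hk hm _) ρ hρ E hE0
      (fun 𝔪 _ => hEπ 𝔪) (Del1 K p F₀ (f.coeff 0) m) ?_ B hB hun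
    exact formula_modS hF₀ hp1 (by rw [Nat.card_eq_fintype_card, hk]) (G1 K p (f.coeff 0) m)
      (G1_per hk hm _) (fun j x' x => natDegree_G1 hmp _ j x' x) ρ hρ

end glob

end Pool.Agent.K4H5.BC
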