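import Pool.Agent.K4H5.BC.Expand
import Mathlib.NumberTheory.Wilson

/-!
The leading term of the expansion of a character sum in one variable.
-/

set_option autoImplicit false
set_option linter.unusedSectionVars false

open Finset

namespace Pool.Agent.K4H5.BC

section comb

variable {p N a : ℕ} (hN : 0 < N)

/-- the residue of an index -/
def ix (i : ℕ) : Fin N := ⟨i % N, Nat.mod_lt _ hN⟩

theorem ix_val (i : Fin N) : ix hN (i : ℕ) = i := Fin.ext (Nat.mod_eq_of_lt i.2)

/-- the sums of the digits at a place -/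
def cc (Δ : Fin (a + 1) → Fin N → Fin p) (i : ℕ) : ℕ := ∑ b, (Δ b (ix hN i) : ℕ)

/-- the weighted sums of the digits at a place -/
def dd (Δ : Fin (a + 1) → Fin N → Fin p) (i : ℕ) : ℕ :=
  ∑ b : Fin (a + 1), (b : ℕ) * (Δ b (ix hN i) : ℕ)

theorem ix_add (i : ℕ) : ix hN (i + N) = ix hN i := by
  unfold ix
  exact Fin.ext (Nat.add_mod_right _ _)

theorem cc_per (Δ : Fin (a + 1) → Fin N → Fin p) (i : ℕ) : cc hN Δ (i + N) = cc hN Δ i := by
  unfold cc
  rw [ix_add]

theorem dd_per (Δ : Fin (a + 1) → Fin N → Fin p) (i : ℕ) : dd hN Δ (i + N) = dd hN Δ i := by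
  unfold dd
  rw [ix_add]

theorem dd_le (Δ : Fin (a + 1) → Fin N → Fin p) (i : ℕ) : dd hN Δ i ≤ a * cc hN Δ i := by
  unfold dd cc
  rw [mul_sum]
  refine sum_le_sum fun b _ => Nat.mul_le_mul_right _ (Nat.lt_succ_iff.1 b.2)

theorem rot_cc (Δ : Fin (a + 1) → Fin N → Fin p) : rot p N (cc hN Δ) 0 = ∑ b, nv (Δ b) := by
  unfold rot cc nv
  rw [Finset.sum_range, sum_comm]
  refine sum_congr rfl fun i _ => ?_
  rw [zero_add, ix_val, sum_mul]

theorem rot_dd (Δ : Fin (a + 1) → Fin N → Fin p) :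
    rot p N (dd hN Δ) 0 = ∑ b : Fin (a + 1), (b : ℕ) * nv (Δ b) := by
  unfold rot dd nv
  simp only [mul_sum]
  rw [Finset.sum_range, sum_comm]
  refine sum_congr rfl fun i _ => ?_
  rw [zero_add, ix_val, sum_mul]
  refine sum_congr rfl fun b _ => ?_
  ring

theorem sum_cc (Δ : Fin (a + 1) → Fin N → Fin p) :
    ∑ i ∈ range N, cc hN Δ i = ∑ b, ∑ i, (Δ b i : ℕ) := by
  unfold cc
  rw [Finset.sum_range, sum_comm]
  refine sum_congr rfl fun b _ => sum_congr rfl fun i _ => ?_
  rw [ix_val]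

theorem nv_le (hp : 0 < p) (δ : Fin N → Fin p) : nv δ ≤ p ^ N - 1 := by
  rw [← geom_p (N := N) hp]
  unfold nv
  exact sum_le_sum fun i _ => Nat.mul_le_mul_right _ (by have := (δ i).2; omega)

theorem nv_inj (hp : 0 < p) {δ δ' : Fin N → Fin p} (h : nv δ = nv δ') : δ = δ' := by
  apply (finFunctionFinEquiv (m := p) (n := N)).injective
  apply Fin.ext
  rw [finFunctionFinEquiv_apply, finFunctionFinEquiv_apply]
  exact h

/-- the indices which count -/
def IsGood (n M : ℕ) (Δ : Fin (a + 1) → Fin N → Fin p) : Prop :=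
  n ∣ n - M + ∑ b, nv (Δ b) ∧ 0 < ∑ b : Fin (a + 1), (b : ℕ) * nv (Δ b) ∧
    n ∣ ∑ b : Fin (a + 1), (b : ℕ) * nv (Δ b)

/-- the indices of the leading terms -/
def IsMin (m : ℕ → ℕ) (Δ : Fin (a + 1) → Fin N → Fin p) : Prop :=
  (∀ i : Fin N, ∑ b, (Δ b i : ℕ) = m i + (p - 1)) ∧
    ∃ e ∈ range (a + 1), ∑ b : Fin (a + 1), (b : ℕ) * nv (Δ b) = (p ^ N - 1) * (e + 1)

theorem modEq_iff {n M x : ℕ} (hM : M ≤ n) : n ∣ n - M + x ↔ x ≡ M [MOD n] := by
  constructor
  · intro h
    have h1 : n - M + x + M ≡ 0 + M [MOD n] :=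
      Nat.ModEq.add_right M ((Nat.modEq_zero_iff_dvd).2 h)
    have h2 : n - M + x + M = x + n := by omega
    rw [h2, zero_add] at h1
    have h3 : x + n ≡ x [MOD n] := by
      unfold Nat.ModEq
      simp
    exact h3.symm.trans h1
  · intro h
    have h1 : n - M + x ≡ n - M + M [MOD n] := Nat.ModEq.add_left _ h
    have h2 : n - M + M = n := by omega
    rw [h2] at h1
    exact (Nat.modEq_zero_iff_dvd).1 (h1.trans ((Nat.modEq_zero_iff_dvd).2 dvd_rfl))

variable (hp : 1 < p) {m : ℕ → ℕ} (hm : ∀ i, m (i + N) = m i)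
  (har : ∀ i, a * rot p N m i < p ^ N - 1) (ha : 1 ≤ a)

include hp hm har ha

theorem rot_lt : rot p N m 0 < p ^ N - 1 := by
  have h1 := har 0
  have h2 : rot p N m 0 ≤ a * rot p N m 0 := Nat.le_mul_of_pos_left _ ha
  omega

include hN in
theorem good_ge {Δ : Fin (a + 1) → Fin N → Fin p} (h : IsGood (p ^ N - 1) (rot p N m 0) Δ) :
    ∑ i ∈ range N, m i + (p - 1) * N ≤ ∑ b, ∑ i, (Δ b i : ℕ) := by
  have hlt := rot_lt hp hm har ha
  obtain ⟨h1, h2, h3⟩ := h
  rw [modEq_iff hlt.le, ← rot_cc hN] at h1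
  rw [← rot_dd hN] at h2 h3
  rw [← sum_cc hN]
  exact digit_ge hp hN (cc_per hN Δ) (dd_per hN Δ) hm h1 h2 h3 (dd_le hN Δ) har

include hN in
theorem min_iff (Δ : Fin (a + 1) → Fin N → Fin p) :
    IsMin m Δ ↔ IsGood (p ^ N - 1) (rot p N m 0) Δ ∧
      ∑ i ∈ range N, m i + (p - 1) * N = ∑ b, ∑ i, (Δ b i : ℕ) := by
  have hlt := rot_lt hp hm har ha
  have hn : 0 < p ^ N - 1 := by omega
  have hmN : ∀ i : ℕ, m i = m (ix hN i : ℕ) := fun i => per_mod hm i
  have hpN := geom_range (p := p) (by omega) N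
  constructor
  · rintro ⟨h1, e, he, h2⟩
    have h3 : ∀ i, cc hN Δ i = m i + (p - 1) := by
      intro i
      unfold cc
      rw [h1, ← hmN]
    have h4 : ∑ b, nv (Δ b) = rot p N m 0 + (p ^ N - 1) := by
      rw [← rot_cc hN, ← hpN, mul_sum]
      unfold rot
      rw [← sum_add_distrib]
      refine sum_congr rfl fun l _ => ?_
      rw [h3]
      ring
    refine ⟨⟨?_, ?_, ?_⟩, ?_⟩
    · rw [h4]
      have : p ^ N - 1 - rot p N m 0 + (rot p N m 0 + (p ^ N - 1)) = 2 * (p ^ N - 1) := by omega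
      rw [this]
      exact dvd_mul_left _ _
    · rw [h2]
      exact Nat.mul_pos hn (Nat.succ_pos e)
    · rw [h2]
      exact dvd_mul_right _ _
    · rw [← sum_cc hN, sum_congr rfl fun i _ => h3 i, sum_add_distrib, sum_const, card_range,
        smul_eq_mul, mul_comm N]
  · rintro ⟨h, heq⟩
    have h' := h
    obtain ⟨h1, h2, h3⟩ := h
    rw [modEq_iff hlt.le, ← rot_cc hN] at h1
    rw [← rot_dd hN] at h2 h3
    rw [← sum_cc hN] at heq
    have h4 := digit_eq hp hN (cc_per hN Δ) (dd_per hN Δ) hm h1 h2 h3 (dd_le hN Δ) har heq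
    refine ⟨?_, ?_⟩
    · intro i
      have h5 := h4 (i : ℕ)
      unfold cc at h5
      rw [ix_val] at h5
      exact h5
    · obtain ⟨e, he⟩ := h3
      have h5 : rot p N (cc hN Δ) 0 = rot p N m 0 + (p ^ N - 1) := by
        rw [← hpN, mul_sum]
        unfold rot
        rw [← sum_add_distrib]
        refine sum_congr rfl fun l _ => ?_
        rw [h4]
        ring
      have h6 := rot_mono (p := p) (N := N) (dd_le hN Δ) 0
      rw [h5, he] at h6
      have h7 := har 0
      have h8 : (p ^ N - 1) * e < (p ^ N - 1) * (a + 1) := by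
        calc (p ^ N - 1) * e ≤ a * (rot p N m 0 + (p ^ N - 1)) := h6
          _ = a * rot p N m 0 + a * (p ^ N - 1) := by ring
          _ < (p ^ N - 1) + a * (p ^ N - 1) := Nat.add_lt_add_right h7 _
          _ = _ := by ring
      have h9 : e < a + 1 := Nat.lt_of_mul_lt_mul_left h8
      have he0 : e ≠ 0 := by
        rintro rfl
        rw [he, mul_zero] at h2
        omega
      refine ⟨e - 1, mem_range.2 (by omega), ?_⟩
      rw [← rot_dd hN, he, Nat.sub_add_cancel (Nat.pos_of_ne_zero he0)]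

end comb

section lead

variable {p : ℕ} [hp : Fact p.Prime] {R K : Type} [CommRing R] [IsDomain R] [CharZero R] [Field K]
  [CharP K p] (S : Sys p R K) {F : Type} [Field F] [Fintype F] (σ : F →+* K) [CharP F p]
  [DecidableEq F]

/-- the product of the leading coefficients -/
noncomputable def ldc {N a : ℕ} (σ : F →+* K) (c : Fin (a + 1) → F)
    (Δ : Fin (a + 1) → Fin N → Fin p) : K :=
  ∏ b, ((∏ i, (((Δ b i : ℕ).factorial : ℕ) : K))⁻¹ * σ (c b) ^ nv (Δ b))

open Classical in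
/-- the leading term of the character sum -/
theorem Sys.lead (h2 : (2 : K) ≠ 0) {N a : ℕ} (hN : 0 < N) (hF : Fintype.card F = p ^ N)
    {m : ℕ → ℕ} (hm : ∀ i, m (i + N) = m i) (hmp : ∀ i, m i < p)
    (har : ∀ i, a * rot p N m i < p ^ N - 1) (ha : 1 ≤ a) (hM0 : 0 < rot p N m 0)
    (c : Fin (a + 1) → F) :
    ∃ V : R, ∑ x : F, S.w σ (∑ b : Fin (a + 1), c b * x ^ (b : ℕ)) ^ rot p N m 0 =
        (Fintype.card F : R) * V ∧
      S.π V = σ (c 0) ^ rot p N m 0 -
        (∏ i : Fin N, (-(((m i).factorial : ℕ) : K))) *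
          ∑ Δ ∈ univ.filter (fun Δ : Fin (a + 1) → Fin N → Fin p => IsMin m Δ),
            ldc σ c Δ := by
  have hp1 := hp.out.one_lt
  have hM := rot_lt hp1 hm har ha
  set M := rot p N m 0 with hMdef
  set n := p ^ N - 1 with hn
  have hcn : Fintype.card F - 1 = n := by rw [hF]
  have hn0 : 0 < n := by omega
  have hp2 : 2 < p := by
    rcases Nat.lt_or_ge 2 p with h | h
    · exact h
    · exfalso
      have h3 : p = 2 := by omega
      apply h2
      have h4 := CharP.cast_eq_zero K p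
      rw [h3] at h4
      exact_mod_cast h4
  have hcard : 2 < Fintype.card F := by
    rw [hF]
    exact lt_of_lt_of_le hp2 (Nat.le_self_pow hN.ne' p)
  -- Stickelberger
  have hst := fun δ : Fin N → Fin p => S.stick σ h2 hN hF δ
  choose U hU1 hU2 using hst
  have hU1' : ∀ δ : Fin N → Fin p, S.gam σ (nv δ) = S.G σ 1 ^ (∑ i, (δ i : ℕ)) * U δ := hU1
  set g := S.G σ 1 with hg
  set Q : R := (Fintype.card F : R) with hQ
  have hQ0 : Q ≠ 0 := by
    rw [hQ]
    exact_mod_cast (by omega : Fintype.card F ≠ 0)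
  have hπQ : S.π Q = 0 := by
    rw [hQ, map_natCast, card_cast σ]
  have hπg : S.π g = 0 := S.π_G_one σ hcard
  -- the digits of `M` and of `n`
  set μ : Fin N → Fin p := fun i => ⟨m i, hmp i⟩ with hμ
  have hμM : nv μ = M := by
    rw [hMdef]
    unfold nv rot
    rw [Finset.sum_range]
    refine sum_congr rfl fun i _ => ?_
    rw [zero_add]
  set ν : Fin N → Fin p := fun _ => ⟨p - 1, by omega⟩ with hν
  have hνn : nv ν = n := by
    unfold nv
    exact geom_p hp.out.pos
  have hgM : S.gam σ M = S.G σ M := by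
    unfold Sys.gam
    rw [if_neg (by omega), if_neg (by rw [hcn]; omega)]
  have hgn : S.gam σ n = Q := by
    unfold Sys.gam
    rw [if_neg (by omega), if_pos hcn.symm]
  have hg0 : S.gam σ 0 = 1 - Q := by
    unfold Sys.gam
    rw [if_pos rfl]
  have hGM := hU1' μ
  rw [hμM, hgM] at hGM
  have hGn := hU1' ν
  rw [hνn, hgn] at hGn
  have hsμ : ∑ i, (μ i : ℕ) = ∑ i ∈ range N, m i := by
    rw [Finset.sum_range]
  have hsν : ∑ i, (ν i : ℕ) = (p - 1) * N := by
    rw [hν]
    simp [mul_comm]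
  rw [hsμ] at hGM
  rw [hsν] at hGn
  set W := ∑ i ∈ range N, m i + (p - 1) * N with hW
  have hg1 : g ≠ 0 := by
    intro h
    rw [h, zero_pow (Nat.mul_pos (by omega) hN).ne', zero_mul] at hGn
    exact hQ0 hGn
  have hunit : ∀ δ, ∃ v : R, v * U δ = 1 ∧ S.π v = ∏ i, (((δ i : ℕ).factorial : ℕ) : K) := by
    intro δ
    obtain ⟨v, hv⟩ := S.hu (U δ) (by
      intro h
      have := hU2 δ
      rw [h, zero_mul] at this
      exact zero_ne_one this)
    refine ⟨((v⁻¹ : Rˣ) : R), by rw [← hv, Units.inv_mul], ?_⟩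
    have h3 : S.π ((v⁻¹ : Rˣ) : R) * S.π (U δ) = 1 := by
      rw [← map_mul, ← hv, Units.inv_mul, map_one]
    have h4 := hU2 δ
    calc S.π ((v⁻¹ : Rˣ) : R) = S.π ((v⁻¹ : Rˣ) : R) *
          (S.π (U δ) * ∏ i, (((δ i : ℕ).factorial : ℕ) : K)) := by rw [h4, mul_one]
      _ = (S.π ((v⁻¹ : Rˣ) : R) * S.π (U δ)) * ∏ i, (((δ i : ℕ).factorial : ℕ) : K) := by ring
      _ = _ := by rw [h3, one_mul]
  obtain ⟨vμ, hvμ, hvμ'⟩ := hunit μ
  obtain ⟨vν, hvν, hvν'⟩ := hunit ν
  obtain ⟨vQ, hvQ⟩ := S.hu (1 - Q) (by rw [map_sub, map_one, hπQ, sub_zero]; exact one_ne_zero)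
  -- the terms
  let X : (Fin (a + 1) → Fin N → Fin p) → ℕ := fun Δ => ∑ b, nv (Δ b)
  let D : (Fin (a + 1) → Fin N → Fin p) → ℕ := fun Δ => ∑ b : Fin (a + 1), (b : ℕ) * nv (Δ b)
  let s : (Fin (a + 1) → Fin N → Fin p) → ℕ := fun Δ => ∑ b, ∑ i, (Δ b i : ℕ)
  let T : (Fin (a + 1) → Fin N → Fin p) → R := fun Δ =>
    (∏ b : Fin (a + 1), S.gam σ (nv (Δ b)) * S.w σ (c b) ^ nv (Δ b)) *
        ((∑ z : F, S.w σ z ^ (Fintype.card F - 1 - M + ∑ b, nv (Δ b))) *
          ∑ x : F, S.w σ x ^ (∑ b : Fin (a + 1), (b : ℕ) * nv (Δ b)))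
  let t : (Fin (a + 1) → Fin N → Fin p) → R := fun Δ =>
    if IsGood n M Δ then g ^ (s Δ - W) * (∏ b : Fin (a + 1), U (Δ b) * S.w σ (c b) ^ nv (Δ b)) *
      (Q - 1) ^ 2 else 0
  let Δ0 : Fin (a + 1) → Fin N → Fin p := fun b => if b = 0 then μ else fun _ => ⟨0, hp.out.pos⟩
  have hprod : ∀ Δ : Fin (a + 1) → Fin N → Fin p,
      ∏ b : Fin (a + 1), S.gam σ (nv (Δ b)) * S.w σ (c b) ^ nv (Δ b) =
      g ^ (s Δ) * ∏ b : Fin (a + 1), U (Δ b) * S.w σ (c b) ^ nv (Δ b) := by
    intro Δ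
    show _ = g ^ (∑ b, ∑ i, (Δ b i : ℕ)) * _
    rw [← prod_pow_eq_pow_sum, ← prod_mul_distrib]
    refine prod_congr rfl fun b _ => ?_
    rw [hU1']
    ring
  have hzero : nv (fun _ : Fin N => (⟨0, hp.out.pos⟩ : Fin p)) = 0 := by
    unfold nv
    simp
  have hT : ∀ Δ, T Δ = (if Δ = Δ0 then
      S.G σ M * S.w σ (c 0) ^ M * (1 - Q) ^ a * ((Q - 1) * Q) else 0) + g ^ W * t Δ := by
    intro Δ
    have e1 : (∑ z : F, S.w σ z ^ (Fintype.card F - 1 - M + ∑ b, nv (Δ b))) =
        if n ∣ n - M + ∑ b, nv (Δ b) then Q - 1 else 0 := by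
      rw [S.sum_w σ _ (by rw [hcn]; omega), hcn]
    show (∏ b : Fin (a + 1), S.gam σ (nv (Δ b)) * S.w σ (c b) ^ nv (Δ b)) *
        ((∑ z : F, S.w σ z ^ (Fintype.card F - 1 - M + ∑ b, nv (Δ b))) *
          ∑ x : F, S.w σ x ^ (∑ b : Fin (a + 1), (b : ℕ) * nv (Δ b))) = _
    rw [e1]
    by_cases hD : ∑ b : Fin (a + 1), (b : ℕ) * nv (Δ b) = 0
    · -- the constant term
      have hng : ¬ IsGood n M Δ := fun h => by
        have := h.2.1
        omega
      have e2 : t Δ = 0 := if_neg hng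
      rw [e2, mul_zero, add_zero, hD]
      have e3 : ∑ x : F, S.w σ x ^ 0 = Q := by
        simp only [pow_zero, sum_const, card_univ, nsmul_eq_mul, mul_one]
        rfl
      rw [e3]
      have hb : ∀ b : Fin (a + 1), b ≠ 0 → Δ b = fun _ => ⟨0, hp.out.pos⟩ := by
        intro b hb
        have h3 := (Finset.sum_eq_zero_iff.1 hD) b (mem_univ _)
        rcases Nat.mul_eq_zero.1 h3 with h4 | h4
        · exact absurd (Fin.ext h4) hb
        · apply nv_inj hp.out.pos
          rw [h4, hzero]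
      have hX : ∑ b, nv (Δ b) = nv (Δ 0) := by
        rw [Finset.sum_eq_single 0]
        · intro b _ hb0
          rw [hb b hb0, hzero]
        · intro h
          exact absurd (mem_univ _) h
      rw [hX]
      by_cases hΔ : Δ = Δ0
      · rw [if_pos hΔ]
        have h3 : Δ 0 = μ := by rw [hΔ]; rfl
        rw [h3, hμM]
        have h4 : n - M + M = n := by omega
        rw [h4, if_pos dvd_rfl, Fin.prod_univ_succ, h3, hμM, hgM]
        have h5 : ∀ b : Fin a, S.gam σ (nv (Δ b.succ)) * S.w σ (c b.succ) ^ nv (Δ b.succ) =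
            1 - Q := by
          intro b
          rw [hb _ (Fin.succ_ne_zero b), hzero, hg0, pow_zero, mul_one]
        rw [prod_congr rfl fun b _ => h5 b, prod_const, card_univ, Fintype.card_fin]
      · rw [if_neg hΔ, if_neg, zero_mul, mul_zero]
        intro h3
        apply hΔ
        have h4 := nv_le (N := N) hp.out.pos (Δ 0)
        obtain ⟨q', hq'⟩ := h3
        have h5 : nv (Δ 0) = M := by
          have h6 : q' = 1 := by
            rcases Nat.lt_or_ge q' 2 with h7 | h7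
            · rcases Nat.lt_or_ge q' 1 with h8 | h8
              · exfalso
                have : q' = 0 := by omega
                rw [this, mul_zero] at hq'
                omega
              · omega
            · exfalso
              have := Nat.mul_le_mul_left n h7
              omega
          rw [h6, mul_one] at hq'
          omega
        funext b
        by_cases hb0 : b = 0
        · subst hb0
          show _ = μ
          apply nv_inj hp.out.pos
          rw [h5, hμM]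
        · rw [hb b hb0]
          show _ = if b = 0 then μ else _
          rw [if_neg hb0]
    · have hΔ : Δ ≠ Δ0 := by
        intro h
        apply hD
        refine sum_eq_zero fun b _ => ?_
        by_cases hb0 : b = 0
        · subst hb0
          simp
        · have : Δ b = fun _ => ⟨0, hp.out.pos⟩ := by
            rw [h]
            show (if b = 0 then μ else _) = _
            rw [if_neg hb0]
          rw [this, hzero, mul_zero]
      rw [if_neg hΔ, zero_add, S.sum_w σ _ hD, hcn]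
      by_cases hgd : IsGood n M Δ
      · have e2 : t Δ = g ^ (s Δ - W) *
            (∏ b : Fin (a + 1), U (Δ b) * S.w σ (c b) ^ nv (Δ b)) * (Q - 1) ^ 2 := if_pos hgd
        have hge := good_ge hN hp1 hm har ha hgd
        rw [e2, if_pos hgd.1, if_pos hgd.2.2, hprod]
        have h3 : s Δ = W + (s Δ - W) := by
          have : W ≤ s Δ := hge
          omega
        conv_lhs => rw [h3, pow_add]
        ring
      · have e2 : t Δ = 0 := if_neg hgd
        rw [e2, mul_zero]
        by_cases h3 : n ∣ n - M + ∑ b, nv (Δ b)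
        · rw [if_neg (fun h4 => hgd ⟨h3, Nat.pos_of_ne_zero hD, h4⟩), mul_zero, mul_zero]
        · rw [if_neg h3, zero_mul, mul_zero]
  have hbig := S.big σ hF hcard hM0 (by rw [hcn]; exact hM) c
  have hbig' : -((1 - Q) ^ (a + 1) * S.G σ M *
        ∑ x : F, S.w σ (∑ b : Fin (a + 1), c b * x ^ (b : ℕ)) ^ M) =
      S.G σ M * S.w σ (c 0) ^ M * (1 - Q) ^ a * ((Q - 1) * Q) + g ^ W * ∑ Δ, t Δ := by
    rw [hbig]
    have h3 : ∑ Δ, T Δ = _ := sum_congr rfl fun Δ _ => hT Δ
    rw [sum_add_distrib, sum_ite_eq' univ Δ0, if_pos (mem_univ _), ← mul_sum] at h3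
    exact h3
  set V2 := ∑ Δ, t Δ with hV2
  have hGM0 : S.G σ M ≠ 0 := by
    intro h
    rw [h] at hGM
    have h3 : g ^ (∑ i ∈ range N, m i) ≠ 0 := pow_ne_zero _ hg1
    have h4 : U μ ≠ 0 := by
      intro h5
      rw [h5, mul_zero] at hvμ
      exact zero_ne_one hvμ
    exact (mul_ne_zero h3 h4) hGM.symm
  refine ⟨S.w σ (c 0) ^ M - ((vQ⁻¹ : Rˣ) : R) ^ (a + 1) * vμ * vν * V2, ?_, ?_⟩
  · have h3 : g ^ W = S.G σ M * vμ * (Q * vν) := by
      rw [hW, pow_add]
      have h4 : g ^ (∑ i ∈ range N, m i) = S.G σ M * vμ := by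
        rw [hGM]
        linear_combination (-(g ^ (∑ i ∈ range N, m i))) * hvμ
      have h5 : g ^ ((p - 1) * N) = Q * vν := by
        rw [hGn]
        linear_combination (-(g ^ ((p - 1) * N))) * hvν
      rw [h4, h5]
    have h6 : ((vQ⁻¹ : Rˣ) : R) ^ (a + 1) * (1 - Q) ^ (a + 1) = 1 := by
      rw [← mul_pow, ← hvQ, Units.inv_mul, one_pow]
    have h7 : S.G σ M * ((1 - Q) ^ (a + 1) *
        ∑ x : F, S.w σ (∑ b : Fin (a + 1), c b * x ^ (b : ℕ)) ^ M) =
        S.G σ M * (Q * ((1 - Q) ^ (a + 1) * S.w σ (c 0) ^ M - vμ * vν * V2)) := by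
      rw [h3] at hbig'
      linear_combination -hbig'
    have h8 := mul_left_cancel₀ hGM0 h7
    calc ∑ x : F, S.w σ (∑ b : Fin (a + 1), c b * x ^ (b : ℕ)) ^ M =
        (((vQ⁻¹ : Rˣ) : R) ^ (a + 1) * (1 - Q) ^ (a + 1)) *
          ∑ x : F, S.w σ (∑ b : Fin (a + 1), c b * x ^ (b : ℕ)) ^ M := by rw [h6, one_mul]
      _ = ((vQ⁻¹ : Rˣ) : R) ^ (a + 1) *
          (Q * ((1 - Q) ^ (a + 1) * S.w σ (c 0) ^ M - vμ * vν * V2)) := by
          rw [← h8]
          ring
      _ = _ := by linear_combination (Q * S.w σ (c 0) ^ M) * h6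
  · have hπv : S.π ((vQ⁻¹ : Rˣ) : R) = 1 := by
      have h3 : S.π ((vQ⁻¹ : Rˣ) : R) * S.π (1 - Q) = 1 := by
        rw [← map_mul, ← hvQ, Units.inv_mul, map_one]
      rw [map_sub, map_one, hπQ, sub_zero, mul_one] at h3
      exact h3
    have hπV : S.π V2 = ∑ Δ ∈ univ.filter (fun Δ : Fin (a + 1) → Fin N → Fin p => IsMin m Δ),
        ldc σ c Δ := by
      rw [hV2, map_sum, sum_filter]
      refine sum_congr rfl fun Δ _ => ?_
      have h3 := min_iff hN hp1 hm har ha Δ
      by_cases hgd : IsGood n M Δ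
      · have e2 : t Δ = g ^ (s Δ - W) *
            (∏ b : Fin (a + 1), U (Δ b) * S.w σ (c b) ^ nv (Δ b)) * (Q - 1) ^ 2 := if_pos hgd
        have hge := good_ge hN hp1 hm har ha hgd
        rw [e2, map_mul, map_mul, map_pow, map_pow, map_sub, hπQ, map_one, hπg]
        by_cases hs : W = s Δ
        · rw [if_pos (h3.2 ⟨hgd, hs⟩), ← hs, Nat.sub_self, pow_zero, one_mul, map_prod]
          have h4 : (0 - 1 : K) ^ 2 = 1 := by ring
          rw [h4, mul_one]
          unfold ldc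
          refine prod_congr rfl fun b _ => ?_
          rw [map_mul, map_pow, S.π_w, ← eq_inv_of_mul_eq_one_left (hU2 (Δ b))]
        · rw [if_neg (fun h4 => hs (h3.1 h4).2), zero_pow, zero_mul, zero_mul]
          have : W ≤ s Δ := hge
          omega
      · have e2 : t Δ = 0 := if_neg hgd
        rw [e2, map_zero, if_neg (fun h4 => hgd (h3.1 h4).1)]
    rw [map_sub, map_pow, S.π_w, map_mul, map_mul, map_mul, map_pow, hπv, one_pow, one_mul, hvμ',
      hvν', hπV]
    congr 2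
    rw [← prod_mul_distrib]
    refine prod_congr rfl fun i _ => ?_
    have hw : (((p - 1).factorial : ℕ) : K) = -1 := by
      have h3 := ZMod.wilsons_lemma p
      have h4 := congrArg (ZMod.castHom (dvd_refl p) K) h3
      rw [map_natCast, map_neg, map_one] at h4
      exact h4
    show (((m i).factorial : ℕ) : K) * (((p - 1).factorial : ℕ) : K) = _
    rw [hw]
    ring

end lead

end Pool.Agent.K4H5.BC
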