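import Pool.Agent.K4H5.BC.Stick
import Pool.Agent.Y709.Trf
import Pool.Agent.Y709.Trace
import Mathlib.RingTheory.RootsOfUnity.Complex
import Mathlib.FieldTheory.IsAlgClosed.AlgebraicClosure
import Mathlib.RingTheory.Ideal.GoingUp
import Mathlib.RingTheory.Localization.AtPrime.Basic

/-!
The ring of the values of the characters.
-/

set_option autoImplicit false
set_option linter.unusedSectionVars false

open Polynomial

namespace Pool.Agent.K4H5.BC

open Pool.Agent.W313.Hyp Pool.Agent.W343.BSD Pool.Agent.Y709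

section ext

theorem exists_ext1 {A B K : Type} [CommRing A] [IsDomain A] [CommRing B] [IsDomain B] [Field K] [IsAlgClosed K]
    [Algebra A B] [Algebra.IsIntegral A B] [Algebra A K] (hinj : Function.Injective (algebraMap A B))
    (hinj' : Function.Injective (algebraMap A K)) : ∃ φ : B →+* K, ∀ a, φ (algebraMap A B a) = algebraMap A K a := by
  have i3 : Module.IsTorsionFree A K := by
    have := (faithfulSMul_iff_algebraMap_injective A K).2 hinj'
    infer_instance
  have i4 : Module.IsTorsionFree A B := by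
    have := (faithfulSMul_iff_algebraMap_injective A B).2 hinj
    infer_instance
  have : Nontrivial A := inferInstance
  have i6 : Algebra.IsAlgebraic A B := inferInstance
  let j : B →ₐ[A] K := IsAlgClosed.lift
  exact ⟨(j : B →+* K), fun a => j.commutes a⟩

theorem exists_ext2 {A B K : Type} [CommRing A] [CommRing B] [Field K] [IsAlgClosed K]
    [Algebra A B] [Algebra.IsIntegral A B] (P : Ideal A) (Q : Ideal B) [P.IsPrime] [Q.IsPrime]
    (hQ : Q.comap (algebraMap A B) = P) (ρ : (A ⧸ P) →+* K) (hρ : Function.Injective ρ) :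
    ∃ φ : B →+* K, ∀ a, φ (algebraMap A B a) = ρ (Ideal.Quotient.mk P a) := by
  have hle : P ≤ Q.comap (algebraMap A B) := hQ.ge
  let _ : Algebra (A ⧸ P) (B ⧸ Q) := (Ideal.quotientMap Q (algebraMap A B) hle).toAlgebra
  have hal : ∀ a, algebraMap (A ⧸ P) (B ⧸ Q) (Ideal.Quotient.mk P a) =
      Ideal.Quotient.mk Q (algebraMap A B a) := fun a => rfl
  have hinj : Function.Injective (algebraMap (A ⧸ P) (B ⧸ Q)) := by
    rw [injective_iff_map_eq_zero]
    intro x hx
    obtain ⟨a, rfl⟩ := Ideal.Quotient.mk_surjective x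
    rw [hal, Ideal.Quotient.eq_zero_iff_mem] at hx
    rw [Ideal.Quotient.eq_zero_iff_mem, ← hQ]
    exact hx
  have hint : Algebra.IsIntegral (A ⧸ P) (B ⧸ Q) := by
    constructor
    intro x
    obtain ⟨b, rfl⟩ := Ideal.Quotient.mk_surjective x
    obtain ⟨g, hg1, hg2⟩ := Algebra.IsIntegral.isIntegral (R := A) b
    refine ⟨g.map (Ideal.Quotient.mk P), hg1.map _, ?_⟩
    rw [eval₂_map]
    have h1 := congrArg (Ideal.Quotient.mk Q) hg2
    rw [hom_eval₂, map_zero] at h1
    exact h1
  let _ : Algebra (A ⧸ P) K := ρ.toAlgebra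
  obtain ⟨φ, hφ⟩ := exists_ext1 (A := A ⧸ P) (B := B ⧸ Q) (K := K) hinj hρ
  exact ⟨φ.comp (Ideal.Quotient.mk Q), fun a => hφ (Ideal.Quotient.mk P a)⟩

theorem exists_ext {A B K : Type} [CommRing A] [CommRing B] [Field K] [IsAlgClosed K]
    [Algebra A B] [Algebra.IsIntegral A B] (hinj : Function.Injective (algebraMap A B))
    (ρ : A →+* K) : ∃ φ : B →+* K, ∀ a, φ (algebraMap A B a) = ρ a := by
  have hP : (RingHom.ker ρ).IsPrime := RingHom.ker_isPrime ρ
  obtain ⟨Q, -, hQ1, hQ2⟩ := Ideal.exists_ideal_over_prime_of_isIntegral (S := B)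
    (RingHom.ker ρ) ⊥ (by
      intro x hx
      rw [Ideal.mem_comap, Ideal.mem_bot] at hx
      rw [hinj (hx.trans (map_zero _).symm)]
      exact Ideal.zero_mem _)
  obtain ⟨φ, hφ⟩ := exists_ext2 (RingHom.ker ρ) Q hQ2 (RingHom.kerLift ρ)
    (RingHom.kerLift_injective ρ)
  exact ⟨φ, fun a => hφ a⟩

end ext

section teich

variable {p : ℕ} [hp : Fact p.Prime] {R K : Type} [CommRing R] [IsDomain R] [Field K] [CharP K p]
  (π : R →+* K)

/-- a root of unity of order prime to `p` -/
def IsT (p : ℕ) {R : Type} [CommRing R] (r : R) : Prop := ∃ e : ℕ, 0 < e ∧ ¬ p ∣ e ∧ r ^ e = 1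

theorem isT_eq_one {r : R} (hr : IsT p r) (h : π r = 1) : r = 1 := by
  obtain ⟨e, -, he, h1⟩ := hr
  by_contra hne
  have h2 := geom_sum_mul r e
  rw [h1, sub_self] at h2
  have h3 := (mul_eq_zero.1 h2).resolve_right (sub_ne_zero.2 hne)
  have h4 := congrArg π h3
  rw [map_sum, map_zero] at h4
  simp only [map_pow, h, one_pow, Finset.sum_const, Finset.card_range, nsmul_eq_mul, mul_one] at h4
  exact he ((CharP.cast_eq_zero_iff K p e).1 h4)

theorem isT_mul {r s : R} (hr : IsT p r) (hs : IsT p s) : IsT p (r * s) := by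
  obtain ⟨e, he0, he, h1⟩ := hr
  obtain ⟨e', he0', he', h1'⟩ := hs
  refine ⟨e * e', Nat.mul_pos he0 he0', ?_, ?_⟩
  · intro h
    rcases (hp.out.dvd_mul).1 h with h | h
    · exact he h
    · exact he' h
  · rw [mul_pow, pow_mul, h1, one_pow, mul_comm e e', pow_mul, h1', one_pow, mul_one]

theorem isT_pow {r : R} (hr : IsT p r) (n : ℕ) : IsT p (r ^ n) := by
  obtain ⟨e, he0, he, h1⟩ := hr
  exact ⟨e, he0, he, by rw [← pow_mul, mul_comm, pow_mul, h1, one_pow]⟩

theorem isT_uniq {r s : R} (hr : IsT p r) (hs : IsT p s) (h : π r = π s) : r = s := by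
  obtain ⟨e, he0, he, h1⟩ := hs
  obtain ⟨e', rfl⟩ : ∃ e', e = e' + 1 := ⟨e - 1, by omega⟩
  have h2 : r * s ^ e' = 1 := by
    refine isT_eq_one (p := p) π (isT_mul hr (isT_pow ⟨e' + 1, he0, he, h1⟩ e')) ?_
    rw [map_mul, map_pow, h, ← map_pow, ← map_mul, ← pow_succ', h1, map_one]
  calc r = r * (s ^ (e' + 1)) := by rw [h1, mul_one]
    _ = (r * s ^ e') * s := by rw [pow_succ]; ring
    _ = s := by rw [h2, one_mul]

theorem exists_pow_one {k : Type} [Field k] [Finite k] [CharP k p] [Algebra k K]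
    [Algebra.IsAlgebraic k K] {x : K} (hx : x ≠ 0) : ∃ e : ℕ, 0 < e ∧ ¬ p ∣ e ∧ x ^ e = 1 := by
  have hint : IsIntegral k x := Algebra.IsIntegral.isIntegral x
  let P : MI k := ⟨minpoly k x, minpoly.monic hint, minpoly.irreducible hint⟩
  have h1 := root_pow (K := K) P (a := x) (minpoly.aeval k x) dvd_rfl
  set N := Nat.card k ^ P.1.natDegree with hN
  have hq : 1 < Nat.card k := Finite.one_lt_card
  have hN1 : 1 < N := Nat.one_lt_pow (MI.deg_pos P).ne' hq
  have hpN : p ∣ N := by
    have h2 : p ∣ Nat.card k := by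
      have hF : Fintype k := Fintype.ofFinite k
      rw [Nat.card_eq_fintype_card, ← CharP.cast_eq_zero_iff k p]
      exact FiniteField.cast_card_eq_zero k
    exact h2.trans (dvd_pow_self _ (MI.deg_pos P).ne')
  refine ⟨N - 1, by omega, ?_, ?_⟩
  · intro h
    have h3 := (Nat.dvd_sub_iff_right (by omega : 1 ≤ N) hpN).1 h
    exact hp.out.one_lt.ne' (Nat.dvd_one.1 h3)
  · apply mul_left_cancel₀ hx
    rw [← pow_succ', Nat.sub_add_cancel hN1.le, h1, mul_one]

/-- the Teichmueller representatives -/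
theorem exists_teich {k : Type} [Field k] [Finite k] [CharP k p] [Algebra k K]
    [Algebra.IsAlgebraic k K]
    (hprim : ∀ e : ℕ, 0 < e → ∃ r : R, IsPrimitiveRoot r e) :
    ∃ τ : K →*₀ R, (∀ a, π (τ a) = a) ∧ ∀ a, a ≠ 0 → IsT p (τ a) := by
  classical
  have hex : ∀ a : K, ∃ r : R, (a = 0 → r = 0) ∧ (a ≠ 0 → IsT p r ∧ π r = a) := by
    intro a
    by_cases ha : a = 0
    · exact ⟨0, fun _ => rfl, fun h => absurd ha h⟩
    · obtain ⟨e, he0, he, h1⟩ := exists_pow_one (p := p) (k := k) ha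
      obtain ⟨ω, hω⟩ := hprim e he0
      have hωT : IsT p ω := ⟨e, he0, he, hω.pow_eq_one⟩
      have h2 : IsPrimitiveRoot (π ω) e := by
        refine ⟨by rw [← map_pow, hω.pow_eq_one, map_one], ?_⟩
        intro l hl
        rw [← map_pow] at hl
        exact hω.dvd_of_pow_eq_one l (isT_eq_one π (isT_pow hωT l) hl)
      have hne : NeZero e := ⟨he0.ne'⟩
      obtain ⟨i, -, hi⟩ := h2.eq_pow_of_pow_eq_one h1
      exact ⟨ω ^ i, fun h => absurd h ha, fun _ => ⟨isT_pow hωT i, by rw [map_pow, hi]⟩⟩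
  choose t ht0 ht1 using hex
  have hone : IsT p (1 : R) := ⟨1, one_pos, fun h => hp.out.one_lt.ne' (Nat.dvd_one.1 h), one_pow 1⟩
  refine ⟨{ toFun := t
            map_zero' := ht0 0 rfl
            map_one' := isT_uniq π (ht1 1 one_ne_zero).1 hone
              (by rw [(ht1 1 one_ne_zero).2, map_one])
            map_mul' := fun a b => ?_ }, ?_, ?_⟩
  · by_cases ha : a = 0
    · rw [ha, zero_mul, ht0 0 rfl, zero_mul]
    · by_cases hb : b = 0
      · rw [hb, mul_zero, ht0 0 rfl, mul_zero]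
      · refine isT_uniq π (ht1 _ (mul_ne_zero ha hb)).1 (isT_mul (ht1 a ha).1 (ht1 b hb).1) ?_
        rw [(ht1 _ (mul_ne_zero ha hb)).2, map_mul, (ht1 a ha).2, (ht1 b hb).2]
  · intro a
    show π (t a) = a
    by_cases ha : a = 0
    · rw [ha, ht0 0 rfl, map_zero]
    · exact (ht1 a ha).2
  · intro a ha
    exact (ht1 a ha).1

end teich

section loc

/-- the algebraic integers -/
abbrev AI : Type := integralClosure ℤ ℂ

theorem exists_loc {K : Type} [Field K] (φ : AI →+* K) :
    ∃ (R : Type) (_ : CommRing R) (_ : IsDomain R) (π : R →+* K) (ι : R →+* ℂ) (j : AI →+* R),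
      Function.Injective ι ∧ (∀ r : R, π r ≠ 0 → IsUnit r) ∧ (∀ a, π (j a) = φ a) ∧
      ∀ a : AI, ι (j a) = (a : ℂ) := by
  set P : Ideal AI := RingHom.ker φ with hP
  have hPp : P.IsPrime := RingHom.ker_isPrime φ
  have hle : P.primeCompl ≤ nonZeroDivisors AI := P.primeCompl_le_nonZeroDivisors
  have hφ : ∀ s : P.primeCompl, IsUnit (φ s) := by
    intro s
    rw [isUnit_iff_ne_zero]
    exact s.2
  have hc : ∀ s : P.primeCompl, IsUnit ((algebraMap AI ℂ) s) := by
    intro s
    rw [isUnit_iff_ne_zero]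
    intro h
    apply s.2
    have h1 : (s : AI) = 0 := Subtype.ext h
    rw [h1]
    exact Ideal.zero_mem _
  let π : Localization P.primeCompl →+* K := IsLocalization.lift hφ
  let ι : Localization P.primeCompl →+* ℂ := IsLocalization.lift hc
  let j : AI →+* Localization P.primeCompl := algebraMap _ _
  have hπj : ∀ a, π (j a) = φ a := fun a => IsLocalization.lift_eq hφ a
  have hιj : ∀ a : AI, ι (j a) = (a : ℂ) := fun a => IsLocalization.lift_eq hc a
  have hju : ∀ s : P.primeCompl, IsUnit (j s) := fun s => IsLocalization.map_units _ s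
  refine ⟨Localization P.primeCompl, inferInstance, IsLocalization.isDomain_localization hle, π, ι,
    j, ?_, ?_, hπj, hιj⟩
  · rw [injective_iff_map_eq_zero]
    intro r hr
    obtain ⟨⟨a, s⟩, has⟩ := IsLocalization.surj P.primeCompl r
    have h1 : r * j s = j a := has
    have h2 : j a = 0 := by
      have h3 := congrArg ι h1
      rw [map_mul, hr, zero_mul, hιj] at h3
      have h4 : a = 0 := Subtype.ext h3.symm
      rw [h4, map_zero]
    rw [h2] at h1
    obtain ⟨u, hu⟩ := hju s
    rw [← hu] at h1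
    exact (Units.mul_left_eq_zero u).1 h1
  · intro r hr
    obtain ⟨⟨a, s⟩, has⟩ := IsLocalization.surj P.primeCompl r
    have h1 : r * j s = j a := has
    have h2 : φ a ≠ 0 := by
      rw [← hπj, ← h1, map_mul, hπj]
      exact mul_ne_zero hr s.2
    have h3 : IsUnit (j a) := hju ⟨a, h2⟩
    rw [← h1] at h3
    exact isUnit_of_mul_isUnit_left h3

end loc

section sys

/-- **the ring of the values of the characters** -/
theorem exists_sys (p : ℕ) [hp : Fact p.Prime] (k K : Type) [Field k] [Fintype k] [CharP k p]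
    [Field K] [Algebra k K] [IsAlgClosed K] [Algebra.IsAlgebraic k K]
    {n : ℕ} (hn0 : 0 < n) (hn : n ∣ Fintype.card k - 1) (χ : MulChar k ℂ) (hχ : orderOf χ = n)
    {j M : ℕ} (hj : j.Coprime n) (hM0 : 0 < M) (hM : n * M = j * (Fintype.card k - 1)) :
    ∃ (R : Type) (_ : CommRing R) (_ : IsDomain R) (_ : CharZero R) (S : Sys p R K) (ι : R →+* ℂ),
      Function.Injective ι ∧
      (∀ (ζ : ℂ) (e : ℕ), 0 < e → ¬ p ∣ e → ζ ^ e = 1 → ∃ x, x ≠ 0 ∧ ι (S.τ x) = ζ) ∧
      (∀ (z : ℂ), IsIntegral ℤ z → ∃ r : R, ι r = z) ∧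
      ∀ u : k, χ u = ι (S.w (algebraMap k K) u ^ M) := by
  classical
  have hpK : CharP K p := charP_of_injective_algebraMap (algebraMap k K).injective p
  have hcard : 1 < Fintype.card k := Fintype.one_lt_card
  -- the generator
  obtain ⟨g, hg⟩ := IsCyclic.exists_generator (α := kˣ)
  have hξ : IsPrimitiveRoot (χ (g : k)) n := prim_of_order χ hn0 hχ hg
  have hgo : orderOf g = Fintype.card k - 1 := by
    rw [orderOf_eq_card_of_forall_mem_zpowers hg, Nat.card_eq_fintype_card, Fintype.card_units]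
  have hη : IsPrimitiveRoot (algebraMap k K (g : k) ^ M) n := by
    have h1 : IsPrimitiveRoot (algebraMap k K (g : k)) (Fintype.card k - 1) := by
      have h2 : IsPrimitiveRoot g (Fintype.card k - 1) := by
        rw [← hgo]
        exact IsPrimitiveRoot.orderOf g
      have h3 : IsPrimitiveRoot ((g : kˣ) : k) (Fintype.card k - 1) :=
        IsPrimitiveRoot.coe_units_iff.2 h2
      exact h3.map_of_injective (algebraMap k K).injective
    obtain ⟨c, hc⟩ := hn
    have hc0 : 0 < c := by
      rcases Nat.eq_zero_or_pos c with h | h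
      · rw [h, mul_zero] at hc
        omega
      · exact h
    have hMc : M = c * j := by
      rw [hc] at hM
      have h4 : n * M = n * (c * j) := by rw [hM]; ring
      exact Nat.eq_of_mul_eq_mul_left hn0 h4
    have h5 : IsPrimitiveRoot (algebraMap k K (g : k) ^ c) n :=
      h1.pow (by omega) (by rw [hc, mul_comm])
    rw [hMc, pow_mul]
    exact h5.pow_of_coprime j hj
  have hξint : IsIntegral ℤ (χ (g : k)) := hξ.isIntegral hn0
  let ξ : AI := ⟨χ (g : k), hξint⟩
  have hξ' : IsPrimitiveRoot ξ n := by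
    have h1 : Function.Injective (algebraMap AI ℂ) := Subtype.val_injective
    exact IsPrimitiveRoot.of_map_of_injective (f := algebraMap AI ℂ) hξ h1
  obtain ⟨φ, hφ⟩ : ∃ φ : AI →+* K, φ ξ = algebraMap k K (g : k) ^ M := by
    let _ : Algebra (CR n) AI := (evR hn0 hξ').toAlgebra
    have hinj : Function.Injective (algebraMap (CR n) AI) := evR_inj hn0 hξ'
    have hint : Algebra.IsIntegral (CR n) AI := by
      constructor
      intro x
      obtain ⟨P, hP1, hP2⟩ : IsIntegral ℤ x := Algebra.IsIntegral.isIntegral x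
      refine ⟨P.map (Int.castRingHom (CR n)), hP1.map _, ?_⟩
      rw [eval₂_map, ← hP2]
      congr 1
      exact RingHom.ext_int _ _
    obtain ⟨φ, h1⟩ := exists_ext hinj (evR hn0 hη)
    refine ⟨φ, ?_⟩
    have h2 := h1 (AdjoinRoot.root _)
    rw [evR_root] at h2
    rw [← h2]
    congr 1
    exact (evR_root hn0 hξ').symm
  obtain ⟨R, i1, i2, π, ι, jj, hι, hu, hπj, hιj⟩ := exists_loc φ
  have i3 : CharZero R := ι.charZero
  have hprim : ∀ e : ℕ, 0 < e → ∃ r : R, IsPrimitiveRoot r e := by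
    intro e he
    have h1 := Complex.isPrimitiveRoot_exp e he.ne'
    refine ⟨jj ⟨_, h1.isIntegral he⟩, ?_⟩
    refine IsPrimitiveRoot.of_map_of_injective (f := ι) ?_ hι
    rw [hιj]
    exact h1
  obtain ⟨τ, hτ, hτT⟩ := exists_teich (p := p) (k := k) π hprim
  obtain ⟨ζ, hζ⟩ := hprim p hp.out.pos
  let S : Sys p R K := ⟨π, hu, τ, hτ, ζ, hζ⟩
  refine ⟨R, i1, i2, i3, S, ι, hι, ?_, fun z hz => ⟨jj ⟨z, hz⟩, hιj _⟩, ?_⟩
  · intro z e he hpe hz
    have hzint : IsIntegral ℤ z := by
      refine IsIntegral.of_pow he ?_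
      rw [hz]
      exact isIntegral_one
    let r : R := jj ⟨z, hzint⟩
    have hr : ι r = z := hιj _
    have hrT : IsT p r := ⟨e, he, hpe, hι (by rw [map_pow, hr, hz, map_one])⟩
    have hx : π r ≠ 0 := by
      intro h
      have h1 := congrArg ι (hrT.choose_spec.2.2)
      obtain ⟨e', he', -, h2⟩ := hrT
      have h3 := congrArg π h2
      rw [map_pow, h, zero_pow he'.ne', map_one] at h3
      exact zero_ne_one h3
    refine ⟨π r, hx, ?_⟩
    rw [← hr]
    congr 1
    exact isT_uniq π (hτT _ hx) hrT (hτ _)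
  · let χ₂ : MulChar k ℂ := ((S.wc (algebraMap k K)) ^ M).ringHomComp ι
    have h1 : χ = χ₂ := by
      rw [MulChar.eq_iff hg]
      show χ (g : k) = ι (((S.wc (algebraMap k K)) ^ M) (g : k))
      rw [MulChar.pow_apply_coe]
      have h2 : S.wc (algebraMap k K) (g : k) ^ M = jj ξ := by
        have hgne : algebraMap k K (g : k) ≠ 0 :=
          (_root_.map_ne_zero _).2 g.ne_zero
        refine isT_uniq (p := p) π (isT_pow (hτT _ hgne) M) ?_ ?_
        · refine ⟨n, hn0, ?_, ?_⟩
          · intro h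
            have h3 : p ∣ Fintype.card k - 1 := h.trans hn
            have h4 : p ∣ Fintype.card k := by
              rw [← CharP.cast_eq_zero_iff k p]
              exact FiniteField.cast_card_eq_zero k
            have h5 := (Nat.dvd_sub_iff_right hcard.le h4).1 h3
            exact hp.out.one_lt.ne' (Nat.dvd_one.1 h5)
          · rw [← map_pow, hξ'.pow_eq_one, map_one]
        · rw [hπj, hφ, map_pow]
          congr 1
          exact hτ _
      rw [h2, hιj]
    intro u
    rw [h1]
    show ι (((S.wc (algebraMap k K)) ^ M) u) = _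
    rw [MulChar.pow_apply' _ hM0.ne']
    rfl

end sys

end Pool.Agent.K4H5.BC
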