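import Pool.Agent.K4H5.BC.Bound
import Pool.Agent.K4H5.BC.SysEx
import Pool.Agent.Y709.Lay.MainL

/-!
The bound for the order of vanishing, over the complex numbers.
-/

set_option autoImplicit false
set_option linter.unusedSectionVars false

open Polynomial Module

namespace Pool.Agent.K4H5.BC

open Pool.Agent.W313.Hyp Pool.Agent.W343.BSD Pool.Agent.Y709 Pool.Agent.Y709.Gen
  Pool.Agent.Y709.Lay

section digits

/-- the remainders -/
def rem (p F₀ n j i : ℕ) : ℕ := (p ^ ((F₀ - 1) * i) * j) % n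

/-- the digits -/
def dig (p F₀ n j i : ℕ) : ℕ := p * rem p F₀ n j (i + 1) / n

variable {p F₀ n j : ℕ}

theorem pow_modEq (hp : 0 < p) (hn : n ∣ p ^ F₀ - 1) : p ^ F₀ ≡ 1 [MOD n] := by
  have h1 : 1 ≤ p ^ F₀ := Nat.one_le_pow _ _ hp
  exact ((Nat.modEq_iff_dvd' h1).2 hn).symm

theorem rem_succ (hp : 0 < p) (hF₀ : 0 < F₀) (hn : n ∣ p ^ F₀ - 1) (i : ℕ) :
    (p * rem p F₀ n j (i + 1)) % n = rem p F₀ n j i := by
  unfold rem
  have h1 : p * (p ^ ((F₀ - 1) * (i + 1)) * j % n) ≡ p * (p ^ ((F₀ - 1) * (i + 1)) * j) [MOD n] :=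
    Nat.ModEq.mul_left _ (Nat.mod_modEq _ _)
  have h2 : p * (p ^ ((F₀ - 1) * (i + 1)) * j) = p ^ F₀ * (p ^ ((F₀ - 1) * i) * j) := by
    have e : (F₀ - 1) * (i + 1) + 1 = F₀ + (F₀ - 1) * i := by
      obtain ⟨c, rfl⟩ : ∃ c, F₀ = c + 1 := ⟨F₀ - 1, by omega⟩
      rw [Nat.add_sub_cancel]
      ring
    calc p * (p ^ ((F₀ - 1) * (i + 1)) * j) = p ^ ((F₀ - 1) * (i + 1) + 1) * j := by
          rw [pow_succ]; ring
      _ = _ := by rw [e, pow_add]; ring
  have h3 : p ^ F₀ * (p ^ ((F₀ - 1) * i) * j) ≡ 1 * (p ^ ((F₀ - 1) * i) * j) [MOD n] :=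
    Nat.ModEq.mul_right _ (pow_modEq hp hn)
  rw [one_mul] at h3
  rw [h2] at h1
  exact h1.trans h3

theorem rem_per (hp : 0 < p) (hn : n ∣ p ^ F₀ - 1) (i : ℕ) :
    rem p F₀ n j (i + F₀) = rem p F₀ n j i := by
  unfold rem
  have h2 : p ^ ((F₀ - 1) * (i + F₀)) * j = (p ^ F₀) ^ (F₀ - 1) * (p ^ ((F₀ - 1) * i) * j) := by
    rw [← pow_mul, mul_add, pow_add, mul_comm F₀ (F₀ - 1)]
    ring
  rw [h2]
  have h3 : (p ^ F₀) ^ (F₀ - 1) * (p ^ ((F₀ - 1) * i) * j) ≡
      1 ^ (F₀ - 1) * (p ^ ((F₀ - 1) * i) * j) [MOD n] :=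
    Nat.ModEq.mul_right _ ((pow_modEq hp hn).pow _)
  rw [one_pow, one_mul] at h3
  exact h3

theorem dig_per (hp : 0 < p) (hn : n ∣ p ^ F₀ - 1) (i : ℕ) :
    dig p F₀ n j (i + F₀) = dig p F₀ n j i := by
  unfold dig
  have e : i + F₀ + 1 = i + 1 + F₀ := by ring
  rw [e, rem_per hp hn]

theorem dig_eq (hp : 0 < p) (hF₀ : 0 < F₀) (hn : n ∣ p ^ F₀ - 1) (i : ℕ) :
    n * dig p F₀ n j i + rem p F₀ n j i = p * rem p F₀ n j (i + 1) := by
  unfold dig
  rw [← rem_succ hp hF₀ hn i]
  exact Nat.div_add_mod _ _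

theorem rot_dig (hp : 0 < p) (hF₀ : 0 < F₀) (hn : n ∣ p ^ F₀ - 1) (i : ℕ) :
    n * rot p F₀ (dig p F₀ n j) i = rem p F₀ n j i * (p ^ F₀ - 1) := by
  have key : ∀ L : ℕ, n * (∑ l ∈ Finset.range L, dig p F₀ n j (i + l) * p ^ l) +
      rem p F₀ n j i = p ^ L * rem p F₀ n j (i + L) := by
    intro L
    induction L with
    | zero => simp
    | succ L ih =>
      rw [Finset.sum_range_succ]
      have h1 := dig_eq (j := j) hp hF₀ hn (i + L)
      have e : i + (L + 1) = i + L + 1 := by ring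
      rw [e, pow_succ]
      calc n * (∑ l ∈ Finset.range L, dig p F₀ n j (i + l) * p ^ l +
            dig p F₀ n j (i + L) * p ^ L) + rem p F₀ n j i
          = (n * (∑ l ∈ Finset.range L, dig p F₀ n j (i + l) * p ^ l) + rem p F₀ n j i) +
            n * dig p F₀ n j (i + L) * p ^ L := by ring
        _ = p ^ L * (n * dig p F₀ n j (i + L) + rem p F₀ n j (i + L)) := by rw [ih]; ring
        _ = _ := by rw [h1]; ring
  have h1 := key F₀
  rw [rem_per hp hn] at h1
  unfold rot
  have h2 : 1 ≤ p ^ F₀ := Nat.one_le_pow _ _ hp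
  rw [Nat.mul_sub, mul_one, mul_comm _ (p ^ F₀)]
  omega

end digits

section count

variable {K : Type} [Field K]

theorem sum_rootMult_le [DecidableEq K] (f : K[X]) (T : Finset K) :
    ∑ y ∈ T, f.rootMultiplicity y ≤ f.natDegree := by
  have h1 : ∑ y ∈ T, f.rootMultiplicity y ≤ ∑ y ∈ T ∪ f.roots.toFinset, f.roots.count y := by
    simp only [count_roots]
    exact Finset.sum_le_sum_of_subset Finset.subset_union_left
  have h2 : ∑ y ∈ T ∪ f.roots.toFinset, f.roots.count y =
      ∑ y ∈ f.roots.toFinset, f.roots.count y := by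
    symm
    refine Finset.sum_subset Finset.subset_union_right ?_
    intro y _ hy
    rw [Multiset.mem_toFinset] at hy
    exact Multiset.count_eq_zero.2 hy
  rw [h2, Multiset.toFinset_sum_count_eq] at h1
  exact h1.trans (card_roots' f)

end count

section map

variable {k : Type} [Field k] {O : Type} [CommRing O] [Algebra k[X] O] {R : Type} [CommRing R]
  [Finite k] (G : Type) [Group G] [Finite G] [MulSemiringAction G O] [IsGaloisGroup G k[X] O]

include G in
theorem map_LB {A : Type} [CommRing A] (ι : R →+* A) (χ : MulChar k R) (χ' : MulChar k A)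
    (h : ∀ u, χ' u = ι (χ u)) (f : k[X][X]) :
    PowerSeries.map ι (LB O χ f) = LB O χ' f := by
  unfold LB
  rw [map_eulerProd (cover_finite G)]
  congr 1
  funext z
  rw [map_sub, map_one, map_mul, map_pow, PowerSeries.map_X, PowerSeries.map_C, h]

end map

section fac

variable {K : Type} [Field K]

theorem fac_eq (s : Multiset ℂ) (x : ℂ → K) (hx : ∀ z ∈ s, x z ≠ 0) :
    (s.map (fun z => (1 - C (x z) * X : K[X]))).prod =
      C ((s.map fun z => -x z).prod) * ((s.map fun z => (x z)⁻¹).map fun y => X - C y).prod := by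
  induction s using Multiset.induction_on with
  | empty => simp
  | cons z s ih =>
    rw [Multiset.map_cons, Multiset.prod_cons, ih fun w hw => hx w (Multiset.mem_cons_of_mem hw),
      Multiset.map_cons, Multiset.prod_cons, Multiset.map_cons, Multiset.map_cons,
      Multiset.prod_cons, C_mul]
    have hz := hx z (Multiset.mem_cons_self z s)
    have hlin : (1 - C (x z) * X : K[X]) = C (-x z) * (X - C (x z)⁻¹) := by
      rw [mul_sub, ← C_mul, neg_mul, mul_inv_cancel₀ hz, C_neg, C_neg, C_1]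
      ring
    rw [hlin]
    ring

theorem fac_facts [DecidableEq K] (s : Multiset ℂ) (x : ℂ → K) (hx : ∀ z ∈ s, x z ≠ 0) :
    ((s.map (fun z => (1 - C (x z) * X : K[X]))).prod).natDegree = Multiset.card s ∧
      ∀ y, ((s.map (fun z => (1 - C (x z) * X : K[X]))).prod).rootMultiplicity y =
        (s.map fun z => (x z)⁻¹).count y := by
  have h0 : (s.map fun z => -x z).prod ≠ 0 := by
    rw [Ne, Multiset.prod_eq_zero_iff, Multiset.mem_map]
    rintro ⟨z, hz, h⟩
    exact hx z hz (neg_eq_zero.1 h)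
  rw [fac_eq s x hx]
  constructor
  · rw [natDegree_C_mul h0, natDegree_multiset_prod_X_sub_C_eq_card, Multiset.card_map]
  · intro y
    rw [← count_roots, roots_C_mul _ h0, roots_multiset_prod_X_sub_C]

end fac

section twist

variable {k : Type} [Field k] [Finite k] {O : Type} [CommRing O] [Algebra k[X] O] {R : Type}
  [CommRing R] (G : Type) [Group G] [Finite G] [MulSemiringAction G O] [IsGaloisGroup G k[X] O]

include G in
theorem LB_C_mul (χ : MulChar k R) (u : k) (f : k[X][X]) :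
    LB O χ (C (C u) * f) = PowerSeries.rescale (χ u) (LB O χ f) := by
  unfold LB
  rw [rescale_euler (cover_finite (k := k) G)]
  congr 1
  funext z
  have hfd := finiteDim_RO (k := k) G z.1
  have h1 : (C (C u) * f).map (vO k z.1) = C (vO k z.1 (C u)) * f.map (vO k z.1) := by
    rw [Polynomial.map_mul, map_C]
  have h3 : ∀ a : R, PowerSeries.rescale (χ u) (PowerSeries.C a) = PowerSeries.C a := by
    intro a
    ext n
    rw [PowerSeries.coeff_rescale, PowerSeries.coeff_C]
    split_ifs with h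
    · rw [h, pow_zero, one_mul]
    · rw [mul_zero]
  have h4 : Algebra.norm k u = u := by
    rw [Algebra.norm_self]
    rfl
  rw [h1, norm_mk_C_mulL, h4, map_mul χ, map_pow χ, map_sub, map_one,
    map_mul (PowerSeries.rescale _), map_pow (PowerSeries.rescale _), PowerSeries.rescale_X, mul_pow,
    h3, map_mul, ← map_pow PowerSeries.C]
  ring

end twist

/-- **the bounds for the factors of the Euler product** -/
theorem main_bc (k : Type) [Field k] [Fintype k] (p : ℕ) [hp : Fact p.Prime] [CharP k p]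
    {n a δ β j : ℕ} (hn : n ∣ Fintype.card k - 1) (ha : 2 ≤ a) (hj0 : 0 < j) (hj : j.Coprime n)
    (hjn : j < n) (hij : ∀ i, a * ((p ^ i * j) % n) < n) (χ : MulChar k ℂ) (hχ : orderOf χ = n)
    (f : k[X][X]) (hf : f.natDegree ≤ a)
    (hfc : ∀ b : ℕ, (f.coeff b).natDegree ≤ δ * (a - b) + β) :
    ∃ μ : ℂ → ℕ, (∀ s : Finset ℂ, ∑ ζ ∈ s, μ ζ ≤
        δ * (a * (a - 1) / 2) + a * (β + (δ * a + β) * j / n)) ∧
      ∀ (G O : Type) [Group G] [Finite G] [CommRing O] [Algebra k[X] O] [MulSemiringAction G O]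
        [IsGaloisGroup G k[X] O] [FaithfulSMul k[X] O] (g : ℕ) (_ : Nat.card G = p ^ g) (B : k[X])
        (_ : B ≠ 0) (_ : ∀ 𝔪 : MaximalSpectrum O, vO k 𝔪 B ≠ 0 → 𝔪.asIdeal.inertia G = ⊥)
        (s : Multiset ℂ) (_ : ∀ z ∈ s, ∃ e : ℕ, 0 < e ∧ z ^ e = 1) (H : ℂ[X])
        (_ : LB O χ f = (((s.map fun z => 1 - C ((Fintype.card k : ℂ) * z) * X).prod * H : ℂ[X]) :
          PowerSeries ℂ)),
        (∀ (ζ : ℂ) (e : ℕ), 0 < e → ¬ p ∣ e → ζ ^ e = 1 →
          ∀ t ≤ s, (∀ z ∈ t, ∃ i : ℕ, z ^ p ^ i = ζ ^ p ^ i) → Multiset.card t ≤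
            Nat.card G * μ ζ +
              ∑ P ∈ divs B, defect O G P * ((a - 1) * p ^ padicValNat p P.1.natDegree)) ∧
        Multiset.card s ≤
          Nat.card G * (δ * (a * (a - 1) / 2) + a * (β + (δ * a + β) * j / n)) +
            ∑ P ∈ divs B, defect O G P * ((a - 1) * P.1.natDegree) := by
  classical
  have hp0 := hp.out.pos
  have hp1 := hp.out.one_lt
  have hn0 : 0 < n := by omega
  obtain ⟨⟨F₀, hF₀⟩, -, hF₀'⟩ := FiniteField.card k p
  have hk : Fintype.card k = p ^ F₀ := hF₀'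
  have hn' : n ∣ p ^ F₀ - 1 := by
    rw [← hk]
    exact hn
  set m : ℕ → ℕ := dig p F₀ n j with hmdef
  have hm : ∀ i, m (i + F₀) = m i := dig_per hp0 hn'
  have hq1 : 1 < p ^ F₀ := Nat.one_lt_pow hF₀.ne' hp1
  have hrot : ∀ i, n * rot p F₀ m i = rem p F₀ n j i * (p ^ F₀ - 1) := rot_dig hp0 hF₀ hn'
  have har : ∀ i, a * rot p F₀ m i < p ^ F₀ - 1 := by
    intro i
    have h1 : a * rem p F₀ n j i < n := hij _
    have h2 : n * (a * rot p F₀ m i) < n * (p ^ F₀ - 1) := by
      calc n * (a * rot p F₀ m i) = a * (n * rot p F₀ m i) := by ring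
        _ = (a * rem p F₀ n j i) * (p ^ F₀ - 1) := by rw [hrot]; ring
        _ < n * (p ^ F₀ - 1) := Nat.mul_lt_mul_of_pos_right h1 (by omega)
    exact Nat.lt_of_mul_lt_mul_left h2
  have hrem0 : rem p F₀ n j 0 = j := by
    unfold rem
    rw [mul_zero, pow_zero, one_mul, Nat.mod_eq_of_lt hjn]
  have hM : n * rot p F₀ m 0 = j * (p ^ F₀ - 1) := by rw [hrot, hrem0]
  have hM0 : 0 < rot p F₀ m 0 := by
    rcases Nat.eq_zero_or_pos (rot p F₀ m 0) with h | h
    · rw [h, mul_zero] at hM
      have : 0 < j * (p ^ F₀ - 1) := Nat.mul_pos hj0 (by omega)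
      omega
    · exact h
  have hKp : CharP (AlgebraicClosure k) p :=
    charP_of_injective_algebraMap (algebraMap k (AlgebraicClosure k)).injective p
  obtain ⟨R, i1, i2, i3, S, ι, hι, hroots, hint, hχι⟩ := exists_sys p k (AlgebraicClosure k) hn0 hn
    χ hχ hj hM0 (by rw [hk]; exact hM)
  let χR : MulChar k R := (S.wc (algebraMap k (AlgebraicClosure k))) ^ rot p F₀ m 0
  have hχR : ∀ u, χR u = S.w (algebraMap k (AlgebraicClosure k)) u ^ rot p F₀ m 0 := by
    intro u
    show ((S.wc (algebraMap k (AlgebraicClosure k))) ^ rot p F₀ m 0) u = _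
    rw [MulChar.pow_apply' _ hM0.ne']
    rfl
  set Δ : (AlgebraicClosure k)[X] := Del (AlgebraicClosure k) p F₀
    (fun b : Fin (a + 1) => f.coeff b) m δ β with hΔ
  have hΔdeg : Δ.natDegree ≤ δ * (a * (a - 1) / 2) + a * (β + (δ * a + β) * j / n) :=
    natDegree_Del hF₀ hn0 (har 0) hM (fun b => hfc b) _
  set P : ℂ → Prop := fun ζ => ∃ x, x ≠ 0 ∧ ι (S.τ x) = ζ with hP
  have hx : ∀ ζ : ℂ, ∃ x : AlgebraicClosure k, P ζ → x ≠ 0 ∧ ι (S.τ x) = ζ := by
    intro ζ
    by_cases h : P ζ
    · obtain ⟨x, hx⟩ := h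
      exact ⟨x, fun _ => hx⟩
    · exact ⟨0, fun h' => absurd h' h⟩
  choose x hx using hx
  refine ⟨fun ζ => if P ζ then Δ.rootMultiplicity (x ζ)⁻¹ else 0, ?_, ?_⟩
  · intro s
    refine le_trans ?_ hΔdeg
    rw [← Finset.sum_filter]
    have hinj : Set.InjOn (fun ζ => (x ζ)⁻¹) ((s.filter P : Finset ℂ) : Set ℂ) := by
      intro z hz z' hz' h
      have h1 := (hx z (Finset.mem_filter.1 (Finset.mem_coe.1 hz)).2).2
      have h2 := (hx z' (Finset.mem_filter.1 (Finset.mem_coe.1 hz')).2).2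
      have h3 : x z = x z' := inv_injective h
      rw [← h1, ← h2, h3]
    rw [← Finset.sum_image (f := fun y => Δ.rootMultiplicity y) hinj]
    exact sum_rootMult_le Δ _
  · intro G O _ _ _ _ _ _ _ g hG B hB hun s hs H hL
    set Q : R := (p : R) ^ F₀ with hQ
    have hQ0 : Q ≠ 0 := pow_ne_zero _ (Nat.cast_ne_zero.2 hp0.ne')
    have hιQ : ι Q = (Fintype.card k : ℂ) := by
      rw [hQ, map_pow, map_natCast, hk, Nat.cast_pow]
    -- the lifts of the roots of unity
    have hzz : ∀ z : ℂ, ∃ r : R, (∃ e : ℕ, 0 < e ∧ z ^ e = 1) → ι r = z := by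
      intro z
      by_cases h : ∃ e : ℕ, 0 < e ∧ z ^ e = 1
      · obtain ⟨e, he, hz⟩ := h
        obtain ⟨r, hr⟩ := hint z (IsIntegral.of_pow he (by rw [hz]; exact isIntegral_one))
        exact ⟨r, fun _ => hr⟩
      · exact ⟨0, fun h' => absurd h' h⟩
    choose zz hzz using hzz
    have hzz0 : ∀ z : ℂ, (∃ e : ℕ, 0 < e ∧ z ^ e = 1) → S.π (zz z) ≠ 0 := by
      intro z hz h
      have h1 := hzz z hz
      obtain ⟨e, he, h2⟩ := hz
      have h3 : zz z ^ e = 1 := hι (by rw [map_pow, h1, h2, map_one])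
      have h4 := congrArg S.π h3
      rw [map_pow, h, zero_pow he.ne', map_one] at h4
      exact zero_ne_one h4
    set Fac : R[X] := (s.map fun z => (1 - C (zz z) * X : R[X])).prod with hFac
    have hFac0 : PowerSeries.constantCoeff (Fac : PowerSeries R) = 1 := by
      rw [Polynomial.constantCoeff_coe, coeff_zero_eq_eval_zero, hFac, eval_multiset_prod,
        Multiset.map_map]
      refine Multiset.prod_eq_one ?_
      intro c hc
      rw [Multiset.mem_map] at hc
      obtain ⟨z, -, rfl⟩ := hc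
      simp
    have hFacι : PowerSeries.map ι (PowerSeries.rescale Q (Fac : PowerSeries R)) =
        (((s.map fun z => 1 - C ((Fintype.card k : ℂ) * z) * X).prod : ℂ[X]) :
          PowerSeries ℂ) := by
      have e1 : ∀ c : R, PowerSeries.rescale Q (PowerSeries.C c) = PowerSeries.C c := by
        intro c
        ext n
        rw [PowerSeries.coeff_rescale, PowerSeries.coeff_C]
        split_ifs with h
        · rw [h, pow_zero, one_mul]
        · rw [mul_zero]
      rw [hFac, ← Polynomial.coeToPowerSeries.ringHom_apply,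
        ← Polynomial.coeToPowerSeries.ringHom_apply, map_multiset_prod, map_multiset_prod,
        map_multiset_prod, map_multiset_prod, Multiset.map_map, Multiset.map_map, Multiset.map_map,
        Multiset.map_map]
      congr 1
      refine Multiset.map_congr rfl fun z hz => ?_
      simp only [Function.comp, Polynomial.coeToPowerSeries.ringHom_apply,
        Polynomial.coe_C, Polynomial.coe_X, map_sub,
        map_one, map_mul, e1, PowerSeries.rescale_X, PowerSeries.map_C, PowerSeries.map_X, hιQ,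
        hzz z (hs z hz)]
      ring
    have hroot := fun P : MI k => exists_root_MI (K := AlgebraicClosure k) P
    choose ρ hρ using hroot
    obtain ⟨LD, L1, hc, h1, -, -⟩ := global_bc S G hF₀ hk hm har ha hM0 χR hχR hG hf hfc ρ hρ B hB
      hun
    -- the quotient
    set W : PowerSeries R := L1 * PowerSeries.invOfUnit LD 1 *
      PowerSeries.invOfUnit (Fac : PowerSeries R) 1 with hW
    have hinv : LD * PowerSeries.invOfUnit LD 1 = 1 :=
      PowerSeries.mul_invOfUnit LD 1 (by rw [hc]; rfl)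
    have hinvF : (Fac : PowerSeries R) * PowerSeries.invOfUnit (Fac : PowerSeries R) 1 = 1 :=
      PowerSeries.mul_invOfUnit (Fac : PowerSeries R) 1 (by rw [hFac0]; rfl)
    have hWr : (Fac : PowerSeries R) * W * LD = L1 := by
      rw [hW]
      linear_combination (L1 * ((Fac : PowerSeries R) *
        PowerSeries.invOfUnit (Fac : PowerSeries R) 1)) * hinv + L1 * hinvF
    have hLD0 : PowerSeries.rescale Q LD ≠ 0 := by
      intro h
      have h2 := congrArg (PowerSeries.coeff 0) h
      rw [PowerSeries.coeff_rescale, pow_zero, one_mul,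
        PowerSeries.coeff_zero_eq_constantCoeff_apply, hc, map_zero] at h2
      exact one_ne_zero h2
    have hLB : LB O χR f = PowerSeries.rescale Q ((Fac : PowerSeries R) * W) := by
      apply mul_right_cancel₀ hLD0
      rw [h1, ← map_mul, hWr]
    have hmap := map_LB (O := O) G ι χR χ (fun u => by rw [hχι, hχR]) f
    have hWH : PowerSeries.map ι (PowerSeries.rescale Q W) = (H : PowerSeries ℂ) := by
      rw [hLB, map_mul, map_mul, hFacι, hL, Polynomial.coe_mul] at hmap
      refine mul_left_cancel₀ ?_ hmap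
      rw [← hFacι]
      intro h
      have h2 := congrArg (PowerSeries.coeff 0) h
      rw [PowerSeries.coeff_map, PowerSeries.coeff_rescale, pow_zero, one_mul,
        PowerSeries.coeff_zero_eq_constantCoeff_apply, hFac0, map_one, map_zero] at h2
      exact one_ne_zero h2
    have hW0 : ∀ i, H.natDegree < i → PowerSeries.coeff i W = 0 := by
      intro i hi
      have h2 := congrArg (PowerSeries.coeff i) hWH
      rw [PowerSeries.coeff_map, PowerSeries.coeff_rescale, Polynomial.coeff_coe,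
        coeff_eq_zero_of_natDegree_lt hi, map_eq_zero_iff ι hι] at h2
      exact (mul_eq_zero.1 h2).resolve_left (pow_ne_zero _ hQ0)
    have hWV : ((PowerSeries.trunc (H.natDegree + 1) W : R[X]) : PowerSeries R) = W := by
      ext n
      rw [Polynomial.coeff_coe, PowerSeries.coeff_trunc]
      split_ifs with h
      · rfl
      · rw [hW0 n (by omega)]
    obtain ⟨hord, hdeg⟩ := order_gen S G hF₀ hk hm har ha hM0 χR hχR hG hf hfc B hB hun Fac
      (PowerSeries.trunc (H.natDegree + 1) W) (by rw [hLB, Polynomial.coe_mul, hWV])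
    have hFπ : Fac.map S.π =
        (s.map fun z => (1 - C (S.π (zz z)) * X : (AlgebraicClosure k)[X])).prod := by
      rw [hFac, ← coe_mapRingHom, map_multiset_prod, Multiset.map_map]
      congr 1
      refine Multiset.map_congr rfl fun z hz => ?_
      simp only [Function.comp, map_sub, map_one, map_mul, coe_mapRingHom, map_C, map_X]
    obtain ⟨hfd, hfr⟩ := fac_facts s (fun z => S.π (zz z)) (fun z hz => hzz0 z (hs z hz))
    rw [← hFπ] at hfd hfr
    constructor
    · intro ζ e he hpe hζ t hts ht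
      have hPζ : P ζ := hroots ζ e he hpe hζ
      obtain ⟨hx0, hxζ⟩ := hx ζ hPζ
      dsimp only
      rw [if_pos hPζ]
      refine le_trans ?_ (hord (x ζ)⁻¹ (inv_ne_zero hx0))
      rw [hfr]
      have h2 : Multiset.card t ≤ (t.map fun z => (S.π (zz z))⁻¹).count (x ζ)⁻¹ := by
        have h3 : t.map (fun z => (S.π (zz z))⁻¹) = Multiset.replicate (Multiset.card t) (x ζ)⁻¹ := by
          rw [Multiset.eq_replicate]
          refine ⟨Multiset.card_map _ _, ?_⟩
          intro y hy
          rw [Multiset.mem_map] at hy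
          obtain ⟨z, hz, rfl⟩ := hy
          obtain ⟨i, hi⟩ := ht z hz
          have hzr := hzz z (hs z (Multiset.mem_of_le hts hz))
          have h4 : zz z ^ p ^ i = S.τ (x ζ) ^ p ^ i :=
            hι (by rw [map_pow, map_pow, hzr, hxζ, hi])
          have h5 := congrArg S.π h4
          rw [map_pow, map_pow, S.hτ] at h5
          congr 1
          have h6 : (S.π (zz z) - x ζ) ^ p ^ i = 0 := by
            rw [sub_pow_char_pow, h5, sub_self]
          exact sub_eq_zero.1 (pow_eq_zero_iff (pow_ne_zero i hp0.ne') |>.1 h6)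
        rw [h3, Multiset.count_replicate_self]
      exact h2.trans (Multiset.count_le_of_le _ (Multiset.map_le_map hts))
    · rw [← hfd]
      exact hdeg.trans (Nat.add_le_add_right (Nat.mul_le_mul_left _ hΔdeg) _)

end Pool.Agent.K4H5.BC
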