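import Pool.Agent.Y709.Gen.Psi
import Pool.Agent.Y709.Fib
import Pool.Agent.Y709.Trf
import Mathlib.RingTheory.Polynomial.Resultant.Basic
import Mathlib.FieldTheory.IsAlgClosed.AlgebraicClosure
import Mathlib.FieldTheory.Perfect

/-!
The Euler products of the fibres as sums over monic polynomials.
-/

set_option autoImplicit false
set_option linter.unusedSectionVars false

open Polynomial

namespace Pool.Agent.K4H5.BC

open Pool.Agent.W313.Hyp Pool.Agent.W343.BSD Pool.Agent.Y709 Pool.Agent.Y709.Gen

section norm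

variable {F : Type} [Field F] [Finite F]

/-- norms are resultants -/
theorem norm_mk (Q : MI F) (f : F[X]) :
    Algebra.norm F (AdjoinRoot.mk Q.1 f) = resultant Q.1 f := by
  classical
  have hirr : Fact (Irreducible Q.1) := ⟨Q.2.2⟩
  have hfd : FiniteDimensional F (AdjoinRoot Q.1) := Q.2.1.finite_adjoinRoot
  let E := AlgebraicClosure F
  apply (algebraMap F E).injective
  rw [Algebra.norm_eq_prod_embeddings F E (AdjoinRoot.mk Q.1 f), ← resultant_map_map]
  have h1 := resultant_eq_prod_eval (Q.1.map (algebraMap F E)) (f.map (algebraMap F E))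
    f.natDegree natDegree_map_le (IsAlgClosed.splits _)
  rw [natDegree_map, (Q.2.1.map _).leadingCoeff, one_pow, one_mul] at h1
  rw [h1]
  have hsep : (Q.1.map (algebraMap F E)).Separable :=
    (PerfectField.separable_of_irreducible Q.2.2).map
  have hnd : (Q.1.aroots E).Nodup := nodup_roots hsep
  have h2 : ∏ σ : AdjoinRoot Q.1 →ₐ[F] E, σ (AdjoinRoot.mk Q.1 f) =
      ∏ x : {x // x ∈ Q.1.aroots E}, (f.map (algebraMap F E)).eval x.1 := by
    refine Fintype.prod_equiv (AdjoinRoot.equiv E F Q.1 Q.2.1.ne_zero) _ _ fun σ => ?_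
    have h3 : ((AdjoinRoot.equiv E F Q.1 Q.2.1.ne_zero) σ).1 = σ (AdjoinRoot.root Q.1) := by
      rfl
    rw [h3, ← AdjoinRoot.aeval_eq, eval_map_algebraMap, aeval_algHom_apply]
  rw [h2]
  have h4 : ∀ (s : Multiset E), s.Nodup → ∏ x : {x // x ∈ s}, (f.map (algebraMap F E)).eval x.1 =
      (s.map (f.map (algebraMap F E)).eval).prod := by
    intro s hs
    have h5 : s = (s.toFinset).val := by
      rw [Multiset.toFinset_val, Multiset.dedup_eq_self.2 hs]
    conv_rhs => rw [h5]
    rw [← Finset.prod_eq_multiset_prod]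
    refine Finset.prod_bij (fun x _ => x.1) ?_ ?_ ?_ ?_
    · intro x _
      rw [Multiset.mem_toFinset]
      exact x.2
    · intro x _ y _ h
      exact Subtype.ext h
    · intro x hx
      rw [Multiset.mem_toFinset] at hx
      exact ⟨⟨x, hx⟩, Finset.mem_univ _, rfl⟩
    · intro x _
      rfl
  exact h4 _ hnd

end norm

section psi

variable {F : Type} [Field F] {R : Type} [CommRing R]

/-- the weight of a polynomial -/
noncomputable def psf (χ : MulChar F R) (f g : F[X]) : R := χ (resultant g f)

theorem psf_one (χ : MulChar F R) (f : F[X]) : psf χ f 1 = 1 := by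
  unfold psf
  rw [natDegree_one, resultant_zero_left_deg, coeff_one_zero, one_pow, map_one]

theorem psf_mul (χ : MulChar F R) (f : F[X]) (P : MI F) (g : F[X]) (hg : g.Monic) :
    psf χ f (P.1 * g) = psf χ f P.1 * psf χ f g := by
  unfold psf
  rw [← map_mul, P.2.1.natDegree_mul hg, resultant_mul_left _ _ _ _ le_rfl]

theorem fibG_eq' {k : Type} [Field k] [Algebra k F] [Finite F] [FiniteDimensional k F]
    (χ : MulChar k R) (f : F[X]) :
    fibG R χ f * PowerSeries.mk (monSum (psf (chiN F χ) f)) = 1 := by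
  rw [← euler_wt (psf_one (chiN F χ) f) (psf_mul (chiN F χ) f)]
  congr 1
  unfold fibG
  congr 1
  funext Q
  have hirr : Fact (Irreducible Q.1) := ⟨Q.2.2⟩
  have hfd : FiniteDimensional F (AdjoinRoot Q.1) := Q.2.1.finite_adjoinRoot
  rw [← Algebra.norm_norm (S := F), norm_mk]
  rfl

variable [Finite F] [IsDomain R]

/-- the sums over the monic polynomials of large degree vanish -/
theorem monSum_eq_zero {χ : MulChar F R} {f : F[X]} (hf : 0 < f.natDegree)
    (hχ : χ ^ f.natDegree ≠ 1) {d : ℕ} (hd : f.natDegree ≤ d) : monSum (psf χ f) d = 0 := by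
  classical
  set b := f.natDegree with hb
  have hf0 : f ≠ 0 := by
    rintro rfl
    rw [natDegree_zero] at hb
    omega
  obtain ⟨u, hu⟩ : ∃ u : Fˣ, (χ ^ b) u ≠ 1 := by
    by_contra h
    push Not at h
    apply hχ
    apply MulChar.ext
    intro v
    rw [h v, MulChar.one_apply_coe]
  set f1 : F[X] := C f.leadingCoeff⁻¹ * f with hf1
  have hlc : f.leadingCoeff ≠ 0 := leadingCoeff_ne_zero.2 hf0
  have hf1m : f1.Monic := by
    rw [hf1, Monic, leadingCoeff_mul, leadingCoeff_C, inv_mul_cancel₀ hlc]
  have hf1d : f1.natDegree = b := by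
    rw [hf1, natDegree_C_mul (inv_ne_zero hlc)]
  set Y : F[X] := f1 * X ^ (d - b) with hY
  have hYm : Y.Monic := hf1m.mul (monic_X_pow _)
  have hYd : Y.natDegree = d := by
    rw [hY, hf1m.natDegree_mul (monic_X_pow _), hf1d, natDegree_X_pow]
    omega
  -- the map
  have hmap : ∀ (v : F) (g : F[X]), g.Monic → g.natDegree = d →
      (C v * g + C (1 - v) * Y).Monic ∧ (C v * g + C (1 - v) * Y).natDegree = d := by
    intro v g hg hgd
    have h1 : (C v * g + C (1 - v) * Y).natDegree ≤ d := by
      refine (natDegree_add_le _ _).trans (max_le ?_ ?_)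
      · exact (natDegree_C_mul_le _ _).trans hgd.le
      · exact (natDegree_C_mul_le _ _).trans hYd.le
    have h2 : (C v * g + C (1 - v) * Y).coeff d = 1 := by
      have e1 : g.coeff d = 1 := by rw [← hgd]; exact hg.coeff_natDegree
      have e2 : Y.coeff d = 1 := by rw [← hYd]; exact hYm.coeff_natDegree
      rw [coeff_add, coeff_C_mul, coeff_C_mul, e1, e2]
      ring
    refine ⟨monic_of_natDegree_le_of_coeff_eq_one d h1 h2, le_antisymm h1 ?_⟩
    apply le_natDegree_of_ne_zero
    rw [h2]
    exact one_ne_zero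
  have hres : ∀ (v : F) (g : F[X]), g.natDegree = d →
      resultant (C v * g + C (1 - v) * Y) f d b = v ^ b * resultant g f d b := by
    intro v g hgd
    have e1 : C v * g + C (1 - v) * Y =
        C v * g + f * (C ((1 - v) * f.leadingCoeff⁻¹) * X ^ (d - b)) := by
      rw [hY, hf1, C_mul]
      ring
    rw [e1, resultant_add_mul_left _ _ _ _ _ ?_ hb.symm.le, resultant_C_mul_left]
    have := natDegree_C_mul_X_pow_le ((1 - v) * f.leadingCoeff⁻¹) (d - b)
    omega
  have hpsf : ∀ g : F[X], g.Monic → g.natDegree = d →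
      psf χ f (C (u : F) * g + C (1 - (u : F)) * Y) = (χ ^ b) u * psf χ f g := by
    intro g hg hgd
    unfold psf
    rw [(hmap u g hg hgd).2, hgd, hres _ _ hgd, map_mul, map_pow, MulChar.pow_apply_coe]
  set s := (finite_mon (F := F) d).toFinset with hs
  have hmem : ∀ g, g ∈ s ↔ g.Monic ∧ g.natDegree = d := by
    intro g
    rw [hs, Set.Finite.mem_toFinset]
    rfl
  have h1 : monSum (psf χ f) d = (χ ^ b) u * monSum (psf χ f) d := by
    unfold monSum
    rw [Finset.mul_sum]
    symm
    refine Finset.sum_bij' (fun g _ => C (u : F) * g + C (1 - (u : F)) * Y)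
      (fun g _ => C ((u : F)⁻¹) * g + C (1 - (u : F)⁻¹) * Y) ?_ ?_ ?_ ?_ ?_
    · intro g hg
      rw [← hs, hmem] at hg ⊢
      exact hmap _ _ hg.1 hg.2
    · intro g hg
      rw [← hs, hmem] at hg ⊢
      exact hmap _ _ hg.1 hg.2
    · intro g _
      have e : C ((u : F)⁻¹) * C (u : F) = 1 := by
        rw [← C_mul, inv_mul_cancel₀ u.ne_zero, C_1]
      rw [C_sub, C_sub, C_1]
      linear_combination (g - Y) * e
    · intro g _
      have e : C ((u : F)⁻¹) * C (u : F) = 1 := by
        rw [← C_mul, inv_mul_cancel₀ u.ne_zero, C_1]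
      rw [C_sub, C_sub, C_1]
      linear_combination (g - Y) * e
    · intro g hg
      rw [← hs, hmem] at hg
      exact (hpsf g hg.1 hg.2).symm
  have h3 : (1 - (χ ^ b) u) * monSum (psf χ f) d = 0 := by
    rw [sub_mul, one_mul, ← h1, sub_self]
  rcases mul_eq_zero.1 h3 with h | h
  · exact absurd (sub_eq_zero.1 h).symm hu
  · exact h

/-- the sums for a constant polynomial -/
theorem monSum_const (χ : MulChar F R) (c : F) (d : ℕ) :
    monSum (psf χ (C c)) d = ((Nat.card F : R) * χ c) ^ d := by
  have h1 : ∀ g ∈ (finite_mon (F := F) d).toFinset, psf χ (C c) g = χ c ^ d := by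
    intro g hg
    rw [Set.Finite.mem_toFinset] at hg
    unfold psf
    rw [natDegree_C, resultant_C_zero_right, map_pow]
    congr 1
    exact hg.2
  unfold monSum
  rw [Finset.sum_congr rfl h1, Finset.sum_const, nsmul_eq_mul, mul_pow]
  congr 1
  have h2 : (finite_mon (F := F) d).toFinset.card = Nat.card (Mon F d) := by
    rw [← Set.ncard_eq_toFinset_card _ (finite_mon d)]
    exact (Nat.card_coe_set_eq _).symm
  rw [h2, card_mon, Nat.cast_pow]

end psi

end Pool.Agent.K4H5.BC
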