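import Mathlib.NumberTheory.JacobiSum.Basic
import Mathlib.NumberTheory.GaussSum
import Mathlib.FieldTheory.Finite.Trace
import Mathlib.FieldTheory.Finite.Basic
import Mathlib.Data.Nat.Digits.Defs
import Mathlib.Tactic.LinearCombination

/-!
The congruence of Stickelberger for Gauss sums over a finite field, in a domain with roots of unity.
-/

set_option autoImplicit false
set_option linter.unusedSectionVars false

open Finset

namespace Pool.Agent.K4H5.BC

/-- a ring with a residue map to a field of characteristic `p`, Teichmüller representatives and a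
primitive `p`-th root of unity -/
structure Sys (p : ℕ) (R K : Type) [CommRing R] [Field K] where
  π : R →+* K
  hu : ∀ r : R, π r ≠ 0 → IsUnit r
  τ : K →*₀ R
  hτ : ∀ a, π (τ a) = a
  ζ : R
  hζ : IsPrimitiveRoot ζ p

variable {p : ℕ} [hp : Fact p.Prime] {R K : Type} [CommRing R] [IsDomain R] [CharZero R] [Field K]
  [CharP K p] (S : Sys p R K) {F : Type} [Field F] [Fintype F] (σ : F →+* K)

theorem Sys.inj : Function.Injective S.τ := fun a b h => by
  rw [← S.hτ a, ← S.hτ b, h]

/-- the Teichmüller representative -/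
def Sys.w (u : F) : R := S.τ (σ u)

theorem Sys.w_mul (u v : F) : S.w σ (u * v) = S.w σ u * S.w σ v := by
  unfold Sys.w
  rw [map_mul, map_mul]

theorem Sys.w_zero : S.w σ (0 : F) = 0 := by
  unfold Sys.w
  rw [map_zero, map_zero]

theorem Sys.w_one : S.w σ (1 : F) = 1 := by
  unfold Sys.w
  rw [map_one, map_one]

theorem Sys.w_pow (u : F) (n : ℕ) : S.w σ (u ^ n) = S.w σ u ^ n := by
  unfold Sys.w
  rw [map_pow, map_pow]

theorem Sys.π_w (u : F) : S.π (S.w σ u) = σ u := S.hτ _

theorem Sys.w_inj {u v : F} (h : S.w σ u = S.w σ v) : u = v := σ.injective (S.inj h)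

theorem Sys.w_ne {u : F} (h : u ≠ 0) : S.w σ u ≠ 0 := by
  intro h0
  exact h (S.w_inj σ (h0.trans (S.w_zero σ).symm))

/-- the Teichmüller character as a monoid homomorphism -/
def Sys.wm : F →* R where
  toFun := S.w σ
  map_one' := S.w_one σ
  map_mul' := S.w_mul σ

/-- the Teichmüller character -/
noncomputable def Sys.wc : MulChar F R :=
  MulChar.mk (S.wm σ) (by
    intro a ha
    have h0 : a = 0 := by
      by_contra h
      exact ha (isUnit_iff_ne_zero.2 h)
    show S.w σ a = 0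
    rw [h0, S.w_zero])

theorem Sys.wc_apply (a : F) : S.wc σ a = S.w σ a := rfl

theorem Sys.w_card (a : F) (ha : a ≠ 0) : S.w σ a ^ (Fintype.card F - 1) = 1 := by
  rw [← S.w_pow, FiniteField.pow_card_sub_one_eq_one a ha, S.w_one]

/-- the powers of the inverse of the Teichmüller character -/
theorem Sys.inv_pow_apply {k : ℕ} (hk : k < Fintype.card F - 1) (a : F) :
    ((S.wc σ)⁻¹ ^ k) a = S.w σ a ^ (Fintype.card F - 1 - k) := by
  by_cases ha : a = 0
  · subst ha
    rw [MulChar.map_zero, S.w_zero, zero_pow (by omega)]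
  · have h1 : ((S.wc σ)⁻¹ ^ k) a * S.w σ a ^ k = 1 := by
      have h2 : ((S.wc σ)⁻¹ ^ k) a * ((S.wc σ) ^ k) a = 1 := by
        rw [← MulChar.mul_apply, ← mul_pow, inv_mul_cancel, one_pow,
          MulChar.one_apply (isUnit_iff_ne_zero.2 ha)]
      have h3 : ((S.wc σ) ^ k) a = S.w σ a ^ k := by
        rcases Nat.eq_zero_or_pos k with h | h
        · rw [h, pow_zero, pow_zero, MulChar.one_apply (isUnit_iff_ne_zero.2 ha)]
        · rw [MulChar.pow_apply' _ h.ne', S.wc_apply]
      rwa [h3] at h2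
    have h4 : S.w σ a ^ (Fintype.card F - 1 - k) * S.w σ a ^ k = 1 := by
      rw [← pow_add, Nat.sub_add_cancel hk.le, S.w_card σ a ha]
    exact mul_right_cancel₀ (pow_ne_zero k (S.w_ne σ ha)) (h1.trans h4.symm)

section add

variable [CharP F p]

/-- the additive character -/
noncomputable def Sys.ψ (F : Type) [Field F] [Fintype F] [CharP F p] : AddChar F R :=
  let _ : Algebra (ZMod p) F := ZMod.algebra F p
  (AddChar.zmodChar p S.hζ.pow_eq_one).compAddMonoidHom
    (Algebra.trace (ZMod p) F).toAddMonoidHom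

theorem Sys.ψ_apply (y : F) : S.ψ F y =
    letI : Algebra (ZMod p) F := ZMod.algebra F p
    S.ζ ^ (Algebra.trace (ZMod p) F y).val := rfl

theorem Sys.π_ζ : S.π S.ζ = 1 := by
  have h1 : S.π S.ζ ^ p = 1 := by
    rw [← map_pow, S.hζ.pow_eq_one, map_one]
  have h2 : (S.π S.ζ - 1) ^ p = 0 := by
    rw [sub_pow_char, h1, one_pow, sub_self]
  exact sub_eq_zero.1 (pow_eq_zero_iff hp.out.ne_zero |>.1 h2)

theorem Sys.π_ψ (y : F) : S.π (S.ψ F y) = 1 := by
  rw [S.ψ_apply, map_pow, S.π_ζ, one_pow]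

theorem Sys.ψ_ne : S.ψ F ≠ 1 := by
  intro h
  let _ : Algebra (ZMod p) F := ZMod.algebra F p
  obtain ⟨y, hy⟩ := Algebra.trace_surjective (ZMod p) F 1
  have h1 := S.ψ_apply (F := F) y
  rw [h, hy, AddChar.one_apply, ZMod.val_one, pow_one] at h1
  have h2 := S.hζ.ne_one hp.out.one_lt
  exact h2 h1.symm

theorem Sys.ψ_prim : (S.ψ F).IsPrimitive := AddChar.IsPrimitive.of_ne_one S.ψ_ne

theorem Sys.ψ_frob (y : F) : S.ψ F (y ^ p) = S.ψ F y := by
  rw [S.ψ_apply, S.ψ_apply]
  let _ : Algebra (ZMod p) F := ZMod.algebra F p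
  have h1 : Algebra.trace (ZMod p) F (y ^ p) = Algebra.trace (ZMod p) F y := by
    have h2 := Algebra.trace_eq_of_algEquiv (FiniteField.frobeniusAlgEquivOfAlgebraic (ZMod p) F) y
    rw [← h2]
    congr 1
    rw [FiniteField.coe_frobeniusAlgEquivOfAlgebraic]
    simp
  show S.ζ ^ (Algebra.trace (ZMod p) F (y ^ p)).val = S.ζ ^ (Algebra.trace (ZMod p) F y).val
  rw [h1]

end add

section sums

variable {F : Type} [Field F] [Fintype F]

theorem sum_inv (h : 2 < Fintype.card F) : ∑ x : F, (1 - x)⁻¹ = 0 := by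
  have h1 : ∑ x : F, (1 - x)⁻¹ = ∑ x : F, x ^ (Fintype.card F - 2) := by
    refine Fintype.sum_equiv (Equiv.subLeft 1) _ _ fun x => ?_
    rw [Equiv.subLeft_apply]
    by_cases hx : 1 - x = 0
    · rw [hx, inv_zero, zero_pow (by omega)]
    · rw [eq_comm]
      apply eq_inv_of_mul_eq_one_left
      rw [← pow_succ]
      have h2 : Fintype.card F - 2 + 1 = Fintype.card F - 1 := by omega
      rw [h2, FiniteField.pow_card_sub_one_eq_one _ hx]
  rw [h1, FiniteField.sum_pow_lt_card_sub_one]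
  omega

/-- the reduction of the Jacobi sums -/
theorem sum_jac {A : ℕ} (hA' : A ≤ Fintype.card F - 1) (h : 2 < Fintype.card F) :
    ∑ x : F, x ^ A * (1 - x) ^ (Fintype.card F - 2) = A := by
  classical
  have h1 : ∀ x : F, x ^ A * (1 - x) ^ (Fintype.card F - 2) =
      (1 - x)⁻¹ - ∑ i ∈ range A, x ^ i + if x = 1 then (A : F) else 0 := by
    intro x
    by_cases hx : x = 1
    · subst hx
      rw [if_pos rfl, sub_self, zero_pow (by omega), inv_zero, mul_zero]
      simp
    · have hx' : 1 - x ≠ 0 := sub_ne_zero.2 (Ne.symm hx)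
      rw [if_neg hx, add_zero]
      have h2 : (1 - x) ^ (Fintype.card F - 2) = (1 - x)⁻¹ := by
        apply eq_inv_of_mul_eq_one_left
        rw [← pow_succ]
        have h2 : Fintype.card F - 2 + 1 = Fintype.card F - 1 := by omega
        rw [h2, FiniteField.pow_card_sub_one_eq_one _ hx']
      rw [h2]
      have h3 := mul_neg_geom_sum x A
      field_simp
      linear_combination h3
  rw [sum_congr rfl fun x _ => h1 x, sum_add_distrib, sum_sub_distrib, sum_inv h, sum_comm,
    sum_eq_zero (s := range A), sum_ite_eq' univ (1 : F), if_pos (mem_univ _)]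
  · ring
  · intro i hi
    rw [mem_range] at hi
    exact FiniteField.sum_pow_lt_card_sub_one F i (by omega)

end sums

section gauss

variable [CharP F p] [DecidableEq F]

/-- the Gauss sum with a minus sign -/
noncomputable def Sys.G (k : ℕ) : R := -gaussSum ((S.wc σ)⁻¹ ^ k) (S.ψ F)

theorem Sys.G_zero : S.G σ 0 = 1 := by
  unfold Sys.G
  rw [pow_zero, gaussSum_one_left S.ψ_ne, neg_neg]

theorem Sys.G_frob (k : ℕ) : S.G σ (p * k) = S.G σ k := by
  have hbij : Function.Bijective (fun y : F => y ^ p) :=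
    Finite.injective_iff_bijective.1 (frobenius_inj F p)
  unfold Sys.G gaussSum
  rw [← hbij.sum_comp (fun y => ((S.wc σ)⁻¹ ^ k) y * S.ψ F y)]
  congr 1
  refine sum_congr rfl fun y _ => ?_
  rw [S.ψ_frob, map_pow, ← MulChar.pow_apply' _ hp.out.ne_zero, ← pow_mul, mul_comm p k]

omit [IsDomain R] [CharZero R] [CommRing R] hp [CharP K p] [CharP F p] [DecidableEq F] in
theorem card_cast (σ : F →+* K) : ((Fintype.card F : ℕ) : K) = 0 := by
  have h1 : ((Fintype.card F : ℕ) : F) = 0 := FiniteField.cast_card_eq_zero F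
  rw [← map_natCast σ, h1, map_zero]

theorem Sys.π_G_one (h : 2 < Fintype.card F) : S.π (S.G σ 1) = 0 := by
  unfold Sys.G gaussSum
  rw [map_neg, map_sum, neg_eq_zero]
  have h1 : ∀ x : F, S.π (((S.wc σ)⁻¹ ^ 1) x * S.ψ F x) = σ (x ^ (Fintype.card F - 2)) := by
    intro x
    rw [map_mul, S.π_ψ, mul_one, S.inv_pow_apply σ (by omega), map_pow, S.π_w, map_pow]
    congr 1
  rw [sum_congr rfl fun x _ => h1 x, ← map_sum, FiniteField.sum_pow_lt_card_sub_one F _ (by omega),
    map_zero]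

theorem Sys.π_jac {k : ℕ} (hk : k < Fintype.card F - 1) (h : 2 < Fintype.card F) :
    S.π (jacobiSum ((S.wc σ)⁻¹ ^ k) (S.wc σ)⁻¹) = -((k : K) + 1) := by
  unfold jacobiSum
  rw [map_sum]
  have h1 : ∀ x : F, S.π (((S.wc σ)⁻¹ ^ k) x * (S.wc σ)⁻¹ (1 - x)) =
      σ (x ^ (Fintype.card F - 1 - k) * (1 - x) ^ (Fintype.card F - 2)) := by
    intro x
    have h2 := S.inv_pow_apply σ (k := 1) (by omega) (1 - x)
    rw [pow_one] at h2
    have h3 : Fintype.card F - 2 = Fintype.card F - 1 - 1 := by omega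
    rw [S.inv_pow_apply σ hk, h2, map_mul, map_pow, map_pow, S.π_w, S.π_w, map_mul, map_pow,
      map_pow, h3]
  have h4 : ((Fintype.card F - 1 - k : ℕ) : K) = -((k : K) + 1) := by
    have h5 : ((Fintype.card F - 1 - k : ℕ) : K) + (k + 1 : ℕ) = ((Fintype.card F : ℕ) : K) := by
      rw [← Nat.cast_add]
      congr 1
      omega
    rw [card_cast σ] at h5
    push_cast at h5
    linear_combination h5
  rw [sum_congr rfl fun x _ => h1 x, ← map_sum, sum_jac (Nat.sub_le _ _) h, map_natCast, h4]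

theorem Sys.G_succ {k : ℕ} (hk : k + 1 < Fintype.card F - 1) (hkp : (k : K) + 1 ≠ 0) :
    ∃ u : R, S.G σ (k + 1) = S.G σ k * S.G σ 1 * u ∧ S.π u * ((k : K) + 1) = 1 := by
  have hF : 2 < Fintype.card F := by omega
  have hj := S.π_jac σ (k := k) (by omega) hF
  obtain ⟨v, hv⟩ := S.hu (jacobiSum ((S.wc σ)⁻¹ ^ k) (S.wc σ)⁻¹) (by
    rw [hj]
    exact neg_ne_zero.2 hkp)
  have hne : (S.wc σ)⁻¹ ^ k * (S.wc σ)⁻¹ ≠ 1 := by
    rw [← pow_succ]
    intro h1
    obtain ⟨g, hg⟩ := IsCyclic.exists_generator (α := Fˣ)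
    have h2 := congrArg (fun χ : MulChar F R => χ (g : F)) h1
    simp only [MulChar.one_apply_coe] at h2
    rw [S.inv_pow_apply σ hk, ← S.w_pow, ← S.w_one σ] at h2
    have h3 := S.w_inj σ h2
    have h4 : g ^ (Fintype.card F - 1 - (k + 1)) = 1 := by
      ext
      rw [Units.val_pow_eq_pow_val, h3, Units.val_one]
    have h5 := orderOf_dvd_of_pow_eq_one h4
    rw [orderOf_eq_card_of_forall_mem_zpowers hg, Nat.card_eq_fintype_card,
      Fintype.card_units] at h5
    have := Nat.le_of_dvd (by omega) h5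
    omega
  have h1 := jacobiSum_mul_nontrivial hne (S.ψ F)
  rw [← pow_succ] at h1
  refine ⟨-((v⁻¹ : Rˣ) : R), ?_, ?_⟩
  · have h2 : ((v⁻¹ : Rˣ) : R) * jacobiSum ((S.wc σ)⁻¹ ^ k) (S.wc σ)⁻¹ = 1 := by
      rw [← hv, Units.inv_mul]
    unfold Sys.G
    rw [pow_one]
    linear_combination (-((v⁻¹ : Rˣ) : R)) * h1 + gaussSum ((S.wc σ)⁻¹ ^ (k + 1)) (S.ψ F) * h2
  · have h2 : S.π ((v⁻¹ : Rˣ) : R) * S.π (jacobiSum ((S.wc σ)⁻¹ ^ k) (S.wc σ)⁻¹) = 1 := by
      rw [← map_mul, ← hv, Units.inv_mul, map_one]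
    rw [hj] at h2
    rw [map_neg]
    linear_combination h2

theorem Sys.G_last (h2 : (2 : K) ≠ 0) (hF : 2 < Fintype.card F) :
    S.G σ (Fintype.card F - 2) * S.G σ 1 = -(Fintype.card F : R) := by
  have hne : (S.wc σ)⁻¹ ≠ 1 := by
    intro h1
    obtain ⟨g, hg⟩ := IsCyclic.exists_generator (α := Fˣ)
    have h2 := congrArg (fun χ : MulChar F R => χ (g : F)) h1
    have h2' := S.inv_pow_apply σ (k := 1) (by omega) (g : F)
    rw [pow_one] at h2'
    simp only [MulChar.one_apply_coe] at h2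
    rw [h2', ← S.w_pow, ← S.w_one σ] at h2
    have h3 := S.w_inj σ h2
    have h4 : g ^ (Fintype.card F - 1 - 1) = 1 := by
      ext
      rw [Units.val_pow_eq_pow_val, h3, Units.val_one]
    have h5 := orderOf_dvd_of_pow_eq_one h4
    rw [orderOf_eq_card_of_forall_mem_zpowers hg, Nat.card_eq_fintype_card,
      Fintype.card_units] at h5
    have := Nat.le_of_dvd (by omega) h5
    omega
  have h3 := gaussSum_mul_gaussSum_eq_card hne (S.ψ_prim (F := F))
  have h4 : (S.wc σ)⁻¹ ^ (Fintype.card F - 2) = (S.wc σ) := by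
    apply MulChar.ext
    intro a
    rw [S.inv_pow_apply σ (by omega), S.wc_apply]
    have : Fintype.card F - 1 - (Fintype.card F - 2) = 1 := by omega
    rw [this, pow_one]
  have hm : S.w σ (-1) = -1 := by
    have h5 : S.w σ (-1) * S.w σ (-1) = 1 := by
      rw [← S.w_mul, neg_one_mul, neg_neg, S.w_one]
    have h6 : (S.w σ (-1) - 1) * (S.w σ (-1) + 1) = 0 := by linear_combination h5
    rcases mul_eq_zero.1 h6 with h | h
    · exfalso
      have h7 := congrArg S.π (sub_eq_zero.1 h)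
      rw [S.π_w, map_neg, map_one, map_one] at h7
      apply h2
      linear_combination -h7
    · linear_combination h
  have h5 := mul_gaussSum_inv_eq_gaussSum (S.wc σ) (S.ψ F)
  rw [inv_inv] at h3
  rw [S.wc_apply, hm] at h5
  unfold Sys.G
  rw [h4, pow_one]
  linear_combination -h3 - gaussSum ((S.wc σ)⁻¹) (S.ψ F) * h5

theorem Sys.stick_step {v d s : ℕ} {u : R} {e : K} (hd : d + 1 < p)
    (hv : d + 1 + p * v + 1 < Fintype.card F)
    (h1 : S.G σ (d + p * v) = S.G σ 1 ^ s * u) (h2 : S.π u * ((d.factorial : K) * e) = 1) :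
    ∃ u' : R, S.G σ (d + 1 + p * v) = S.G σ 1 ^ (s + 1) * u' ∧
      S.π u' * (((d + 1).factorial : K) * e) = 1 := by
  have h3 : ((d + p * v : ℕ) : K) + 1 = ((d + 1 : ℕ) : K) := by
    push_cast
    rw [CharP.cast_eq_zero K p]
    ring
  have h4 : ((d + p * v : ℕ) : K) + 1 ≠ 0 := by
    rw [h3, Ne, CharP.cast_eq_zero_iff K p]
    intro h
    have := Nat.le_of_dvd (by omega) h
    omega
  obtain ⟨u1, h5, h6⟩ := S.G_succ σ (k := d + p * v) (by omega) h4
  refine ⟨u * u1, ?_, ?_⟩
  · have e : d + 1 + p * v = d + p * v + 1 := by ring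
    rw [e, h5, h1]
    ring
  · rw [Nat.factorial_succ, map_mul, Nat.cast_mul, ← h3]
    linear_combination h2 * (S.π u1 * (((d + p * v : ℕ) : K) + 1)) + h6

theorem Sys.stickN (N : ℕ) (δ : Fin N → ℕ) (hδ : ∀ i, δ i < p)
    (h : (∑ i, δ i * p ^ (i : ℕ)) + 1 < Fintype.card F) :
    ∃ u : R, S.G σ (∑ i, δ i * p ^ (i : ℕ)) = S.G σ 1 ^ (∑ i, δ i) * u ∧
      S.π u * ∏ i, (((δ i).factorial : ℕ) : K) = 1 := by
  induction N with
  | zero =>
    refine ⟨1, ?_, ?_⟩
    · simp [S.G_zero]
    · simp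
  | succ N ih =>
    have e1 : ∑ i, δ i * p ^ (i : ℕ) = δ 0 + p * ∑ i : Fin N, δ i.succ * p ^ (i : ℕ) := by
      rw [Fin.sum_univ_succ, Finset.mul_sum]
      congr 1
      · simp
      · refine sum_congr rfl fun i _ => ?_
        rw [Fin.val_succ, pow_succ]
        ring
    rw [e1] at h ⊢
    rw [Fin.sum_univ_succ, Fin.prod_univ_succ]
    set v := ∑ i : Fin N, δ i.succ * p ^ (i : ℕ) with hv
    have hle : v ≤ p * v := Nat.le_mul_of_pos_left _ hp.out.pos
    obtain ⟨u0, h1, h2⟩ := ih (fun i => δ i.succ) (fun i => hδ _) (by omega)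
    have key : ∀ d : ℕ, d < p → d + p * v + 1 < Fintype.card F →
        ∃ u : R, S.G σ (d + p * v) = S.G σ 1 ^ (d + ∑ i : Fin N, δ i.succ) * u ∧
          S.π u * ((d.factorial : K) * ∏ i : Fin N, (((δ i.succ).factorial : ℕ) : K)) = 1 := by
      intro d
      induction d with
      | zero =>
        intro _ _
        refine ⟨u0, ?_, ?_⟩
        · rw [zero_add, S.G_frob, zero_add]
          exact h1
        · rw [Nat.factorial_zero, Nat.cast_one, one_mul]
          exact h2
      | succ d ihd =>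
        intro hd1 hd2
        obtain ⟨u, h3, h4⟩ := ihd (by omega) (by omega)
        obtain ⟨u', h5, h6⟩ := S.stick_step σ hd1 hd2 h3 h4
        refine ⟨u', ?_, h6⟩
        rw [h5]
        congr 2
        ring
    exact key (δ 0) (hδ 0) h

end gauss

section gam

variable [CharP F p] [DecidableEq F]

/-- the coefficients of the expansion of the additive character, times `1 - #F` -/
noncomputable def Sys.gam (k : ℕ) : R :=
  if k = 0 then 1 - (Fintype.card F : R) else
    if k = Fintype.card F - 1 then (Fintype.card F : R) else S.G σ k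

omit hp in
theorem geom_p {N : ℕ} (hp0 : 0 < p) : ∑ i : Fin N, (p - 1) * p ^ (i : ℕ) = p ^ N - 1 := by
  rw [Fin.sum_univ_eq_sum_range (fun i => (p - 1) * p ^ i), ← Finset.mul_sum]
  obtain ⟨r, rfl⟩ : ∃ r, p = r + 1 := ⟨p - 1, by omega⟩
  rw [Nat.add_sub_cancel]
  have h := Nat.geomSum_eq (m := r + 1)
  induction N with
  | zero => simp
  | succ N ih =>
    rw [Finset.sum_range_succ, mul_add, ih, pow_succ]
    have : 1 ≤ (r + 1) ^ N := Nat.one_le_pow _ _ hp0
    have e : (r + 1) ^ N * (r + 1) = r * (r + 1) ^ N + (r + 1) ^ N := by ring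
    omega

/-- **Stickelberger's congruence** -/
theorem Sys.stick (h2 : (2 : K) ≠ 0) {N : ℕ} (hN : 0 < N) (hF : Fintype.card F = p ^ N)
    (δ : Fin N → Fin p) :
    ∃ u : R, S.gam σ (∑ i, (δ i : ℕ) * p ^ (i : ℕ)) = S.G σ 1 ^ (∑ i, (δ i : ℕ)) * u ∧
      S.π u * ∏ i, (((δ i : ℕ).factorial : ℕ) : K) = 1 := by
  have hp1 := hp.out.one_lt
  have hp2 : 2 < p := by
    rcases Nat.lt_or_ge 2 p with h | h
    · exact h
    · exfalso
      have h3 : p = 2 := by omega
      apply h2
      have h4 := CharP.cast_eq_zero K p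
      rw [h3] at h4
      exact_mod_cast h4
  have hcard : 2 < Fintype.card F := by
    rw [hF]
    exact lt_of_lt_of_le hp2 (Nat.le_self_pow hN.ne' p)
  by_cases ht : ∀ i, (δ i : ℕ) = p - 1
  · -- the last coefficient
    have e1 : ∑ i, (δ i : ℕ) * p ^ (i : ℕ) = Fintype.card F - 1 := by
      rw [sum_congr rfl fun i _ => by rw [ht i], geom_p hp.out.pos, hF]
    obtain ⟨N, rfl⟩ : ∃ M, N = M + 1 := ⟨N - 1, by omega⟩
    set δ' : Fin (N + 1) → ℕ := Fin.cons (p - 2) (fun _ => p - 1) with hδ'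
    have e2 : ∑ i, δ' i * p ^ (i : ℕ) = Fintype.card F - 2 := by
      have h3 : ∑ i : Fin (N + 1), (p - 1) * p ^ (i : ℕ) = (∑ i, δ' i * p ^ (i : ℕ)) + 1 := by
        rw [Fin.sum_univ_succ, Fin.sum_univ_succ]
        simp only [hδ', Fin.cons_zero, Fin.cons_succ, Fin.val_zero, pow_zero, mul_one]
        omega
      rw [geom_p hp.out.pos, ← hF] at h3
      omega
    obtain ⟨u, h3, h4⟩ := S.stickN σ (N + 1) δ' (by
      intro i
      refine Fin.cases ?_ (fun j => ?_) i
      · show p - 2 < p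
        omega
      · show p - 1 < p
        omega) (by rw [e2]; omega)
    rw [e2] at h3
    have h5 := S.G_last σ h2 hcard
    refine ⟨-u, ?_, ?_⟩
    · have e3 : ∑ i, (δ i : ℕ) = (∑ i, δ' i) + 1 := by
        rw [sum_congr rfl fun i _ => ht i, Fin.sum_univ_succ, Fin.sum_univ_succ]
        simp only [hδ', Fin.cons_zero, Fin.cons_succ]
        omega
      unfold Sys.gam
      rw [e1, if_neg (by omega), if_pos rfl, e3, pow_succ]
      rw [h3] at h5
      linear_combination h5
    · rw [prod_congr rfl fun i _ => by rw [ht i], Fin.prod_univ_succ]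
      rw [Fin.prod_univ_succ] at h4
      simp only [hδ', Fin.cons_zero, Fin.cons_succ] at h4
      have e4 : (((p - 1).factorial : ℕ) : K) = -(((p - 2).factorial : ℕ) : K) := by
        have e5 : p - 1 = (p - 2) + 1 := by omega
        rw [e5, Nat.factorial_succ, Nat.cast_mul]
        have e6 : ((p - 2 + 1 : ℕ) : K) = -1 := by
          have e7 : ((p - 2 + 1 : ℕ) : K) + 1 = ((p : ℕ) : K) := by
            rw [← Nat.cast_succ]
            congr 1
            omega
          rw [CharP.cast_eq_zero K p] at e7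
          linear_combination e7
        rw [e6]
        ring
      rw [map_neg]
      rw [e4] at h4 ⊢
      linear_combination h4
  · push Not at ht
    obtain ⟨i₀, hi₀⟩ := ht
    have hlt : ∑ i, (δ i : ℕ) * p ^ (i : ℕ) < Fintype.card F - 1 := by
      rw [hF, ← geom_p (N := N) hp.out.pos]
      refine Finset.sum_lt_sum (fun i _ => Nat.mul_le_mul_right _ (by have := (δ i).2; omega))
        ⟨i₀, mem_univ _, ?_⟩
      exact Nat.mul_lt_mul_of_pos_right (by have := (δ i₀).2; omega) (pow_pos hp.out.pos _)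
    by_cases hz : ∑ i, (δ i : ℕ) * p ^ (i : ℕ) = 0
    · have hz' : ∀ i, (δ i : ℕ) = 0 := by
        intro i
        have h3 := (Finset.sum_eq_zero_iff.1 hz) i (mem_univ _)
        rcases Nat.mul_eq_zero.1 h3 with h | h
        · exact h
        · exact absurd h (pow_pos hp.out.pos _).ne'
      refine ⟨1 - (Fintype.card F : R), ?_, ?_⟩
      · unfold Sys.gam
        rw [if_pos hz, sum_congr rfl fun i _ => hz' i]
        simp
      · rw [prod_congr rfl fun i _ => by rw [hz' i]]
        rw [map_sub, map_one, map_natCast, card_cast σ]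
        simp
    · obtain ⟨u, h3, h4⟩ := S.stickN σ N (fun i => (δ i : ℕ)) (fun i => (δ i).2) (by omega)
      refine ⟨u, ?_, h4⟩
      unfold Sys.gam
      rw [if_neg hz, if_neg hlt.ne, h3]

end gam

end Pool.Agent.K4H5.BC
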