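import Pool.Agent.K4H5.BC.Lead
import Pool.Agent.Y709.Red

/-!
The leading term as a trace.
-/

set_option autoImplicit false
set_option linter.unusedSectionVars false

open Finset Polynomial

namespace Pool.Agent.K4H5.BC

open Pool.Agent.Y709

section pol

variable {A B : Type} [CommRing A] [CommRing B]

/-- the homogeneous part of degree `s` of the product of the truncated exponentials -/
noncomputable def Ep (p : ℕ) {a : ℕ} (s : ℕ) (inv : ℕ → A) (c : Fin (a + 1) → A) : A[X] :=
  ∑ v ∈ univ.filter (fun v : Fin (a + 1) → Fin p => ∑ b, (v b : ℕ) = s),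
    C (∏ b, inv (v b) * c b ^ (v b : ℕ)) * X ^ (∑ b : Fin (a + 1), (b : ℕ) * (v b : ℕ))

/-- the polynomial of a digit -/
noncomputable def gA (p : ℕ) {a : ℕ} (s : ℕ) (inv : ℕ → A) (c : Fin (a + 1) → A) : A[X] :=
  C (-((s.factorial : ℕ) : A)) * Ep p (s + (p - 1)) inv c

theorem map_gA (φ : A →+* B) (p : ℕ) {a : ℕ} (s : ℕ) (inv : ℕ → A) (inv' : ℕ → B)
    (h : ∀ i, φ (inv i) = inv' i) (c : Fin (a + 1) → A) :
    (gA p s inv c).map φ = gA p s inv' (fun b => φ (c b)) := by
  unfold gA Ep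
  rw [Polynomial.map_mul, map_C, map_neg, map_natCast, Polynomial.map_sum]
  congr 1
  refine sum_congr rfl fun v _ => ?_
  rw [Polynomial.map_mul, map_C, Polynomial.map_pow, map_X, map_prod]
  congr 2
  refine prod_congr rfl fun b _ => ?_
  rw [map_mul, map_pow, h]

theorem natDegree_gA (p : ℕ) {a : ℕ} (s : ℕ) (inv : ℕ → A) (c : Fin (a + 1) → A) :
    (gA p s inv c).natDegree ≤ a * (s + (p - 1)) := by
  unfold gA Ep
  refine (natDegree_C_mul_le _ _).trans (natDegree_sum_le_of_forall_le _ _ fun v hv => ?_)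
  rw [mem_filter] at hv
  refine (natDegree_C_mul_X_pow_le _ _).trans ?_
  rw [← hv.2, mul_sum]
  exact sum_le_sum fun b _ => Nat.mul_le_mul_right _ (Nat.lt_succ_iff.1 b.2)

/-- the matrix of a digit -/
noncomputable def kA (p : ℕ) {a : ℕ} (s : ℕ) (inv : ℕ → A) (c : Fin (a + 1) → A) :
    Matrix (Fin (a + 1) × Unit) (Fin (a + 1) × Unit) A :=
  kmat p (a + 1) (one' (gA p s inv c))

end pol

section tr

variable {p : ℕ} [hp : Fact p.Prime] {K : Type} [Field K] [CharP K p]

/-- the inverse of the factorial -/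
noncomputable def ivf (K : Type) [Field K] (i : ℕ) : K := ((i.factorial : ℕ) : K)⁻¹

theorem digit_small {N a : ℕ} (hN : 0 < N) {m : ℕ → ℕ} (hm : ∀ i, m (i + N) = m i)
    (har : ∀ i, a * rot p N m i < p ^ N - 1) (i : ℕ) : a * m i < p := by
  have h1 := har (i + 1)
  obtain ⟨N', rfl⟩ : ∃ N', N = N' + 1 := ⟨N - 1, by omega⟩
  have h2 : m i * p ^ N' ≤ rot p (N' + 1) m (i + 1) := by
    unfold rot
    rw [sum_range_succ]
    have e : i + 1 + N' = i + (N' + 1) := by ring
    rw [e, hm]
    exact Nat.le_add_left _ _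
  have h3 : a * (m i * p ^ N') < p * p ^ N' := by
    calc a * (m i * p ^ N') ≤ a * rot p (N' + 1) m (i + 1) := Nat.mul_le_mul_left _ h2
      _ < p ^ (N' + 1) - 1 := h1
      _ ≤ p ^ (N' + 1) := Nat.sub_le _ _
      _ = p * p ^ N' := by rw [pow_succ, mul_comm]
  rw [← mul_assoc] at h3
  exact Nat.lt_of_mul_lt_mul_right h3

variable {F : Type} [Field F] (σ : F →+* K)

open Classical in
theorem trace_eq {N a : ℕ} (hN : 0 < N) {m : ℕ → ℕ} (hma : ∀ i, a * m i < p)
    (c : Fin (a + 1) → F) :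
    (mprod (fun j => kA p (m j) (ivf K) (fun b => σ (c b) ^ p ^ j)) N).trace =
      (∏ i : Fin N, (-(((m i).factorial : ℕ) : K))) *
          ∑ Δ ∈ univ.filter (fun Δ : Fin (a + 1) → Fin N → Fin p => IsMin m Δ),
            ldc σ c Δ := by
  have hp1 := hp.out.one_lt
  set g : ℕ → K[X] := fun j => gA p (m j) (ivf K) (fun b => σ (c b) ^ p ^ j) with hg
  have hdeg : ∀ j, (g j).natDegree < (p - 1) * (a + 1 + 1) := by
    intro j
    refine lt_of_le_of_lt (natDegree_gA p (m j) (ivf K) _) ?_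
    have h1 := hma j
    calc a * (m j + (p - 1)) = a * m j + (p - 1) * a := by ring
      _ < (p - 1) * (a + 1 + 1) := by
        have e : (p - 1) * (a + 1 + 1) = (p - 1) * a + (p - 1) + (p - 1) := by ring
        omega
  have h1 := trace_mprod_kmat (m := a + 1) hp.out.pos (G := fun j => one' (g j))
    (fun j _ _ => hdeg j) N
  have hgp : (gprod p (fun j => one' (g j)) N).trace =
      ∏ j : Fin N, expand K (p ^ (j : ℕ)) (g j) := by
    unfold gprod
    have h3 : (fun n => (one' (g n)).map (expand K (p ^ n))) =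
        fun n => one' (expand K (p ^ n) (g n)) := by
      funext n
      rfl
    rw [h3, mprod_one', trace_one', Finset.prod_range]
  have hex : ∀ j : Fin N, expand K (p ^ (j : ℕ)) (g j) =
      ∑ v ∈ univ.filter (fun v : Fin (a + 1) → Fin p => ∑ b, (v b : ℕ) = m j + (p - 1)),
        C (-(((m j).factorial : ℕ) : K) *
          ∏ b, ivf K (v b) * (σ (c b) ^ p ^ (j : ℕ)) ^ (v b : ℕ)) *
        X ^ (p ^ (j : ℕ) * ∑ b : Fin (a + 1), (b : ℕ) * (v b : ℕ)) := by
    intro j
    rw [hg]
    show expand K (p ^ (j : ℕ)) (gA p (m j) (ivf K) (fun b => σ (c b) ^ p ^ (j : ℕ))) = _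
    unfold gA Ep
    rw [map_mul, expand_C, map_sum, mul_sum]
    refine sum_congr rfl fun v _ => ?_
    rw [map_mul, expand_C, map_pow, expand_X, ← pow_mul, ← mul_assoc, ← C_mul]
  unfold kA
  rw [h1, hgp, prod_congr rfl fun j _ => hex j, prod_univ_sum]
  set t : Fin N → Finset (Fin (a + 1) → Fin p) := fun j =>
    univ.filter (fun v : Fin (a + 1) → Fin p => ∑ b, (v b : ℕ) = m j + (p - 1)) with ht
  have hterm : ∀ δ : Fin N → Fin (a + 1) → Fin p,
      ∏ j : Fin N, (C (-(((m j).factorial : ℕ) : K) *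
          ∏ b, ivf K (δ j b) * (σ (c b) ^ p ^ (j : ℕ)) ^ (δ j b : ℕ)) *
        X ^ (p ^ (j : ℕ) * ∑ b : Fin (a + 1), (b : ℕ) * (δ j b : ℕ)) : K[X]) =
      C ((∏ i : Fin N, (-(((m i).factorial : ℕ) : K))) * ldc σ c (fun b i => δ i b)) *
        X ^ (∑ b : Fin (a + 1), (b : ℕ) * nv (fun i => δ i b)) := by
    intro δ
    have e1 : ∏ j : Fin N, ∏ b, ivf K (δ j b) * (σ (c b) ^ p ^ (j : ℕ)) ^ (δ j b : ℕ) =
        ldc σ c (fun b i => δ i b) := by
      unfold ldc
      rw [prod_comm]
      refine prod_congr rfl fun b _ => ?_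
      rw [prod_mul_distrib]
      congr 1
      · unfold ivf
        rw [prod_inv_distrib]
      · unfold nv
        rw [← prod_pow_eq_pow_sum]
        refine prod_congr rfl fun i _ => ?_
        rw [← pow_mul, mul_comm]
    have e2 : ∑ j : Fin N, p ^ (j : ℕ) * ∑ b : Fin (a + 1), (b : ℕ) * (δ j b : ℕ) =
        ∑ b : Fin (a + 1), (b : ℕ) * nv (fun i => δ i b) := by
      unfold nv
      simp only [mul_sum]
      rw [sum_comm]
      refine sum_congr rfl fun b _ => sum_congr rfl fun i _ => ?_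
      ring
    rw [prod_mul_distrib, prod_pow_eq_pow_sum, ← map_prod, prod_mul_distrib, e1, e2]
  rw [sum_congr rfl fun δ _ => hterm δ]
  have hn : 0 < p ^ N - 1 := by
    have := Nat.one_lt_pow hN.ne' hp1
    omega
  set κ : (Fin N → Fin (a + 1) → Fin p) → K := fun δ =>
    (∏ i : Fin N, (-(((m i).factorial : ℕ) : K))) * ldc σ c (fun b i => δ i b) with hκ
  have hco : ∀ i : ℕ, (∑ δ ∈ Fintype.piFinset t, (C (κ δ) *
      X ^ (∑ b : Fin (a + 1), (b : ℕ) * nv (fun i => δ i b)) : K[X])).coeff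
        ((p ^ N - 1) * (i + 1)) = ∑ δ ∈ Fintype.piFinset t,
        if (p ^ N - 1) * (i + 1) = ∑ b : Fin (a + 1), (b : ℕ) * nv (fun i => δ i b) then
          κ δ else 0 := by
    intro i
    rw [finsetSum_coeff]
    refine sum_congr rfl fun δ _ => ?_
    rw [coeff_C_mul, coeff_X_pow, mul_ite, mul_one, mul_zero]
  rw [sum_congr rfl fun i _ => hco i, sum_comm, mul_sum, sum_filter]
  have hL : ∑ δ ∈ Fintype.piFinset t, ∑ i ∈ range (a + 1),
      (if (p ^ N - 1) * (i + 1) = ∑ b : Fin (a + 1), (b : ℕ) * nv (fun i => δ i b) then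
          κ δ else 0) = ∑ δ : Fin N → Fin (a + 1) → Fin p,
      if IsMin m (fun b i => δ i b) then κ δ else 0 := by
    have h3 : ∀ δ : Fin N → Fin (a + 1) → Fin p, (if δ ∈ Fintype.piFinset t then
        ∑ i ∈ range (a + 1), (if (p ^ N - 1) * (i + 1) =
          ∑ b : Fin (a + 1), (b : ℕ) * nv (fun i => δ i b) then κ δ else 0) else 0) =
        if IsMin m (fun b i => δ i b) then κ δ else 0 := by
      intro δ
      have hmem : δ ∈ Fintype.piFinset t ↔ ∀ i : Fin N, ∑ b, (δ i b : ℕ) = m i + (p - 1) := by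
        rw [Fintype.mem_piFinset]
        refine forall_congr' fun i => ?_
        rw [ht, mem_filter]
        simp
      by_cases h4 : δ ∈ Fintype.piFinset t
      · rw [if_pos h4]
        by_cases h5 : ∃ e ∈ range (a + 1),
            ∑ b : Fin (a + 1), (b : ℕ) * nv (fun i => δ i b) = (p ^ N - 1) * (e + 1)
        · rw [if_pos ⟨hmem.1 h4, h5⟩]
          obtain ⟨e, he, h6⟩ := h5
          rw [Finset.sum_eq_single e, if_pos h6.symm]
          · intro e' _ hne
            rw [if_neg]
            intro h7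
            apply hne
            have h8 := Nat.eq_of_mul_eq_mul_left hn (h7.trans h6)
            omega
          · intro h7
            exact absurd he h7
        · rw [if_neg (fun h6 => h5 h6.2)]
          refine sum_eq_zero fun i hi => ?_
          rw [if_neg]
          intro h6
          exact h5 ⟨i, hi, h6.symm⟩
      · rw [if_neg h4, if_neg (fun h5 => h4 (hmem.2 h5.1))]
    rw [← sum_congr rfl fun δ _ => h3 δ, ← sum_filter]
    refine sum_congr ?_ fun _ _ => rfl
    ext δ
    simp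
  rw [hL]
  refine Fintype.sum_equiv (Equiv.piComm fun _ _ => Fin p) _ _ fun δ => ?_
  show _ = if IsMin m (fun b i => δ i b) then _ else _
  split_ifs
  · rfl
  · rfl

end tr

end Pool.Agent.K4H5.BC
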